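import Pool.Agent.Helper29.CKP.Br2

set_option autoImplicit false

/-!
# The bridge: Cartan decompositions of reductive groups and of reductive subgroups of products
-/

open NormedSpace Filter Topology Matrix Pool.Agent.Helper17.CKF Pool.Agent.Helper20.CKP

namespace Pool.Agent.Helper29.CKP

theorem expGL_val {n : ℕ} (X : Matrix (Fin n) (Fin n) ℝ) :
    ((expGL X : GL (Fin n) ℝ) : Matrix (Fin n) (Fin n) ℝ) = exp X := rfl

theorem eq_expGL {n : ℕ} {g : GL (Fin n) ℝ} {X : Matrix (Fin n) (Fin n) ℝ} :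
    g = expGL X ↔ (g : Matrix (Fin n) (Fin n) ℝ) = exp X :=
  ⟨fun h => by rw [h, expGL_val], fun h => Units.ext h⟩

/-! ### A matrix group is locally compact -/

theorem t2_of {G : Type} [Group G] [TopologicalSpace G] {n : ℕ} (M : MatGroup G n) : T2Space G :=
  T2Space.of_injective_continuous M.inj M.cont

theorem locallyCompact_of {G : Type} [Group G] [TopologicalSpace G] [IsTopologicalGroup G] {n : ℕ}
    (M : MatGroup G n) : LocallyCompactSpace G := by
  have := t2_of M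
  have : WeaklyLocallyCompactSpace G := ⟨fun g => by
    refine ⟨_, M.compact (M.N g + 1), ?_⟩
    have h1 : ∀ᶠ x in 𝓝 g, M.N x < M.N g + 1 :=
      (M.continuous_N.tendsto g).eventually (gt_mem_nhds (by linarith))
    filter_upwards [h1] with x hx using hx.le⟩
  infer_instance

/-! ### One group -/

section one
variable {n : ℕ} {G : Subgroup (GL (Fin n) ℝ)}

theorem mem_map_expGL {H : Subgroup G} {X : Matrix (Fin n) (Fin n) ℝ} :
    expGL X ∈ H.map G.subtype ↔
      ∃ h ∈ H, ((h : GL (Fin n) ℝ) : Matrix (Fin n) (Fin n) ℝ) = exp X := by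
  constructor
  · rintro ⟨h, hh, e⟩
    exact ⟨h, hh, eq_expGL.1 e⟩
  · rintro ⟨h, hh, e⟩
    exact ⟨h, hh, eq_expGL.2 e⟩

theorem closed_of_map {H : Subgroup G} (hH : IsClosed ((H.map G.subtype : Subgroup (GL (Fin n) ℝ)) :
    Set (GL (Fin n) ℝ))) : IsClosed (H : Set G) := by
  have e : (H : Set G) = Subtype.val ⁻¹' ((H.map G.subtype : Subgroup (GL (Fin n) ℝ)) :
      Set (GL (Fin n) ℝ)) := by
    ext h
    constructor
    · intro hh
      exact ⟨h, hh, rfl⟩
    · rintro ⟨h', hh', e⟩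
      have : h' = h := Subtype.ext e
      exact this ▸ hh'
  rw [e]
  exact hH.preimage continuous_subtype_val

theorem one_pow (hG : IsClosed (G : Set (GL (Fin n) ℝ))) {H : Subgroup G}
    (hH : IsReductive (H.map G.subtype)) (X : Matrix (Fin n) (Fin n) ℝ) (hX : Xᵀ = X)
    (h : ∃ h ∈ H, (oneM hG).ι h = exp X) (t : ℝ) : ∃ h ∈ H, (oneM hG).ι h = exp (t • X) :=
  mem_map_expGL.1 (hH.power X hX (mem_map_expGL.2 h) t)

theorem one_transpose (hG : IsClosed (G : Set (GL (Fin n) ℝ))) {H : Subgroup G}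
    (hH : IsReductive (H.map G.subtype)) (h : G) (hh : h ∈ H) :
    ∃ h' ∈ H, (oneM hG).ι h' = ((oneM hG).ι h)ᵀ := by
  obtain ⟨_, ⟨h', hh', rfl⟩, e⟩ := hH.transpose h ⟨h, hh, rfl⟩
  exact ⟨h', hh', e⟩

theorem pSpace_map_eq (hG : IsClosed (G : Set (GL (Fin n) ℝ))) {H : Subgroup G}
    (hH : IsReductive (H.map G.subtype)) :
    pSpace (H.map G.subtype) = lie (oneM hG) H (closed_of_map hH.closed) ⊓ symS n := by
  have e : {X : Matrix (Fin n) (Fin n) ℝ | Xᵀ = X ∧ expGL X ∈ H.map G.subtype} =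
      ((lie (oneM hG) H (closed_of_map hH.closed) ⊓ symS n :
        Submodule ℝ (Matrix (Fin n) (Fin n) ℝ)) : Set (Matrix (Fin n) (Fin n) ℝ)) := by
    ext X
    constructor
    · rintro ⟨h1, h2⟩
      exact ⟨one_pow hG hH X h1 (mem_map_expGL.1 h2), h1⟩
    · rintro ⟨h1, h2⟩
      refine ⟨h2, mem_map_expGL.2 ?_⟩
      obtain ⟨h, hh, e⟩ := h1 1
      exact ⟨h, hh, by rw [← one_smul ℝ X]; exact e⟩
  rw [pSpace, e, Submodule.span_eq]

/-- The Cartan decomposition of a reductive subgroup of a closed linear group. -/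
theorem cartan_one (hG : IsClosed (G : Set (GL (Fin n) ℝ))) {H : Subgroup G}
    (hH : IsReductive (H.map G.subtype)) : Cartan (oneM hG) H (pSpace (H.map G.subtype)) := by
  rw [pSpace_map_eq hG hH]
  exact cartan_of (oneM hG) _ (one_transpose hG hH) (one_pow hG hH)

theorem map_top_subtype : (⊤ : Subgroup G).map G.subtype = G := by
  rw [← MonoidHom.range_eq_map, Subgroup.range_subtype]

/-- The Cartan decomposition of a reductive linear group. -/
theorem cartan_top (hG : IsReductive G) : Cartan (oneM hG.closed) ⊤ (pSpace G) := by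
  have h := cartan_one hG.closed (H := ⊤) (by rw [map_top_subtype]; exact hG)
  rwa [map_top_subtype] at h

theorem mem_pSpace (hG : IsReductive G) {X : Matrix (Fin n) (Fin n) ℝ} :
    X ∈ pSpace G ↔ Xᵀ = X ∧ expGL X ∈ G := by
  constructor
  · intro hX
    have h1 := cartan_top hG
    refine ⟨h1.symm X hX, ?_⟩
    obtain ⟨h, -, e⟩ := h1.exp_mem X hX
    have e' : (h : GL (Fin n) ℝ) = expGL X := eq_expGL.2 e
    rw [← e']
    exact h.2
  · intro hX
    exact Submodule.subset_span hX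

/-- The polar decomposition of a reductive linear group. -/
theorem polar_one (hG : IsReductive G) {g : GL (Fin n) ℝ} (hg : g ∈ G) :
    ∃ X ∈ pSpace G, Xᵀ = X ∧ ∃ k ∈ G,
      (k : Matrix (Fin n) (Fin n) ℝ) * (k : Matrix (Fin n) (Fin n) ℝ)ᵀ = 1 ∧ g = expGL X * k := by
  obtain ⟨X, hX, k, -, hk, e⟩ := (cartan_top hG).polar ⟨g, hg⟩ (Subgroup.mem_top _)
  exact ⟨X, hX, (cartan_top hG).symm X hX, k, k.2, hk, Units.ext e⟩

end one

/-! ### Products -/

section prod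
variable {r : ℕ} {n : Fin r → ℕ} {G : ∀ i, Subgroup (GL (Fin (n i)) ℝ)}

theorem exists_blk_log {A : ∀ i, Matrix (Fin (n i)) (Fin (n i)) ℝ} (hA : ∀ i, IsUnit (A i))
    {Z : Matrix (Fin (∑ i, n i)) (Fin (∑ i, n i)) ℝ} (hZ : Zᵀ = Z) (h : blk n A = exp Z) :
    ∃ X : ∀ i, Matrix (Fin (n i)) (Fin (n i)) ℝ, blk n X = Z ∧ (∀ i, (X i)ᵀ = X i) ∧
      ∀ i, A i = exp (X i) := by
  choose W hW eW using fun i => exists_log (posDef_mul_transpose (hA i))
  have h1 : exp (blk n W) = exp (Z + Z) := by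
    rw [blk_exp, funext eW, ← blk_mul, ← blk_transpose, h, ← Matrix.exp_transpose, hZ,
      Matrix.exp_add_of_commute _ _ (Commute.refl Z)]
  have h2 : blk n W = Z + Z := exp_inj (isSymm_blk.2 hW) (by rw [transpose_add, hZ]) h1
  have h3 : blk n (fun i => (1 / 2 : ℝ) • W i) = Z := by
    have e : (fun i => (1 / 2 : ℝ) • W i) = (1 / 2 : ℝ) • W := rfl
    rw [e, map_smul, h2]
    module
  refine ⟨fun i => (1 / 2 : ℝ) • W i, h3, fun i => by rw [transpose_smul, hW], fun i => ?_⟩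
  have h4 : blk n A = blk n (fun i => exp ((1 / 2 : ℝ) • W i)) := by
    rw [h, ← h3, blk_exp]
  exact congrFun (blk_inj h4) i

theorem isUnit_coe (g : ∀ i, G i) (i : Fin r) :
    IsUnit ((g i : GL (Fin (n i)) ℝ) : Matrix (Fin (n i)) (Fin (n i)) ℝ) :=
  ⟨(g i : GL (Fin (n i)) ℝ), rfl⟩

variable (hG : ∀ i, IsClosed (G i : Set (GL (Fin (n i)) ℝ)))
include hG

theorem prod_pow {H : Subgroup (∀ i, G i)} (hH : IsReductiveIn H)
    (Z : Matrix (Fin (∑ i, n i)) (Fin (∑ i, n i)) ℝ) (hZ : Zᵀ = Z)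
    (h : ∃ h ∈ H, (prodM hG).ι h = exp Z) (t : ℝ) :
    ∃ h ∈ H, (prodM hG).ι h = exp (t • Z) := by
  obtain ⟨h, hh, e⟩ := h
  obtain ⟨X, hXZ, hX, hXe⟩ := exists_blk_log (isUnit_coe h) hZ e
  obtain ⟨h', hh', e'⟩ := hH.power X hX ⟨h, hh, fun i => eq_expGL.2 (hXe i)⟩ t
  refine ⟨h', hh', ?_⟩
  have e2 : t • Z = blk n (fun i => t • X i) := by
    rw [← hXZ, ← map_smul]
    rfl
  rw [e2, blk_exp, prodM_ι]
  congr 1
  funext i
  exact eq_expGL.1 (e' i)

theorem prod_transpose {H : Subgroup (∀ i, G i)} (hH : IsReductiveIn H) (h : ∀ i, G i)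
    (hh : h ∈ H) : ∃ h' ∈ H, (prodM hG).ι h' = ((prodM hG).ι h)ᵀ := by
  obtain ⟨h', hh', e⟩ := hH.transpose h hh
  refine ⟨h', hh', ?_⟩
  rw [prodM_ι, prodM_ι, blk_transpose]
  congr 1
  funext i
  exact e i

theorem pSub_eq {H : Subgroup (∀ i, G i)} (hH : IsReductiveIn H) :
    pSub H = (lie (prodM hG) H hH.closed ⊓ symS (∑ i, n i)).comap (blk n) := by
  have e : {X : ∀ i, Matrix (Fin (n i)) (Fin (n i)) ℝ | (∀ i, (X i)ᵀ = X i) ∧
      ∃ h ∈ H, ∀ i, (h i : GL (Fin (n i)) ℝ) = expGL (X i)} =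
      (((lie (prodM hG) H hH.closed ⊓ symS (∑ i, n i)).comap (blk n) :
        Submodule ℝ (∀ i, Matrix (Fin (n i)) (Fin (n i)) ℝ)) :
          Set (∀ i, Matrix (Fin (n i)) (Fin (n i)) ℝ)) := by
    ext X
    constructor
    · rintro ⟨h1, h, hh, h2⟩
      refine ⟨prod_pow hG hH (blk n X) (isSymm_blk.2 h1) ⟨h, hh, ?_⟩, isSymm_blk.2 h1⟩
      rw [blk_exp, prodM_ι]
      congr 1
      funext i
      exact eq_expGL.1 (h2 i)
    · rintro ⟨h1, h2⟩
      refine ⟨isSymm_blk.1 h2, ?_⟩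
      obtain ⟨h, hh, e⟩ := h1 1
      rw [one_smul, blk_exp, prodM_ι] at e
      exact ⟨h, hh, fun i => eq_expGL.2 (congrFun (blk_inj e) i)⟩
  rw [pSub, e, Submodule.span_eq]

theorem mem_pSub {H : Subgroup (∀ i, G i)} (hH : IsReductiveIn H)
    {X : ∀ i, Matrix (Fin (n i)) (Fin (n i)) ℝ} : X ∈ pSub H ↔ (∀ i, (X i)ᵀ = X i) ∧
      ∃ h ∈ H, ∀ i, (h i : GL (Fin (n i)) ℝ) = expGL (X i) := by
  constructor
  · intro hX
    rw [pSub_eq hG hH] at hX
    obtain ⟨h1, h2⟩ := hX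
    refine ⟨isSymm_blk.1 h2, ?_⟩
    obtain ⟨h, hh, e⟩ := h1 1
    rw [one_smul, blk_exp, prodM_ι] at e
    exact ⟨h, hh, fun i => eq_expGL.2 (congrFun (blk_inj e) i)⟩
  · intro hX
    exact Submodule.subset_span hX

theorem pSub_map_eq {H : Subgroup (∀ i, G i)} (hH : IsReductiveIn H) :
    (pSub H).map (blk n) = lie (prodM hG) H hH.closed ⊓ symS (∑ i, n i) := by
  rw [pSub_eq hG hH, Submodule.map_comap_eq, inf_eq_right]
  rintro Z ⟨h1, h2⟩
  obtain ⟨h, hh, e⟩ := h1 1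
  rw [one_smul, prodM_ι] at e
  obtain ⟨X, hX, -⟩ := exists_blk_log (isUnit_coe h) h2 e
  exact ⟨X, hX⟩

/-- The Cartan decomposition of a reductive subgroup of a product. -/
theorem cartan_prod {H : Subgroup (∀ i, G i)} (hH : IsReductiveIn H) :
    Cartan (prodM hG) H ((pSub H).map (blk n)) := by
  rw [pSub_map_eq hG hH]
  exact cartan_of (prodM hG) _ (prod_transpose hG hH) (prod_pow hG hH)

/-- The polar decomposition of a reductive subgroup of a product. -/
theorem polar_prod {H : Subgroup (∀ i, G i)} (hH : IsReductiveIn H) {h : ∀ i, G i} (hh : h ∈ H) :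
    ∃ X ∈ pSub H, (∀ i, (X i)ᵀ = X i) ∧ ∃ k ∈ H,
      (∀ i, ((k i : GL (Fin (n i)) ℝ) : Matrix (Fin (n i)) (Fin (n i)) ℝ) *
        ((k i : GL (Fin (n i)) ℝ) : Matrix (Fin (n i)) (Fin (n i)) ℝ)ᵀ = 1) ∧
        ∀ i, (h i : GL (Fin (n i)) ℝ) = expGL (X i) * k i := by
  obtain ⟨Z, hZ, k, hk, hk1, e⟩ := (cartan_prod hG hH).polar h hh
  obtain ⟨X, hX, rfl⟩ := Submodule.mem_map.1 hZ
  refine ⟨X, hX, ((mem_pSub hG hH).1 hX).1, k, hk, fun i => ?_, fun i => ?_⟩
  · rw [prodM_ι, blk_transpose, blk_mul, ← blk_one] at hk1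
    exact congrFun (blk_inj hk1) i
  · rw [prodM_ι, prodM_ι, blk_exp, blk_mul] at e
    exact Units.ext (congrFun (blk_inj e) i)

omit hG in
theorem isReductiveIn_top (hG : ∀ i, IsReductive (G i)) :
    IsReductiveIn (⊤ : Subgroup (∀ i, G i)) where
  closed := isClosed_univ
  transpose := by
    intro h _
    choose g hg e using fun i => (hG i).transpose (h i) (h i).2
    exact ⟨fun i => ⟨g i, hg i⟩, Subgroup.mem_top _, e⟩
  power := by
    rintro X hX ⟨h, -, e⟩ t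
    refine ⟨fun i => ⟨expGL (t • X i), (hG i).power (X i) (hX i) ?_ t⟩, Subgroup.mem_top _,
      fun i => rfl⟩
    rw [← e i]
    exact (h i).2

omit hG in
theorem pSub_top (hG : ∀ i, IsReductive (G i)) :
    pSub (⊤ : Subgroup (∀ i, G i)) = Submodule.pi Set.univ fun i => pSpace (G i) := by
  ext X
  rw [mem_pSub (fun i => (hG i).closed) (isReductiveIn_top hG), Submodule.mem_pi]
  constructor
  · rintro ⟨h1, h, -, e⟩ i -
    refine (mem_pSpace (hG i)).2 ⟨h1 i, ?_⟩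
    rw [← e i]
    exact (h i).2
  · intro h
    have h' := fun i => (mem_pSpace (hG i)).1 (h i (Set.mem_univ i))
    exact ⟨fun i => (h' i).1, fun i => ⟨expGL (X i), (h' i).2⟩, Subgroup.mem_top _, fun i => rfl⟩

omit hG in
/-- The Cartan decomposition of a product of reductive groups. -/
theorem cartan_prod_top (hG : ∀ i, IsReductive (G i)) :
    Cartan (prodM fun i => (hG i).closed) ⊤
      ((Submodule.pi Set.univ fun i => pSpace (G i)).map (blk n)) := by
  rw [← pSub_top hG]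
  exact cartan_prod _ (isReductiveIn_top hG)

omit hG in
theorem pSub_apply_mem (hG : ∀ i, IsReductive (G i)) {H : Subgroup (∀ i, G i)}
    (hH : IsReductiveIn H) {X : ∀ i, Matrix (Fin (n i)) (Fin (n i)) ℝ} (hX : X ∈ pSub H)
    (i : Fin r) : X i ∈ pSpace (G i) := by
  obtain ⟨h1, h, -, e⟩ := (mem_pSub (fun i => (hG i).closed) hH).1 hX
  refine (mem_pSpace (hG i)).2 ⟨h1 i, ?_⟩
  rw [← e i]
  exact (h i).2

end prod

end Pool.Agent.Helper29.CKP
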