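import Pool.Agent.Helper29.CKP.Conj

set_option autoImplicit false

/-!
# Conjugation into a commuting space of symmetric matrices: the maximum of a trace
-/

open NormedSpace Filter Topology Matrix Pool.Agent.Helper17.CKF

namespace Pool.Agent.Helper29.CKP

variable {G : Type} [Group G] [TopologicalSpace G] {n : ℕ}

theorem hasDerivAt_trace {f : ℝ → Matrix (Fin n) (Fin n) ℝ} {f' : Matrix (Fin n) (Fin n) ℝ}
    {x : ℝ} (h : HasDerivAt f f' x) : HasDerivAt (fun s => (f s).trace) f'.trace x := by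
  open scoped Norms.Operator in
  exact ((LinearMap.toContinuousLinearMap
    (Matrix.traceLinearMap (Fin n) ℝ ℝ)).hasFDerivAt.comp_hasDerivAt x h)

/-- The exponential is injective on symmetric matrices. -/
theorem exp_inj {X Y : Matrix (Fin n) (Fin n) ℝ} (hX : Xᵀ = X) (hY : Yᵀ = Y)
    (h : exp X = exp Y) : X = Y := by
  have hX' : IsSelfAdjoint X := by
    rw [← conjTranspose_eq_transpose_of_trivial] at hX
    exact hX
  have hY' : IsSelfAdjoint Y := by
    rw [← conjTranspose_eq_transpose_of_trivial] at hY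
    exact hY
  open scoped Norms.L2Operator in
  rw [← CFC.log_exp X hX', ← CFC.log_exp Y hY', h]

theorem inv_eq_transpose (M : MatGroup G n) {k : G} (hk : M.ι k * (M.ι k)ᵀ = 1) :
    M.ι k⁻¹ = (M.ι k)ᵀ := by
  calc M.ι k⁻¹ = M.ι k⁻¹ * (M.ι k * (M.ι k)ᵀ) := by rw [hk, mul_one]
    _ = (M.ι k)ᵀ := by rw [← mul_assoc, B2_inv_mul, one_mul]

theorem transpose_mul_eq_one (M : MatGroup G n) {k : G} (hk : M.ι k * (M.ι k)ᵀ = 1) :
    (M.ι k)ᵀ * M.ι k = 1 := by
  rw [← inv_eq_transpose M hk, B2_inv_mul]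

/-- The orthogonal elements of a closed group are a compact set. -/
theorem isCompact_orth (M : MatGroup G n) {H : Subgroup G} (hH : IsClosed (H : Set G)) :
    IsCompact {k : G | k ∈ H ∧ M.ι k * (M.ι k)ᵀ = 1} := by
  refine (M.compact (fn (1 : Matrix (Fin n) (Fin n) ℝ) + fn (1 : Matrix (Fin n) (Fin n) ℝ))
    ).of_isClosed_subset ?_ ?_
  · exact hH.inter (isClosed_eq (M.cont.mul M.cont.matrix_transpose) continuous_const)
  · rintro k ⟨-, hk⟩
    have hk' := transpose_mul_eq_one M hk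
    have h1 : fn (M.ι k) = fn (1 : Matrix (Fin n) (Fin n) ℝ) := by
      rw [fn_eq_trace, hk', fn_eq_trace, transpose_one, one_mul]
    have h2 : fn (M.ι k⁻¹) = fn (1 : Matrix (Fin n) (Fin n) ℝ) := by
      rw [inv_eq_transpose M hk, fn_eq_trace, transpose_transpose, hk, fn_eq_trace, transpose_one,
        one_mul]
    show fn (M.ι k) + fn (M.ι k⁻¹) ≤ _
    rw [h1, h2]

/-- The exponential of a skew matrix is orthogonal. -/
theorem exp_skew {Y : Matrix (Fin n) (Fin n) ℝ} (hY : Yᵀ = -Y) : exp Y * (exp Y)ᵀ = 1 := by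
  rw [← Matrix.exp_transpose, hY, ← Matrix.exp_add_of_commute _ _ (Commute.refl Y).neg_right,
    add_neg_cancel, exp_zero]

variable [IsTopologicalGroup G]

/-- In a group with a Cartan decomposition the symmetric elements of the Lie algebra form the given
space. -/
theorem cartan_eq {M : MatGroup G n} {H : Subgroup G}
    {q : Submodule ℝ (Matrix (Fin n) (Fin n) ℝ)} (hH : Cartan M H q)
    {X : Matrix (Fin n) (Fin n) ℝ} :
    X ∈ q ↔ X ∈ lie M H hH.closed ∧ Xᵀ = X := by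
  refine ⟨fun hX => ⟨fun t => hH.exp_mem _ (q.smul_mem t hX), hH.symm _ hX⟩, fun ⟨h1, h2⟩ => ?_⟩
  obtain ⟨h, hh, e⟩ := h1 1
  rw [one_smul] at e
  obtain ⟨X', hX', k, -, hk, e'⟩ := hH.polar h hh
  have hX't := hH.symm _ hX'
  have e1 : exp X = exp X' * M.ι k := by rw [← e, e']
  have e2 : exp X * (exp X)ᵀ = exp X' * (exp X')ᵀ := by
    rw [e1, transpose_mul, mul_assoc, ← mul_assoc (M.ι k), hk, one_mul]
  rw [← Matrix.exp_transpose, ← Matrix.exp_transpose, h2, hX't,
    ← Matrix.exp_add_of_commute _ _ (Commute.refl X),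
    ← Matrix.exp_add_of_commute _ _ (Commute.refl X')] at e2
  have e3 := exp_inj (by rw [transpose_add, h2]) (by rw [transpose_add, hX't]) e2
  have e4 : X = X' := by
    rw [← two_smul ℝ X, ← two_smul ℝ X'] at e3
    exact smul_right_injective _ (two_ne_zero) e3
  rw [e4]
  exact hX'

/-- `q` is stable under the orthogonal elements of `H`. -/
theorem cartan_conj {M : MatGroup G n} {H : Subgroup G}
    {q : Submodule ℝ (Matrix (Fin n) (Fin n) ℝ)} (hH : Cartan M H q)
    {X : Matrix (Fin n) (Fin n) ℝ} (hX : X ∈ q) {k : G} (hk : k ∈ H)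
    (hk' : M.ι k * (M.ι k)ᵀ = 1) : M.ι k * X * (M.ι k)ᵀ ∈ q := by
  rw [cartan_eq hH] at hX ⊢
  refine ⟨?_, ?_⟩
  · have := conj_mem_lie hX.1 hk
    rwa [inv_eq_transpose M hk'] at this
  · rw [transpose_mul, transpose_mul, transpose_transpose, hX.2, mul_assoc]

/-- Every element of `q` is conjugate, by an orthogonal element of `H`, to an element commuting
with `t`. -/
theorem exists_conj_commute {M : MatGroup G n} {H : Subgroup G}
    {q : Submodule ℝ (Matrix (Fin n) (Fin n) ℝ)} (hH : Cartan M H q)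
    {t z : Matrix (Fin n) (Fin n) ℝ} (ht : t ∈ q) (hz : z ∈ q) :
    ∃ k ∈ H, M.ι k * (M.ι k)ᵀ = 1 ∧ adm t (M.ι k * z * (M.ι k)ᵀ) = 0 := by
  have hcont : Continuous fun k : G => (M.ι k * z * (M.ι k)ᵀ * t).trace :=
    (((M.cont.mul continuous_const).mul M.cont.matrix_transpose).mul continuous_const).matrix_trace
  obtain ⟨k, ⟨hk, hk'⟩, hmax⟩ := (isCompact_orth M hH.closed).exists_isMaxOn
    ⟨1, H.one_mem, by rw [map_one, transpose_one, one_mul]⟩ hcont.continuousOn
  refine ⟨k, hk, hk', ?_⟩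
  set z' := M.ι k * z * (M.ι k)ᵀ with hz'
  have hz'q : z' ∈ q := cartan_conj hH hz hk hk'
  have htL := (cartan_eq hH).1 ht
  have hzL := (cartan_eq hH).1 hz'q
  set Y := adm t z' with hY
  have hYL : Y ∈ lie M H hH.closed := lie_mem_lie htL.1 hzL.1
  have hYt : Yᵀ = -Y := adm_skew htL.2 hzL.2
  have hle : ∀ s : ℝ, (exp (s • Y) * z' * exp (s • (-Y)) * t).trace ≤ (z' * t).trace := by
    intro s
    obtain ⟨h, hh, e⟩ := hYL s
    have hsk : (s • Y)ᵀ = -(s • Y) := by rw [transpose_smul, hYt, smul_neg]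
    have ho : M.ι h * (M.ι h)ᵀ = 1 := by rw [e]; exact exp_skew hsk
    have h1 := hmax (a := h * k) ⟨H.mul_mem hh hk, by
      rw [map_mul, transpose_mul, mul_assoc, ← mul_assoc (M.ι k), hk', one_mul, ho]⟩
    simp only [Set.mem_ofPred_eq] at h1
    have e2 : M.ι (h * k) * z * (M.ι (h * k))ᵀ = exp (s • Y) * z' * exp (s • (-Y)) := by
      rw [map_mul, transpose_mul, e, ← Matrix.exp_transpose, hsk, hz', smul_neg]
      simp only [mul_assoc]
    rw [e2] at h1
    exact h1
  have hd : HasDerivAt (fun s : ℝ => (exp (s • Y) * z' * exp (s • (-Y)) * t).trace)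
      ((Y * z' - z' * Y) * t).trace 0 := by
    have h := hasDerivAt_trace (hasDerivAt_mul (hasDerivAt_mul (hasDerivAt_mul (hasDerivAt_exp Y)
      (hasDerivAt_const' z')) (hasDerivAt_exp (-Y))) (hasDerivAt_const' t))
    have e : ((Y * z' + exp ((0 : ℝ) • Y) * 0) * exp ((0 : ℝ) • -Y) +
        exp ((0 : ℝ) • Y) * z' * -Y) * t + exp ((0 : ℝ) • Y) * z' * exp ((0 : ℝ) • -Y) * 0 =
          (Y * z' - z' * Y) * t := by
      simp [sub_eq_add_neg]
    rw [e] at h
    exact h
  have hloc : IsLocalMax (fun s : ℝ => (exp (s • Y) * z' * exp (s • (-Y)) * t).trace) 0 := by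
    refine Eventually.of_forall fun s => ?_
    show _ ≤ (exp ((0 : ℝ) • Y) * z' * exp ((0 : ℝ) • (-Y)) * t).trace
    rw [zero_smul, zero_smul, exp_zero, one_mul, mul_one]
    exact hle s
  have h0 := hloc.hasDerivAt_eq_zero hd
  apply eq_zero_of_trace
  rw [hYt]
  have e3 : ((Y * z' - z' * Y) * t).trace = (-Y * Y).trace := by
    have h1 : (-Y * Y).trace = (Y * (z' * t)).trace - (Y * (t * z')).trace := by
      nth_rewrite 2 [hY]
      rw [adm_apply, neg_mul, mul_sub, trace_neg, trace_sub]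
      ring
    rw [h1, sub_mul, trace_sub]
    congr 1
    · rw [mul_assoc]
    · rw [mul_assoc, trace_mul_comm, mul_assoc]
  rw [← e3, h0]

/-- Conjugation into a commuting space. -/
theorem exists_abelian {M : MatGroup G n} {H : Subgroup G}
    {q : Submodule ℝ (Matrix (Fin n) (Fin n) ℝ)} (hH : Cartan M H q) :
    ∃ a : Submodule ℝ (Matrix (Fin n) (Fin n) ℝ), a ≤ q ∧
      (∀ x ∈ a, ∀ y ∈ a, x * y = y * x) ∧
      ∀ z ∈ q, ∃ k ∈ H, M.ι k * (M.ι k)ᵀ = 1 ∧ M.ι k * z * (M.ι k)ᵀ ∈ a := by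
  obtain ⟨t, ht, hreg⟩ := exists_regular q hH.symm
  refine ⟨q ⊓ LinearMap.ker (adm t), inf_le_left, fun x hx y hy => ?_, fun z hz => ?_⟩
  · exact sub_eq_zero.1 (hreg x hx.1 y hy.1 (LinearMap.mem_ker.1 hx.2) (LinearMap.mem_ker.1 hy.2))
  · obtain ⟨k, hk, hk', h0⟩ := exists_conj_commute hH ht hz
    exact ⟨k, hk, hk', cartan_conj hH hz hk hk', LinearMap.mem_ker.2 h0⟩

end Pool.Agent.Helper29.CKP
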