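import Pool.Agent.Helper20.CKP.Lsub
import Pool.Agent.Helper29.CKP.Conj2

set_option autoImplicit false

/-!
# Odd maps into the set of the conjugates of `q`
-/

open NormedSpace Filter Topology Matrix Module Pool.Agent.Helper17.CKF Pool.Agent.Helper40.CK

namespace Pool.Agent.Helper29.CKP

/-- The theorem of Borsuk and Ulam for maps between finite dimensional spaces. -/
theorem bu {E W : Type} [AddCommGroup E] [Module ℝ E] [TopologicalSpace E]
    [IsTopologicalAddGroup E] [ContinuousSMul ℝ E] [FiniteDimensional ℝ E]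
    [AddCommGroup W] [Module ℝ W] [TopologicalSpace W]
    [IsTopologicalAddGroup W] [ContinuousSMul ℝ W] [T2Space W] [FiniteDimensional ℝ W]
    (f : E → W) (hf : ContinuousOn f {0}ᶜ) (hodd : ∀ x, x ≠ 0 → f (-x) = -f x)
    (h0 : ∀ x, x ≠ 0 → f x ≠ 0) : finrank ℝ E ≤ finrank ℝ W := by
  by_contra hlt
  push Not at hlt
  set n := finrank ℝ W with hn
  let b := Module.finBasis ℝ E
  have hli : LinearIndependent ℝ (fun i : Fin (n + 1) => b (Fin.castLE hlt i)) :=
    b.linearIndependent.comp _ (Fin.castLE_injective _)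
  let A : (Fin (n + 1) → ℝ) →ₗ[ℝ] E :=
    Fintype.linearCombination ℝ (fun i : Fin (n + 1) => b (Fin.castLE hlt i))
  have hA : Function.Injective A := linearIndependent_iff_injective_fintypeLinearCombination.1 hli
  let B : W ≃ₗ[ℝ] (Fin n → ℝ) := LinearEquiv.ofFinrankEq _ _ (by rw [Module.finrank_fin_fun])
  have hAc : Continuous A := A.continuous_of_finiteDimensional
  have hBc : Continuous B := (B : W →ₗ[ℝ] (Fin n → ℝ)).continuous_of_finiteDimensional
  have hA0 : ∀ y, y ≠ 0 → A y ≠ 0 := fun y hy h => hy (hA (by rw [h, map_zero]))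
  obtain ⟨y, hy, hy0⟩ := Pool.Agent.Helper19.HO.borsuk_ulam (fun y => B (f (A y)))
    (hBc.comp_continuousOn (hf.comp hAc.continuousOn fun y hy => hA0 y hy))
    (fun y hy => by
      show B (f (A (-y))) = -B (f (A y))
      rw [map_neg, hodd _ (hA0 y hy), map_neg])
  exact h0 _ (hA0 y hy) (B.map_eq_zero_iff.1 hy0)

variable {m : ℕ}

/-- The Frobenius norm. -/
noncomputable def fro (X : Matrix (Fin m) (Fin m) ℝ) : ℝ := Real.sqrt (fn X)

theorem continuous_fro : Continuous (fro : Matrix (Fin m) (Fin m) ℝ → ℝ) :=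
  continuous_fn.sqrt

theorem fro_pos {X : Matrix (Fin m) (Fin m) ℝ} (h : X ≠ 0) : 0 < fro X := by
  apply Real.sqrt_pos.2
  exact lt_of_le_of_ne (fn_nonneg X) fun e => h (fn_eq_zero e.symm)

theorem fro_neg (X : Matrix (Fin m) (Fin m) ℝ) : fro (-X) = fro X := by
  unfold fro fn
  simp

theorem abs_le_fro (X : Matrix (Fin m) (Fin m) ℝ) (i j : Fin m) : |X i j| ≤ fro X := by
  rw [fro, ← Real.sqrt_sq_eq_abs]
  apply Real.sqrt_le_sqrt
  unfold fn
  calc X i j ^ 2 ≤ ∑ j, X i j ^ 2 :=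
        Finset.single_le_sum (f := fun j => X i j ^ 2) (fun _ _ => sq_nonneg _)
          (Finset.mem_univ j)
    _ ≤ _ := Finset.single_le_sum (f := fun i => ∑ j, X i j ^ 2)
          (fun _ _ => Finset.sum_nonneg fun _ _ => sq_nonneg _) (Finset.mem_univ i)

/-- `F x`, rescaled to the norm `ν x`. -/
noncomputable def resc {E : Type} (ν : E → ℝ) (F : E → Matrix (Fin m) (Fin m) ℝ) (x : E) :
    Matrix (Fin m) (Fin m) ℝ := (ν x * (fro (F x))⁻¹) • F x

theorem continuous_resc {E : Type} [AddCommGroup E] [TopologicalSpace E] [T1Space E] {ν : E → ℝ}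
    (hν : Continuous ν) (hν0 : ν 0 = 0) {F : E → Matrix (Fin m) (Fin m) ℝ}
    (hF : ContinuousOn F {0}ᶜ) (hF0 : ∀ x, x ≠ 0 → F x ≠ 0) : Continuous (resc ν F) := by
  rw [continuous_iff_continuousAt]
  intro x
  by_cases hx : x = 0
  · subst hx
    have h0 : resc ν F 0 = 0 := by rw [resc, hν0, zero_mul, zero_smul]
    rw [ContinuousAt, h0]
    refine tendsto_pi_nhds.2 fun i => tendsto_pi_nhds.2 fun j => ?_
    have h1 : Tendsto (fun x => |ν x|) (𝓝 0) (𝓝 0) := by
      have := (hν.tendsto 0).abs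
      rwa [hν0, abs_zero] at this
    refine squeeze_zero_norm (fun x => ?_) h1
    show ‖(ν x * (fro (F x))⁻¹) * F x i j‖ ≤ |ν x|
    rw [Real.norm_eq_abs, abs_mul, abs_mul, mul_assoc]
    have h2 : |(fro (F x))⁻¹| * |F x i j| ≤ 1 := by
      have h3 : 0 ≤ fro (F x) := Real.sqrt_nonneg _
      rw [abs_of_nonneg (inv_nonneg.2 h3)]
      rcases h3.eq_or_lt with h4 | h4
      · rw [← h4, _root_.inv_zero, zero_mul]
        exact zero_le_one
      · rw [inv_mul_le_iff₀ h4, mul_one]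
        exact abs_le_fro _ i j
    calc |ν x| * (|(fro (F x))⁻¹| * |F x i j|) ≤ |ν x| * 1 :=
          mul_le_mul_of_nonneg_left h2 (abs_nonneg _)
      _ = |ν x| := mul_one _
  · have hat : ContinuousAt F x := hF.continuousAt (isOpen_compl_singleton.mem_nhds hx)
    have h1 : ContinuousAt (fun x => (fro (F x))⁻¹) x :=
      (continuous_fro.continuousAt.comp hat).inv₀ (fro_pos (hF0 x hx)).ne'
    exact (hν.continuousAt.mul h1).smul hat

variable {G : Type} [Group G] [TopologicalSpace G] [IsTopologicalGroup G]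

theorem cartan_le {M : MatGroup G m} {H : Subgroup G}
    {p q : Submodule ℝ (Matrix (Fin m) (Fin m) ℝ)} (hG : Cartan M ⊤ p) (hH : Cartan M H q) :
    q ≤ p := by
  intro X hX
  rw [cartan_eq hG]
  obtain ⟨h1, h2⟩ := (cartan_eq hH).1 hX
  refine ⟨fun t => ?_, h2⟩
  obtain ⟨h, -, e⟩ := h1 t
  exact ⟨h, Subgroup.mem_top h, e⟩

/-- If there is a cocompact discontinuous group, every odd continuous map from a sphere to the set
of the nonzero conjugates of the elements of `q` has a source of dimension less than `dim q`. -/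
theorem odd_coindex (M : MatGroup G m) {p q : Submodule ℝ (Matrix (Fin m) (Fin m) ℝ)}
    {H Γ : Subgroup G} (hG : Cartan M ⊤ p) (hH : Cartan M H q)
    (hΓ : IsCocompactDiscontinuousGroup Γ H) {v : ℕ}
    (g : (Fin v → ℝ) → Matrix (Fin m) (Fin m) ℝ) (hg : ContinuousOn g {0}ᶜ)
    (hodd : ∀ y, y ≠ 0 → g (-y) = -g y) (h0 : ∀ y, y ≠ 0 → g y ≠ 0)
    (hmem : ∀ y, y ≠ 0 → ∃ k : G, M.ι k * (M.ι k)ᵀ = 1 ∧ ∃ Y ∈ q,
      g y = M.ι k * Y * (M.ι k)ᵀ) : v ≤ finrank ℝ q := by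
  obtain ⟨F, hFc, hF⟩ := odd_map M hG hH hΓ
  obtain ⟨E, hE, hE1, -⟩ := Pool.Agent.Helper20.CKP.finrank_perp q p
  have hqp := cartan_le hG hH
  have hx0 : ∀ x : E, x ≠ 0 → (x : Matrix (Fin m) (Fin m) ℝ) ≠ 0 := fun x hx h =>
    hx (Subtype.ext h)
  have hFx := fun (x : E) (hx : x ≠ 0) => hF x ((hE x).1 x.2).1 ((hE x).1 x.2).2 (hx0 x hx)
  have hF0 : ∀ x : E, x ≠ 0 → F x ≠ 0 := by
    intro x hx h
    refine (hFx x hx).2.2 1 ?_ 0 q.zero_mem ?_
    · rw [map_one, transpose_one, one_mul]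
    · rw [h, mul_zero, zero_mul]
  have hgp : ∀ y, y ≠ 0 → g y ∈ p := by
    intro y hy
    obtain ⟨k, hk, Y, hY, e⟩ := hmem y hy
    rw [e]
    exact cartan_conj hG (hqp hY) (Subgroup.mem_top k) hk
  -- the rescaled maps
  let f₁ : E → Matrix (Fin m) (Fin m) ℝ :=
    resc (fun x : E => fro (x : Matrix (Fin m) (Fin m) ℝ)) fun x => F x
  let f₂ : (Fin v → ℝ) → Matrix (Fin m) (Fin m) ℝ := resc (fun y => ‖y‖) g
  have hf₁ : Continuous f₁ := by
    refine continuous_resc (continuous_fro.comp continuous_subtype_val) ?_ ?_ hF0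
    · show fro (0 : Matrix (Fin m) (Fin m) ℝ) = 0
      rw [fro, show fn (0 : Matrix (Fin m) (Fin m) ℝ) = 0 by simp [fn], Real.sqrt_zero]
    · refine hFc.comp continuous_subtype_val.continuousOn ?_
      intro x hx
      exact ⟨((hE x).1 x.2).1, ((hE x).1 x.2).2, hx0 x hx⟩
  have hf₂ : Continuous f₂ := continuous_resc continuous_norm norm_zero hg h0
  have hp₁ : ∀ x, f₁ x ∈ p := by
    intro x
    by_cases hx : x = 0
    · subst hx
      have : f₁ 0 = 0 := by
        show (fro (0 : Matrix (Fin m) (Fin m) ℝ) * _) • _ = (0 : Matrix (Fin m) (Fin m) ℝ)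
        rw [fro, show fn (0 : Matrix (Fin m) (Fin m) ℝ) = 0 by simp [fn], Real.sqrt_zero, zero_mul,
          zero_smul]
      rw [this]
      exact p.zero_mem
    · exact p.smul_mem _ (hFx x hx).1
  have hp₂ : ∀ y, f₂ y ∈ p := by
    intro y
    by_cases hy : y = 0
    · subst hy
      have : f₂ 0 = 0 := by
        show (‖(0 : Fin v → ℝ)‖ * _) • _ = (0 : Matrix (Fin m) (Fin m) ℝ)
        rw [norm_zero, zero_mul, zero_smul]
      rw [this]
      exact p.zero_mem
    · exact p.smul_mem _ (hgp y hy)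
  let Φ : E × (Fin v → ℝ) → p := fun z => ⟨f₁ z.1 - f₂ z.2, p.sub_mem (hp₁ _) (hp₂ _)⟩
  have hΦc : Continuous Φ :=
    ((hf₁.comp continuous_fst).sub (hf₂.comp continuous_snd)).subtype_mk _
  have hodd₁ : ∀ x, f₁ (-x) = -f₁ x := by
    intro x
    by_cases hx : x = 0
    · subst hx
      have : f₁ 0 = 0 := by
        show (fro (0 : Matrix (Fin m) (Fin m) ℝ) * _) • _ = (0 : Matrix (Fin m) (Fin m) ℝ)
        rw [fro, show fn (0 : Matrix (Fin m) (Fin m) ℝ) = 0 by simp [fn], Real.sqrt_zero, zero_mul,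
          zero_smul]
      rw [neg_zero, this, neg_zero]
    · show (fro (-(x : Matrix (Fin m) (Fin m) ℝ)) * (fro (F (-(x : Matrix (Fin m) (Fin m) ℝ))))⁻¹) •
        F (-(x : Matrix (Fin m) (Fin m) ℝ)) = -((fro (x : Matrix (Fin m) (Fin m) ℝ) *
          (fro (F (x : Matrix (Fin m) (Fin m) ℝ)))⁻¹) • F (x : Matrix (Fin m) (Fin m) ℝ))
      rw [(hFx x hx).2.1, fro_neg, fro_neg, smul_neg]
  have hodd₂ : ∀ y, f₂ (-y) = -f₂ y := by
    intro y
    by_cases hy : y = 0
    · subst hy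
      have : f₂ 0 = 0 := by
        show (‖(0 : Fin v → ℝ)‖ * _) • _ = (0 : Matrix (Fin m) (Fin m) ℝ)
        rw [norm_zero, zero_mul, zero_smul]
      rw [neg_zero, this, neg_zero]
    · show (‖-y‖ * (fro (g (-y)))⁻¹) • g (-y) = -((‖y‖ * (fro (g y))⁻¹) • g y)
      rw [hodd y hy, norm_neg, fro_neg, smul_neg]
  have hne₁ : ∀ x : E, x ≠ 0 → ∃ c : ℝ, 0 < c ∧ f₁ x = c • F x := fun x hx =>
    ⟨_, mul_pos (fro_pos (hx0 x hx)) (inv_pos.2 (fro_pos (hF0 x hx))), rfl⟩
  have hne₂ : ∀ y : Fin v → ℝ, y ≠ 0 → ∃ c : ℝ, 0 < c ∧ f₂ y = c • g y := fun y hy =>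
    ⟨_, mul_pos (norm_pos_iff.2 hy) (inv_pos.2 (fro_pos (h0 y hy))), rfl⟩
  have hΦ0 : ∀ z : E × (Fin v → ℝ), z ≠ 0 → Φ z ≠ 0 := by
    rintro ⟨x, y⟩ hz h
    have h1 : f₁ x - f₂ y = 0 := congrArg (fun w : p => (w : Matrix (Fin m) (Fin m) ℝ)) h
    have h2 : f₁ x = f₂ y := sub_eq_zero.1 h1
    by_cases hx : x = 0
    · by_cases hy : y = 0
      · exact hz (by rw [hx, hy]; rfl)
      · obtain ⟨c, hc, e⟩ := hne₂ y hy
        have h3 : f₁ x = 0 := by
          subst hx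
          show (fro (0 : Matrix (Fin m) (Fin m) ℝ) * _) • _ = (0 : Matrix (Fin m) (Fin m) ℝ)
          rw [fro, show fn (0 : Matrix (Fin m) (Fin m) ℝ) = 0 by simp [fn], Real.sqrt_zero,
            zero_mul, zero_smul]
        rw [h3, e] at h2
        exact h0 y hy ((smul_eq_zero.1 h2.symm).resolve_left hc.ne')
    · obtain ⟨c, hc, e⟩ := hne₁ x hx
      by_cases hy : y = 0
      · have h3 : f₂ y = 0 := by
          subst hy
          show (‖(0 : Fin v → ℝ)‖ * _) • _ = (0 : Matrix (Fin m) (Fin m) ℝ)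
          rw [norm_zero, zero_mul, zero_smul]
        rw [h3, e] at h2
        exact hF0 x hx ((smul_eq_zero.1 h2).resolve_left hc.ne')
      · obtain ⟨c', -, e'⟩ := hne₂ y hy
        obtain ⟨k, hk, Y, hY, ek⟩ := hmem y hy
        refine (hFx x hx).2.2 k hk ((c⁻¹ * c') • Y) (q.smul_mem _ hY) ?_
        have h4 : F x = (c⁻¹ * c') • g y := by
          rw [mul_smul, ← e', ← h2, e, smul_smul, inv_mul_cancel₀ hc.ne', one_smul]
        rw [h4, ek, mul_smul_comm, smul_mul_assoc]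
  have h1 := bu Φ hΦc.continuousOn (fun z _ => Subtype.ext (by
    show f₁ (-z.1) - f₂ (-z.2) = -(f₁ z.1 - f₂ z.2)
    rw [hodd₁, hodd₂]
    abel)) hΦ0
  rw [Module.finrank_prod, Module.finrank_fin_fun] at h1
  omega

end Pool.Agent.Helper29.CKP
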