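import Pool.Agent.Helper29.CKP.RealK

set_option autoImplicit false

/-!
# The groups `O(r, n)` and `U(r, n)`, as groups of real matrices
-/

open NormedSpace Filter Topology Matrix Pool.Agent.Helper17.CKF Pool.Agent.Helper20.CKP

namespace Pool.Agent.Helper29.CKP

variable {r n : ℕ} {K : Type} [RCLike K]

/-- Complex block matrices. -/
noncomputable def ckb (A : Matrix (Fin r) (Fin r) K) (B : Matrix (Fin r) (Fin n) K)
    (C : Matrix (Fin n) (Fin r) K) (D : Matrix (Fin n) (Fin n) K) :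
    Matrix (Fin (r + n)) (Fin (r + n)) K :=
  (fromBlocks A B C D).submatrix finSumFinEquiv.symm finSumFinEquiv.symm

theorem ckb_mul (A : Matrix (Fin r) (Fin r) K) (B : Matrix (Fin r) (Fin n) K)
    (C : Matrix (Fin n) (Fin r) K) (D : Matrix (Fin n) (Fin n) K)
    (A' : Matrix (Fin r) (Fin r) K) (B' : Matrix (Fin r) (Fin n) K)
    (C' : Matrix (Fin n) (Fin r) K) (D' : Matrix (Fin n) (Fin n) K) :
    ckb A B C D * ckb A' B' C' D' =
      ckb (A * A' + B * C') (A * B' + B * D') (C * A' + D * C') (C * B' + D * D') := by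
  rw [ckb, ckb, ckb, submatrix_mul_equiv, fromBlocks_multiply]

theorem ckb_star (A : Matrix (Fin r) (Fin r) K) (B : Matrix (Fin r) (Fin n) K)
    (C : Matrix (Fin n) (Fin r) K) (D : Matrix (Fin n) (Fin n) K) :
    (ckb A B C D)ᴴ = ckb Aᴴ Cᴴ Bᴴ Dᴴ := by
  rw [ckb, ckb, conjTranspose_submatrix, fromBlocks_conjTranspose]

omit [RCLike K] in
theorem ckb_inj {A : Matrix (Fin r) (Fin r) K} {B : Matrix (Fin r) (Fin n) K}
    {C : Matrix (Fin n) (Fin r) K} {D : Matrix (Fin n) (Fin n) K}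
    {A' : Matrix (Fin r) (Fin r) K} {B' : Matrix (Fin r) (Fin n) K}
    {C' : Matrix (Fin n) (Fin r) K} {D' : Matrix (Fin n) (Fin n) K}
    (h : ckb A B C D = ckb A' B' C' D') : A = A' ∧ B = B' ∧ C = C' ∧ D = D' := by
  have h1 : fromBlocks A B C D = fromBlocks A' B' C' D' := by
    have h2 := congrArg (fun Z => Z.submatrix finSumFinEquiv finSumFinEquiv) h
    simpa only [ckb, submatrix_submatrix, Equiv.symm_comp_self, submatrix_id_id] using h2
  exact fromBlocks_inj.1 h1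

omit [RCLike K] in
theorem exists_ckb (Z : Matrix (Fin (r + n)) (Fin (r + n)) K) : ∃ A B C D, Z = ckb A B C D := by
  refine ⟨(Z.submatrix finSumFinEquiv finSumFinEquiv).toBlocks₁₁,
    (Z.submatrix finSumFinEquiv finSumFinEquiv).toBlocks₁₂,
    (Z.submatrix finSumFinEquiv finSumFinEquiv).toBlocks₂₁,
    (Z.submatrix finSumFinEquiv finSumFinEquiv).toBlocks₂₂, ?_⟩
  rw [ckb, fromBlocks_toBlocks, submatrix_submatrix, Equiv.self_comp_symm, submatrix_id_id]

theorem ckb_neg (A : Matrix (Fin r) (Fin r) K) (B : Matrix (Fin r) (Fin n) K)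
    (C : Matrix (Fin n) (Fin r) K) (D : Matrix (Fin n) (Fin n) K) :
    -ckb A B C D = ckb (-A) (-B) (-C) (-D) := by
  rw [ckb, ckb, ← fromBlocks_neg]
  rfl

theorem ckb_add (A : Matrix (Fin r) (Fin r) K) (B : Matrix (Fin r) (Fin n) K)
    (C : Matrix (Fin n) (Fin r) K) (D : Matrix (Fin n) (Fin n) K)
    (A' : Matrix (Fin r) (Fin r) K) (B' : Matrix (Fin r) (Fin n) K)
    (C' : Matrix (Fin n) (Fin r) K) (D' : Matrix (Fin n) (Fin n) K) :
    ckb A B C D + ckb A' B' C' D' = ckb (A + A') (B + B') (C + C') (D + D') := by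
  rw [ckb, ckb, ckb, ← fromBlocks_add]
  rfl

theorem ckb_smul (c : ℝ) (A : Matrix (Fin r) (Fin r) K) (B : Matrix (Fin r) (Fin n) K)
    (C : Matrix (Fin n) (Fin r) K) (D : Matrix (Fin n) (Fin n) K) :
    c • ckb A B C D = ckb (c • A) (c • B) (c • C) (c • D) := by
  rw [ckb, ckb, ← fromBlocks_smul]
  rfl

theorem ckb_sub (A : Matrix (Fin r) (Fin r) K) (B : Matrix (Fin r) (Fin n) K)
    (C : Matrix (Fin n) (Fin r) K) (D : Matrix (Fin n) (Fin n) K)
    (A' : Matrix (Fin r) (Fin r) K) (B' : Matrix (Fin r) (Fin n) K)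
    (C' : Matrix (Fin n) (Fin r) K) (D' : Matrix (Fin n) (Fin n) K) :
    ckb A B C D - ckb A' B' C' D' = ckb (A - A') (B - B') (C - C') (D - D') := by
  rw [sub_eq_add_neg, ckb_neg, ckb_add, ← sub_eq_add_neg, ← sub_eq_add_neg, ← sub_eq_add_neg,
    ← sub_eq_add_neg]

theorem ckb_one : ckb (1 : Matrix (Fin r) (Fin r) K) 0 0 (1 : Matrix (Fin n) (Fin n) K) = 1 := by
  rw [ckb, fromBlocks_one, submatrix_one_equiv]

theorem ckb_trace (A : Matrix (Fin r) (Fin r) K) (B : Matrix (Fin r) (Fin n) K)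
    (C : Matrix (Fin n) (Fin r) K) (D : Matrix (Fin n) (Fin n) K) :
    (ckb A B C D).trace = A.trace + D.trace := by
  have h1 : (ckb A B C D).trace = (fromBlocks A B C D).trace :=
    Fintype.sum_equiv finSumFinEquiv.symm _ _ fun _ => rfl
  rw [h1]
  simp [Matrix.trace, Fintype.sum_sum_type]

/-- The diagonal matrix with `r` entries `1` and `n` entries `-1`. -/
noncomputable def JK (K : Type) [RCLike K] (r n : ℕ) : Matrix (Fin (r + n)) (Fin (r + n)) K :=
  Matrix.diagonal fun i => if (i : ℕ) < r then 1 else -1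

theorem JK_mul_self (K : Type) [RCLike K] (r n : ℕ) : JK K r n * JK K r n = 1 := by
  rw [JK, diagonal_mul_diagonal, ← diagonal_one]
  congr 1
  funext i
  split_ifs <;> norm_num

theorem JK_star (K : Type) [RCLike K] (r n : ℕ) : (JK K r n)ᴴ = JK K r n := by
  rw [JK, diagonal_conjTranspose]
  congr 1
  funext i
  rw [Pi.star_apply]
  split_ifs <;> simp

theorem JK_eq : JK K r n = ckb 1 0 0 (-1) := by
  have h1 : fromBlocks (1 : Matrix (Fin r) (Fin r) K) 0 0 (-1 : Matrix (Fin n) (Fin n) K) =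
      diagonal (Sum.elim (fun _ => 1) (fun _ => -1)) := by
    ext i j
    rcases i with i | i <;> rcases j with j | j <;>
      simp [Matrix.one_apply, diagonal_apply]
    split_ifs <;> simp
  rw [ckb, h1, JK, submatrix_diagonal_equiv]
  congr 1
  funext i
  obtain ⟨k, rfl⟩ := finSumFinEquiv.surjective i
  rw [Function.comp_apply, Equiv.symm_apply_apply]
  cases k with
  | inl k => simp
  | inr k => simp

theorem rlK_isUnit_of {Z : Matrix (Fin (r + n)) (Fin (r + n)) K}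
    (h : Zᴴ * JK K r n * Z = JK K r n) : Z * (JK K r n * Zᴴ * JK K r n) = 1 := by
  apply mul_eq_one_comm.1
  calc JK K r n * Zᴴ * JK K r n * Z = JK K r n * (Zᴴ * JK K r n * Z) := by simp only [Matrix.mul_assoc]
    _ = 1 := by rw [h, JK_mul_self]

/-- The group `U(r, n)` of the complex matrices `Z` with `Zᴴ J Z = J`, as a group of real
matrices. -/
noncomputable def UpqK (K : Type) [RCLike K] (r n : ℕ) : Subgroup (GL (Fin ((r + n) + (r + n))) ℝ) where
  carrier := {g | ∃ Z : Matrix (Fin (r + n)) (Fin (r + n)) K,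
    (g : Matrix (Fin ((r + n) + (r + n))) (Fin ((r + n) + (r + n))) ℝ) = rlK Z ∧
      Zᴴ * JK K r n * Z = JK K r n}
  mul_mem' := by
    rintro a b ⟨Z, hZ, hZ'⟩ ⟨W, hW, hW'⟩
    refine ⟨Z * W, by rw [rlK_mul, ← hZ, ← hW]; rfl, ?_⟩
    calc (Z * W)ᴴ * JK K r n * (Z * W) = Wᴴ * (Zᴴ * JK K r n * Z) * W := by
          rw [conjTranspose_mul]
          simp only [Matrix.mul_assoc]
      _ = _ := by rw [hZ', hW']
  one_mem' := ⟨1, by rw [rlK_one]; rfl, by rw [conjTranspose_one, one_mul, mul_one]⟩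
  inv_mem' := by
    rintro a ⟨Z, hZ, hZ'⟩
    have h1 := rlK_isUnit_of hZ'
    refine ⟨JK K r n * Zᴴ * JK K r n, ?_, ?_⟩
    · have h2 : (a : Matrix (Fin ((r + n) + (r + n))) (Fin ((r + n) + (r + n))) ℝ) *
          rlK (JK K r n * Zᴴ * JK K r n) = 1 := by rw [hZ, ← rlK_mul, h1, rlK_one]
      calc ((a⁻¹ : GL (Fin ((r + n) + (r + n))) ℝ) :
            Matrix (Fin ((r + n) + (r + n))) (Fin ((r + n) + (r + n))) ℝ) =
          ((a⁻¹ : GL (Fin ((r + n) + (r + n))) ℝ) :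
            Matrix (Fin ((r + n) + (r + n))) (Fin ((r + n) + (r + n))) ℝ) *
            ((a : Matrix (Fin ((r + n) + (r + n))) (Fin ((r + n) + (r + n))) ℝ) *
              rlK (JK K r n * Zᴴ * JK K r n)) := by rw [h2, mul_one]
        _ = _ := by rw [← Matrix.mul_assoc, a.inv_mul, one_mul]
    · calc (JK K r n * Zᴴ * JK K r n)ᴴ * JK K r n * (JK K r n * Zᴴ * JK K r n) =
          JK K r n * (Z * (JK K r n * (JK K r n * JK K r n) * Zᴴ * JK K r n)) := by
            rw [conjTranspose_mul, conjTranspose_mul, conjTranspose_conjTranspose, JK_star]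
            simp only [Matrix.mul_assoc]
        _ = _ := by rw [JK_mul_self, mul_one, h1, mul_one]

theorem mem_UpqK {g : GL (Fin ((r + n) + (r + n))) ℝ} : g ∈ UpqK K r n ↔
    InC K (g : Matrix (Fin ((r + n) + (r + n))) (Fin ((r + n) + (r + n))) ℝ) ∧
    (g : Matrix (Fin ((r + n) + (r + n))) (Fin ((r + n) + (r + n))) ℝ)ᵀ * rlK (JK K r n) *
      (g : Matrix (Fin ((r + n) + (r + n))) (Fin ((r + n) + (r + n))) ℝ) = rlK (JK K r n) := by
  rw [comm_iffK]
  constructor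
  · rintro ⟨Z, hZ, h⟩
    exact ⟨⟨Z, hZ⟩, by rw [hZ, rlK_transpose, ← rlK_mul, ← rlK_mul, h]⟩
  · rintro ⟨⟨Z, hZ⟩, h⟩
    refine ⟨Z, hZ, rlK_inj ?_⟩
    rw [rlK_mul, rlK_mul, ← rlK_transpose, ← hZ, h]

theorem kzero_of_eq_neg {m k : ℕ} {A : Matrix (Fin m) (Fin k) K} (h : A = -A) : A = 0 := by
  ext i j
  have := congrFun (congrFun h i) j
  rw [Matrix.neg_apply] at this
  rw [Matrix.zero_apply]
  linear_combination this / 2

/-- The real matrix of the complex matrix `(0, B; Bᴴ, 0)`. -/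
noncomputable def pcK (K : Type) [RCLike K] (r n : ℕ) :
    Matrix (Fin r) (Fin n) K →ₗ[ℝ] Matrix (Fin ((r + n) + (r + n))) (Fin ((r + n) + (r + n))) ℝ where
  toFun B := rlK (ckb 0 B Bᴴ 0)
  map_add' B B' := by
    rw [← rlK_add, ckb_add, conjTranspose_add, add_zero, add_zero]
  map_smul' c B := by
    rw [RingHom.id_apply, ← rlK_smul, ckb_smul, conjTranspose_smul, smul_zero, smul_zero,
      star_trivial]

theorem pcK_apply (B : Matrix (Fin r) (Fin n) K) : pcK K r n B = rlK (ckb 0 B Bᴴ 0) := rfl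

theorem pcK_inj {B B' : Matrix (Fin r) (Fin n) K} (h : pcK K r n B = pcK K r n B') : B = B' :=
  (ckb_inj (rlK_inj h)).2.1

theorem pcK_transpose (B : Matrix (Fin r) (Fin n) K) : (pcK K r n B)ᵀ = pcK K r n B := by
  rw [pcK_apply, rlK_transpose, ckb_star, conjTranspose_zero, conjTranspose_zero,
    conjTranspose_conjTranspose]

theorem pcK_trace (B B' : Matrix (Fin r) (Fin n) K) :
    (pcK K r n B * pcK K r n B').trace = 4 * RCLike.re (B * B'ᴴ).trace := by
  have h1 : (Bᴴ * B').trace = star ((B * B'ᴴ).trace) := by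
    rw [← trace_conjTranspose, conjTranspose_mul, conjTranspose_conjTranspose, trace_mul_comm]
  rw [pcK_apply, pcK_apply, ← rlK_mul, rlK_trace, ckb_mul, ckb_trace, zero_mul, zero_mul, zero_add,
    add_zero, h1, map_add]
  show 2 * (_ + RCLike.re ((starRingEnd K) _)) = _
  rw [RCLike.conj_re]
  ring

theorem anti_iffK {X : Matrix (Fin ((r + n) + (r + n))) (Fin ((r + n) + (r + n))) ℝ}
    (hX : Xᵀ = X) :
    (InC K X ∧ rlK (JK K r n) * X * rlK (JK K r n) = -X) ↔ ∃ B, X = pcK K r n B := by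
  rw [comm_iffK]
  constructor
  · rintro ⟨⟨Z, rfl⟩, h⟩
    rw [← rlK_mul, ← rlK_mul, ← rlK_neg] at h
    rw [rlK_transpose] at hX
    have h' := rlK_inj h
    have hX' := rlK_inj hX
    obtain ⟨A, B, C, D, rfl⟩ := exists_ckb Z
    rw [JK_eq, ckb_mul, ckb_mul, ckb_neg] at h'
    rw [ckb_star] at hX'
    obtain ⟨h1, -, -, h2⟩ := ckb_inj h'
    obtain ⟨-, h3, -, -⟩ := ckb_inj hX'
    have hA : A = 0 := kzero_of_eq_neg (by simpa using h1)
    have hD : D = 0 := kzero_of_eq_neg (by simpa using h2)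
    refine ⟨B, ?_⟩
    rw [pcK_apply, hA, hD, ← h3, conjTranspose_conjTranspose]
  · rintro ⟨B, rfl⟩
    refine ⟨⟨_, rfl⟩, ?_⟩
    rw [pcK_apply, ← rlK_mul, ← rlK_mul, ← rlK_neg, JK_eq, ckb_mul, ckb_mul, ckb_neg]
    simp

theorem expGL_mem_upqK {X : Matrix (Fin ((r + n) + (r + n))) (Fin ((r + n) + (r + n))) ℝ}
    (hX : Xᵀ = X) :
    expGL X ∈ UpqK K r n ↔ InC K X ∧ rlK (JK K r n) * X * rlK (JK K r n) = -X := by
  rw [mem_UpqK, expGL_val, ← Matrix.exp_transpose, hX, InC, InC, exp_comm_iff Im_orth hX,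
    exp_comm_iff Dm_orth hX,
    exp_form_iff (by rw [← rlK_mul, JK_mul_self, rlK_one]) (by rw [rlK_transpose, JK_star]) hX]

/-- `U(r, n)` is reductive. -/
theorem isReductive_upqK (K : Type) [RCLike K] (r n : ℕ) : IsReductive (UpqK K r n) where
  closed := by
    have h0 : IsClosed {g : GL (Fin ((r + n) + (r + n))) ℝ |
        InC K (g : Matrix (Fin ((r + n) + (r + n))) (Fin ((r + n) + (r + n))) ℝ)} := by
      by_cases hI : (RCLike.I : K) = 0
      · simp only [InC, hI, forall_const]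
        exact (isClosed_eq (Units.continuous_val.mul continuous_const)
          (continuous_const.mul Units.continuous_val)).inter
          (isClosed_eq (Units.continuous_val.mul continuous_const)
          (continuous_const.mul Units.continuous_val))
      · simp only [InC, hI, IsEmpty.forall_iff, and_true]
        exact isClosed_eq (Units.continuous_val.mul continuous_const)
          (continuous_const.mul Units.continuous_val)
    have h1 : ((UpqK K r n : Subgroup (GL (Fin ((r + n) + (r + n))) ℝ)) :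
        Set (GL (Fin ((r + n) + (r + n))) ℝ)) =
        {g : GL (Fin ((r + n) + (r + n))) ℝ |
          InC K (g : Matrix (Fin ((r + n) + (r + n))) (Fin ((r + n) + (r + n))) ℝ)} ∩
        {g : GL (Fin ((r + n) + (r + n))) ℝ | (g : Matrix (Fin ((r + n) + (r + n))) (Fin ((r + n) + (r + n))) ℝ)ᵀ *
          rlK (JK K r n) * (g : Matrix (Fin ((r + n) + (r + n))) (Fin ((r + n) + (r + n))) ℝ) =
            rlK (JK K r n)} := by
      ext g
      exact mem_UpqK
    rw [h1]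
    exact h0.inter
      (isClosed_eq ((Units.continuous_val.matrix_transpose.mul continuous_const).mul
        Units.continuous_val) continuous_const)
  transpose := by
    rintro g ⟨Z, hZ, h⟩
    have h2 : (g : Matrix (Fin ((r + n) + (r + n))) (Fin ((r + n) + (r + n))) ℝ)ᵀ *
        ((g⁻¹ : GL (Fin ((r + n) + (r + n))) ℝ) :
          Matrix (Fin ((r + n) + (r + n))) (Fin ((r + n) + (r + n))) ℝ)ᵀ = 1 := by
      rw [← transpose_mul]
      exact (congrArg transpose g.inv_mul).trans transpose_one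
    have h3 := mul_eq_one_comm.1 h2
    refine ⟨⟨(g : Matrix (Fin ((r + n) + (r + n))) (Fin ((r + n) + (r + n))) ℝ)ᵀ, _, h2, h3⟩,
      ⟨Zᴴ, ?_, ?_⟩, rfl⟩
    · show (g : Matrix (Fin ((r + n) + (r + n))) (Fin ((r + n) + (r + n))) ℝ)ᵀ = _
      rw [hZ, rlK_transpose]
    · rw [conjTranspose_conjTranspose]
      have h4 := rlK_isUnit_of h
      calc Z * JK K r n * Zᴴ = Z * (JK K r n * Zᴴ * JK K r n) * JK K r n := by
            simp only [Matrix.mul_assoc, JK_mul_self, Matrix.mul_one]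
        _ = JK K r n := by rw [h4, one_mul]
  power := by
    intro X hX h t
    rw [expGL_mem_upqK hX] at h
    rw [expGL_mem_upqK (by rw [transpose_smul, hX])]
    refine ⟨⟨?_, fun hI => ?_⟩, ?_⟩
    · rw [mul_smul_comm, smul_mul_assoc, h.1.1]
    · rw [mul_smul_comm, smul_mul_assoc, h.1.2 hI]
    · rw [mul_smul_comm, smul_mul_assoc, h.2, smul_neg]

theorem mem_pSpace_upqK {X : Matrix (Fin ((r + n) + (r + n))) (Fin ((r + n) + (r + n))) ℝ} :
    X ∈ pSpace (UpqK K r n) ↔ ∃ B, X = pcK K r n B := by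
  rw [mem_pSpace (isReductive_upqK K r n)]
  constructor
  · rintro ⟨h1, h2⟩
    exact (anti_iffK h1).1 ((expGL_mem_upqK h1).1 h2)
  · rintro ⟨B, rfl⟩
    have h1 := pcK_transpose B
    exact ⟨h1, (expGL_mem_upqK h1).2 ((anti_iffK h1).2 ⟨B, rfl⟩)⟩

/-- The group `U(r) × U(n)` acts on the matrices `B`. -/
theorem conj_upqK {U : Matrix (Fin r) (Fin r) K} {W : Matrix (Fin n) (Fin n) K} (hU : U * Uᴴ = 1)
    (hW : W * Wᴴ = 1) : ∃ g ∈ UpqK K r n,
      (g : Matrix (Fin ((r + n) + (r + n))) (Fin ((r + n) + (r + n))) ℝ) *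
      (g : Matrix (Fin ((r + n) + (r + n))) (Fin ((r + n) + (r + n))) ℝ)ᵀ = 1 ∧
      ∀ B, (g : Matrix (Fin ((r + n) + (r + n))) (Fin ((r + n) + (r + n))) ℝ) * pcK K r n B *
        (g : Matrix (Fin ((r + n) + (r + n))) (Fin ((r + n) + (r + n))) ℝ)ᵀ =
          pcK K r n (U * B * Wᴴ) := by
  have hU' : Uᴴ * U = 1 := mul_eq_one_comm.1 hU
  have hW' : Wᴴ * W = 1 := mul_eq_one_comm.1 hW
  have h0 : ckb U 0 0 W * (ckb U 0 0 W)ᴴ = 1 := by
    rw [ckb_star, ckb_mul, ← ckb_one]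
    simp [hU, hW]
  have h1 : rlK (ckb U 0 0 W) * (rlK (ckb U 0 0 W))ᵀ = 1 := by
    rw [rlK_transpose, ← rlK_mul, h0, rlK_one]
  have h2 : (rlK (ckb U 0 0 W))ᵀ * rlK (ckb U 0 0 W) = 1 := mul_eq_one_comm.1 h1
  refine ⟨⟨rlK (ckb U 0 0 W), (rlK (ckb U 0 0 W))ᵀ, h1, h2⟩, ⟨ckb U 0 0 W, rfl, ?_⟩, h1, fun B => ?_⟩
  · rw [JK_eq, ckb_star, ckb_mul, ckb_mul]
    simp [hU', hW']
  · show rlK (ckb U 0 0 W) * pcK K r n B * (rlK (ckb U 0 0 W))ᵀ = _
    rw [pcK_apply, pcK_apply, rlK_transpose, ← rlK_mul, ← rlK_mul, ckb_star, ckb_mul, ckb_mul]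
    simp [Matrix.mul_assoc]

/-- Every orthogonal element of `U(r, n)` is in `U(r) × U(n)`. -/
theorem conj_upqK' {g : GL (Fin ((r + n) + (r + n))) ℝ} (hg : g ∈ UpqK K r n)
    (ho : (g : Matrix (Fin ((r + n) + (r + n))) (Fin ((r + n) + (r + n))) ℝ) *
      (g : Matrix (Fin ((r + n) + (r + n))) (Fin ((r + n) + (r + n))) ℝ)ᵀ = 1) :
    ∃ (U : Matrix (Fin r) (Fin r) K) (W : Matrix (Fin n) (Fin n) K), U * Uᴴ = 1 ∧ W * Wᴴ = 1 ∧
      ∀ B, (g : Matrix (Fin ((r + n) + (r + n))) (Fin ((r + n) + (r + n))) ℝ) * pcK K r n B *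
        (g : Matrix (Fin ((r + n) + (r + n))) (Fin ((r + n) + (r + n))) ℝ)ᵀ =
          pcK K r n (U * B * Wᴴ) := by
  obtain ⟨Z, e, hg⟩ := hg
  obtain ⟨A, B, C, D, rfl⟩ := exists_ckb Z
  rw [e] at ho ⊢
  rw [rlK_transpose, ← rlK_mul, ← rlK_one (K := K)] at ho
  replace ho := rlK_inj ho
  have h1 : JK K r n * ckb A B C D = ckb A B C D * JK K r n := by
    calc JK K r n * ckb A B C D = (ckb A B C D * (ckb A B C D)ᴴ) * JK K r n * ckb A B C D := by
          rw [ho, one_mul]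
      _ = ckb A B C D * ((ckb A B C D)ᴴ * JK K r n * ckb A B C D) := by simp only [Matrix.mul_assoc]
      _ = _ := by rw [hg]
  rw [JK_eq, ckb_mul, ckb_mul] at h1
  obtain ⟨-, h2, h3, -⟩ := ckb_inj h1
  have hB : B = 0 := kzero_of_eq_neg (by simpa using h2)
  have hC : C = 0 := kzero_of_eq_neg (by simpa using h3.symm)
  subst hB hC
  rw [ckb_star, ckb_mul, ← ckb_one] at ho
  obtain ⟨h4, -, -, h5⟩ := ckb_inj ho
  refine ⟨A, D, by simpa using h4, by simpa using h5, fun B => ?_⟩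
  rw [pcK_apply, pcK_apply, rlK_transpose, ← rlK_mul, ← rlK_mul, ckb_star, ckb_mul, ckb_mul]
  simp [Matrix.mul_assoc]

/-- The triple product in the coordinates of `U(r, n)`. -/
theorem pcK_triple (B C : Matrix (Fin r) (Fin n) K) :
    pcK K r n B * (pcK K r n B * pcK K r n C - pcK K r n C * pcK K r n B) -
      (pcK K r n B * pcK K r n C - pcK K r n C * pcK K r n B) * pcK K r n B =
    -pcK K r n ((2 : ℝ) • (B * Cᴴ * B) - C * Bᴴ * B - B * Bᴴ * C) := by
  simp only [pcK_apply, ← rlK_mul, ← rlK_sub, ← rlK_neg, ckb_mul, ckb_sub, ckb_neg]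
  congr 2
  · simp
  · simp only [Matrix.mul_zero, Matrix.zero_mul, add_zero, zero_add, sub_zero, zero_sub,
      Matrix.mul_sub, Matrix.sub_mul, two_smul, ← Matrix.mul_assoc]
    abel
  · simp only [Matrix.mul_zero, Matrix.zero_mul, add_zero, zero_add, sub_zero, zero_sub,
      Matrix.mul_sub, Matrix.sub_mul, two_smul, conjTranspose_sub, conjTranspose_add,
      conjTranspose_mul, conjTranspose_conjTranspose, ← Matrix.mul_assoc]
    abel
  · simp

/-- The commuting pairs of elements of `p`. -/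
theorem pcK_commute {B C : Matrix (Fin r) (Fin n) K} :
    pcK K r n B * pcK K r n C = pcK K r n C * pcK K r n B ↔ B * Cᴴ = C * Bᴴ ∧ Bᴴ * C = Cᴴ * B := by
  rw [pcK_apply, pcK_apply, ← rlK_mul, ← rlK_mul, ckb_mul, ckb_mul]
  simp only [Matrix.mul_zero, Matrix.zero_mul, add_zero, zero_add]
  constructor
  · intro h
    obtain ⟨h1, -, -, h4⟩ := ckb_inj (rlK_inj h)
    exact ⟨h1, h4⟩
  · rintro ⟨h1, h4⟩
    rw [h1, h4]

/-- A linear left inverse of `pcK`. -/
noncomputable def urK (K : Type) [RCLike K] (r n : ℕ) :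
    Matrix (Fin ((r + n) + (r + n))) (Fin ((r + n) + (r + n))) ℝ →ₗ[ℝ] Matrix (Fin r) (Fin n) K where
  toFun Z := Matrix.of fun i j =>
    ((Z (Fin.castAdd (r + n) (Fin.castAdd n i)) (Fin.castAdd (r + n) (Fin.natAdd r j)) : ℝ) : K) +
    ((Z (Fin.natAdd (r + n) (Fin.castAdd n i)) (Fin.castAdd (r + n) (Fin.natAdd r j)) : ℝ) : K) *
      RCLike.I
  map_add' Z W := by
    ext i j
    simp only [Matrix.of_apply, Matrix.add_apply, RCLike.ofReal_add]
    ring
  map_smul' c Z := by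
    ext i j
    simp only [Matrix.of_apply, Matrix.smul_apply, smul_eq_mul, RCLike.ofReal_mul,
      RingHom.id_apply, RCLike.real_smul_eq_coe_mul]
    ring

theorem urK_pcK (B : Matrix (Fin r) (Fin n) K) : urK K r n (pcK K r n B) = B := by
  ext i j
  have h1 : ckb (0 : Matrix (Fin r) (Fin r) K) B Bᴴ 0 (Fin.castAdd n i) (Fin.natAdd r j) = B i j := by
    show (fromBlocks (0 : Matrix (Fin r) (Fin r) K) B Bᴴ 0) (finSumFinEquiv.symm (Fin.castAdd n i))
      (finSumFinEquiv.symm (Fin.natAdd r j)) = B i j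
    rw [finSumFinEquiv_symm_apply_castAdd, finSumFinEquiv_symm_apply_natAdd, fromBlocks_apply₁₂]
  have h2 : ∀ (Z : Matrix (Fin (r + n)) (Fin (r + n)) K) (a b : Fin (r + n)),
      rlK Z (Fin.castAdd (r + n) a) (Fin.castAdd (r + n) b) = RCLike.re (Z a b) := by
    intro Z a b
    show (fromBlocks (Z.map RCLike.re) (-Z.map RCLike.im) (Z.map RCLike.im) (Z.map RCLike.re))
      (finSumFinEquiv.symm (Fin.castAdd (r + n) a)) (finSumFinEquiv.symm (Fin.castAdd (r + n) b)) = _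
    rw [finSumFinEquiv_symm_apply_castAdd, finSumFinEquiv_symm_apply_castAdd, fromBlocks_apply₁₁]
    rfl
  have h3 : ∀ (Z : Matrix (Fin (r + n)) (Fin (r + n)) K) (a b : Fin (r + n)),
      rlK Z (Fin.natAdd (r + n) a) (Fin.castAdd (r + n) b) = RCLike.im (Z a b) := by
    intro Z a b
    show (fromBlocks (Z.map RCLike.re) (-Z.map RCLike.im) (Z.map RCLike.im) (Z.map RCLike.re))
      (finSumFinEquiv.symm (Fin.natAdd (r + n) a)) (finSumFinEquiv.symm (Fin.castAdd (r + n) b)) = _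
    rw [finSumFinEquiv_symm_apply_natAdd, finSumFinEquiv_symm_apply_castAdd, fromBlocks_apply₂₁]
    rfl
  show ((rlK _ _ _ : ℝ) : K) + ((rlK _ _ _ : ℝ) : K) * RCLike.I = _
  rw [h2, h3, h1, RCLike.re_add_im]

end Pool.Agent.Helper29.CKP
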