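import Pool.Agent.Helper20.CKP.UNK
import Pool.Agent.Helper29.CKP.Coind

set_option autoImplicit false

/-!
# The rank of the elements of `p_H` and the dimension of `p_H`
-/

open NormedSpace Filter Topology Matrix Module InnerProductSpace
open Pool.Agent.Helper17.CKF Pool.Agent.Helper20.CKP Pool.Agent.Helper40.CK

open scoped ComplexOrder

namespace Pool.Agent.Helper29.CKP

section Toeplitz
variable {K : Type} [RCLike K] {n s l : ℕ}

/-- The matrix with `s` rows, the row `i` is `y` shifted by `i`. -/
noncomputable def toep (s n : ℕ) {l : ℕ} (y : Fin l → K) : Matrix (Fin s) (Fin n) K :=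
  Matrix.of fun i j => if h : (i : ℕ) ≤ j ∧ (j : ℕ) - i < l then y ⟨j - i, h.2⟩ else 0

theorem toep_neg (y : Fin l → K) : toep s n (-y) = -toep s n y := by
  ext i j
  simp only [toep, Matrix.of_apply, Matrix.neg_apply]
  split_ifs
  · rfl
  · simp

theorem continuous_toep : Continuous (toep s n : (Fin l → K) → Matrix (Fin s) (Fin n) K) := by
  refine continuous_matrix fun i j => ?_
  simp only [toep, Matrix.of_apply]
  split_ifs with h
  · exact continuous_apply _
  · exact continuous_const

/-- The rows of the matrix are linearly independent. -/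
theorem toep_li (hn : s + l ≤ n + 1) {y : Fin l → K} (hy : y ≠ 0) (c : Fin s → K)
    (hc : ∀ j, ∑ i, c i * toep s n y i j = 0) : c = 0 := by
  classical
  -- the first nonzero entry of `y`
  obtain ⟨m0, hm0, hmin⟩ : ∃ m0 : Fin l, y m0 ≠ 0 ∧ ∀ m, m < m0 → y m = 0 := by
    obtain ⟨m, hm⟩ := Function.ne_iff.1 hy
    let S : Finset (Fin l) := Finset.univ.filter fun m => y m ≠ 0
    have hS : S.Nonempty := ⟨m, by simpa [S] using hm⟩
    refine ⟨S.min' hS, ?_, fun m' hm' => ?_⟩
    · have := S.min'_mem hS
      simpa [S] using this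
    · by_contra h
      have := S.min'_le m' (by simpa [S] using h)
      exact absurd hm' (not_lt.2 this)
  have key : ∀ k : ℕ, ∀ hk : k < s, c ⟨k, hk⟩ = 0 := by
    intro k
    induction k using Nat.strong_induction_on with
    | _ k ih =>
      intro hk
      have hjn : k + (m0 : ℕ) < n := by
        have := m0.2
        omega
      have h1 := hc ⟨k + m0, hjn⟩
      rw [Finset.sum_eq_single (⟨k, hk⟩ : Fin s)] at h1
      · have h2 : toep s n y ⟨k, hk⟩ ⟨k + m0, hjn⟩ = y m0 := by
          simp only [toep, Matrix.of_apply]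
          rw [dif_pos ⟨by simp, by simp⟩]
          congr 1
          ext
          simp
        rw [h2] at h1
        exact (mul_eq_zero.1 h1).resolve_right hm0
      · intro i _ hi
        rcases lt_trichotomy (i : ℕ) k with h | h | h
        · rw [ih i h i.2, zero_mul]
        · exact absurd (Fin.ext h) hi
        · have h2 : toep s n y i ⟨k + m0, hjn⟩ = 0 := by
            simp only [toep, Matrix.of_apply]
            split_ifs with h3
            · apply hmin
              rw [Fin.lt_def]
              show k + (m0 : ℕ) - i < m0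
              have h4 : (i : ℕ) ≤ k + m0 := h3.1
              omega
            · rfl
          rw [h2, mul_zero]
      · intro h
        exact absurd (Finset.mem_univ _) h
  funext i
  exact key i i.2

/-- The rows of the matrix as vectors of the Hermitian space. -/
noncomputable def trow (s n : ℕ) {l : ℕ} (y : Fin l → K) (i : Fin s) : EuclideanSpace K (Fin n) :=
  WithLp.toLp 2 (toep s n y i)

theorem trow_li (hn : s + l ≤ n + 1) {y : Fin l → K} (hy : y ≠ 0) :
    LinearIndependent K (trow s n y) := by
  rw [Fintype.linearIndependent_iff]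
  intro c hc i
  have h1 : c = 0 := by
    refine toep_li hn hy c fun j => ?_
    have h2 := congrArg (fun v : EuclideanSpace K (Fin n) => v j) hc
    simp only [WithLp.ofLp_sum, Finset.sum_apply, WithLp.ofLp_smul, Pi.smul_apply, smul_eq_mul,
      WithLp.ofLp_zero, Pi.zero_apply] at h2
    exact h2
  rw [h1]
  rfl

theorem trow_neg (y : Fin l → K) : trow s n (-y) = -trow s n y := by
  funext i
  show WithLp.toLp 2 (toep s n (-y) i) = -WithLp.toLp 2 (toep s n y i)
  rw [toep_neg]
  rfl

theorem continuous_trow (i : Fin s) :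
    Continuous fun y : Fin l → K => (trow s n y i : EuclideanSpace K (Fin n)) := by
  have h1 : Continuous fun y : Fin l → K => toep s n y i :=
    (continuous_apply i).comp continuous_toep
  exact (PiLp.continuous_toLp 2 _).comp h1

theorem gs_eq {V : Type} [NormedAddCommGroup V] [InnerProductSpace K V] (f : Fin s → V)
    (i : Fin s) : gramSchmidt K f i = f i - ∑ j ∈ Finset.Iio i,
      (inner K (gramSchmidt K f j) (f i) / (‖gramSchmidt K f j‖ : K) ^ 2) •
        gramSchmidt K f j := by
  rw [eq_sub_iff_add_eq]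
  exact (gramSchmidt_def'' K f i).symm

theorem gs_neg {V : Type} [NormedAddCommGroup V] [InnerProductSpace K V] (f : Fin s → V)
    (i : Fin s) : gramSchmidt K (-f) i = -gramSchmidt K f i := by
  induction i using WellFoundedLT.induction with
  | ind i ih =>
    rw [gs_eq, gs_eq f, neg_sub', Pi.neg_apply, sub_right_inj, ← Finset.sum_neg_distrib]
    refine Finset.sum_congr rfl fun j hj => ?_
    rw [ih j (Finset.mem_Iio.1 hj), inner_neg_neg, norm_neg, smul_neg]

theorem gs_cont {X : Type} [TopologicalSpace X] {S : Set X} {V : Type} [NormedAddCommGroup V]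
    [InnerProductSpace K V] (f : X → Fin s → V) (hf : ∀ i, ContinuousOn (fun x => f x i) S)
    (hli : ∀ x ∈ S, LinearIndependent K (f x)) (i : Fin s) :
    ContinuousOn (fun x => gramSchmidt K (f x) i) S := by
  induction i using WellFoundedLT.induction with
  | ind i ih =>
    have h0 : ContinuousOn (fun x => f x i - ∑ j ∈ Finset.Iio i,
      (inner K (gramSchmidt K (f x) j) (f x i) / (‖gramSchmidt K (f x) j‖ : K) ^ 2) •
        gramSchmidt K (f x) j) S := by
      refine (hf i).sub (continuousOn_finsetSum _ fun j hj => ?_)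
      have h1 := ih j (Finset.mem_Iio.1 hj)
      refine ContinuousOn.smul (ContinuousOn.div (h1.inner (hf i)) ?_ ?_) h1
      · exact (RCLike.continuous_ofReal.comp_continuousOn h1.norm).pow 2
      · intro x hx
        have h2 := gramSchmidt_ne_zero (𝕜 := K) j (hli x hx)
        exact pow_ne_zero 2 (RCLike.ofReal_ne_zero.2 (norm_ne_zero_iff.2 h2))
    exact h0.congr fun x _ => gs_eq (f x) i

/-- The orthonormal rows. -/
noncomputable def gsM (s n : ℕ) {l : ℕ} (y : Fin l → K) : Matrix (Fin s) (Fin n) K :=
  Matrix.of fun i => WithLp.ofLp (gramSchmidtNormed K (trow s n y) i)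

theorem gsM_orth (hn : s + l ≤ n + 1) {y : Fin l → K} (hy : y ≠ 0) :
    gsM s n y * (gsM s n y)ᴴ = 1 := by
  have h1 := gramSchmidtNormed_orthonormal (trow_li (K := K) hn hy)
  rw [orthonormal_iff_ite] at h1
  ext i j
  have h2 := h1 j i
  rw [PiLp.inner_apply] at h2
  rw [Matrix.mul_apply, Matrix.one_apply]
  have h3 : ∑ k, gsM s n y i k * (gsM s n y)ᴴ k j = if j = i then 1 else 0 := by
    rw [← h2]
    refine Finset.sum_congr rfl fun k _ => ?_
    rfl
  rw [h3]
  by_cases h : i = j
  · rw [if_pos h, if_pos h.symm]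
  · rw [if_neg h, if_neg fun h' => h h'.symm]

theorem gsM_neg (y : Fin l → K) : gsM s n (-y) = -gsM s n y := by
  ext i j
  have h1 : gramSchmidtNormed K (trow s n (-y)) i = -gramSchmidtNormed K (trow s n y) i := by
    rw [trow_neg, gramSchmidtNormed, gramSchmidtNormed, gs_neg, norm_neg, smul_neg]
  show (gramSchmidtNormed K (trow s n (-y)) i).ofLp j = -(gramSchmidtNormed K (trow s n y) i).ofLp j
  rw [h1]
  rfl

theorem gsM_cont (hn : s + l ≤ n + 1) :
    ContinuousOn (gsM s n : (Fin l → K) → Matrix (Fin s) (Fin n) K) {0}ᶜ := by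
  have h1 : ∀ i, ContinuousOn (fun y : Fin l → K => gramSchmidtNormed K (trow s n y) i) {0}ᶜ := by
    intro i
    have h2 := gs_cont (S := ({0}ᶜ : Set (Fin l → K))) (fun y => trow s n y)
      (fun i => (continuous_trow i).continuousOn) (fun y hy => trow_li (K := K) hn hy) i
    have h3 : ContinuousOn (fun y : Fin l → K =>
        ((‖gramSchmidt K (trow s n y) i‖ : ℝ) : K)) {0}ᶜ :=
      RCLike.continuous_ofReal.comp_continuousOn h2.norm
    have h4 : ContinuousOn (fun y : Fin l → K =>
        ((‖gramSchmidt K (trow s n y) i‖ : ℝ) : K)⁻¹) {0}ᶜ :=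
      h3.inv₀ fun y hy => RCLike.ofReal_ne_zero.2
        (norm_ne_zero_iff.2 (gramSchmidt_ne_zero i (trow_li hn hy)))
    exact h4.smul h2
  rw [continuousOn_iff_continuous_domRestrict]
  refine continuous_matrix fun i j => ?_
  have h3 : Continuous (({0}ᶜ : Set (Fin l → K)).domRestrict
    fun y : Fin l → K => gramSchmidtNormed K (trow s n y) i) :=
    continuousOn_iff_continuous_domRestrict.1 (h1 i)
  have h4 : Continuous fun v : EuclideanSpace K (Fin n) => WithLp.ofLp v j :=
    (continuous_apply j).comp (PiLp.continuous_ofLp 2 _)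
  exact h4.comp h3

end Toeplitz

theorem exists_factorK {K : Type} [RCLike K] {r n s : ℕ} (B : Matrix (Fin r) (Fin n) K)
    (h : B.rank ≤ s) : ∃ C : Matrix (Fin r) (Fin s) K, C * Cᴴ = B * Bᴴ := by
  classical
  have hpsd : (B * Bᴴ).PosSemidef := Matrix.posSemidef_self_mul_conjTranspose B
  have hH : (B * Bᴴ).IsHermitian := hpsd.isHermitian
  have hcard : Fintype.card {i // hH.eigenvalues i ≠ 0} ≤ Fintype.card (Fin s) := by
    rw [← hH.rank_eq_card_non_zero_eigs, Matrix.rank_self_mul_conjTranspose, Fintype.card_fin]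
    exact h
  obtain ⟨e⟩ := Function.Embedding.nonempty_of_card_le hcard
  let ι := {i // hH.eigenvalues i ≠ 0}
  let Q : Matrix ι (Fin s) K := fun i k => if e i = k then 1 else 0
  have hQ : Q * Qᴴ = 1 := by
    ext i j
    rw [Matrix.mul_apply, Matrix.one_apply]
    have h1 : ∀ k, Q i k * Qᴴ k j = if e i = k then (if e j = k then 1 else 0) else 0 := by
      intro k
      rw [Matrix.conjTranspose_apply]
      simp only [Q]
      split_ifs <;> simp
    simp only [h1]
    rw [Finset.sum_ite_eq, if_pos (Finset.mem_univ _)]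
    by_cases hij : i = j
    · rw [hij, if_pos rfl, if_pos rfl]
    · rw [if_neg hij, if_neg fun h' => hij (e.injective h').symm]
  let V : Matrix (Fin r) (Fin r) K := hH.eigenvectorUnitary
  have hspec : B * Bᴴ = V * diagonal (fun i => (hH.eigenvalues i : K)) * Vᴴ := by
    have h1 := hH.spectral_theorem
    rw [Unitary.conjStarAlgAut_apply] at h1
    exact h1
  let U : Matrix (Fin r) ι K := fun j i => V j i * ((Real.sqrt (hH.eigenvalues i) : ℝ) : K)
  have hU : U * Uᴴ = B * Bᴴ := by
    refine Eq.trans ?_ hspec.symm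
    ext j k
    rw [Matrix.mul_apply, Matrix.mul_apply]
    have h2 : ∀ i, (V * diagonal (fun i => (hH.eigenvalues i : K))) j i * Vᴴ i k =
        V j i * (hH.eigenvalues i : K) * star (V k i) := fun i => by
      rw [Matrix.mul_diagonal, Matrix.conjTranspose_apply]
    simp only [h2]
    have h3 : ∀ i : ι, U j i * Uᴴ i k = V j i * (hH.eigenvalues i : K) * star (V k i) :=
      fun i => by
      rw [Matrix.conjTranspose_apply]
      show V j i * ((Real.sqrt (hH.eigenvalues i) : ℝ) : K) *
        star (V k i * ((Real.sqrt (hH.eigenvalues i) : ℝ) : K)) = _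
      have h4 := Real.mul_self_sqrt (hpsd.eigenvalues_nonneg i)
      have h5 : star (((Real.sqrt (hH.eigenvalues i) : ℝ) : K)) =
          ((Real.sqrt (hH.eigenvalues i) : ℝ) : K) := RCLike.conj_ofReal _
      rw [star_mul', h5]
      calc V j i * ((Real.sqrt (hH.eigenvalues i) : ℝ) : K) *
            (star (V k i) * ((Real.sqrt (hH.eigenvalues i) : ℝ) : K))
          = V j i * (((Real.sqrt (hH.eigenvalues i) : ℝ) : K) *
              ((Real.sqrt (hH.eigenvalues i) : ℝ) : K)) * star (V k i) := by
            ring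
        _ = _ := by rw [← RCLike.ofReal_mul, h4]
    simp only [h3]
    rw [← Fintype.sum_subtype_add_sum_subtype (fun i => hH.eigenvalues i ≠ 0)
      (fun i => V j i * (hH.eigenvalues i : K) * star (V k i))]
    have h5 : ∑ i : {i // ¬ hH.eigenvalues i ≠ 0}, V j i * (hH.eigenvalues i : K) *
        star (V k i) = 0 :=
      Finset.sum_eq_zero fun i _ => by
        rw [not_not.1 i.2, RCLike.ofReal_zero, mul_zero, zero_mul]
    rw [h5, add_zero]
  refine ⟨U * Q, ?_⟩
  rw [Matrix.conjTranspose_mul, Matrix.mul_assoc, ← Matrix.mul_assoc Q, hQ, Matrix.one_mul, hU]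

/-- If the homogeneous space of `U(r, n)` by `H` admits a cocompact discontinuous group and `p_H`
contains a nonzero matrix of rank at most `s`, then the dimension of `p_H` is at least
`n + 1 - s`, times the dimension of the field. -/
theorem coindex_rank (K : Type) [RCLike K] {r n s : ℕ} {H : Subgroup (UpqK K r n)}
    (hH : IsReductive (H.map (UpqK K r n).subtype)) (had : AdmitsCocompact H)
    {B : Matrix (Fin r) (Fin n) K}
    (hB : pcK K r n B ∈ pSpace (H.map (UpqK K r n).subtype)) (hB0 : B ≠ 0) (hs : B.rank ≤ s)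
    (hsn : s ≤ n) :
    finrank ℝ K * (n + 1) ≤ finrank ℝ (pSpace (H.map (UpqK K r n).subtype)) +
      finrank ℝ K * s := by
  obtain ⟨Γ, hΓ⟩ := had
  set M := oneM (isReductive_upqK K r n).closed with hM
  have hCG : Cartan M ⊤ (pSpace (UpqK K r n)) := cartan_top (isReductive_upqK K r n)
  have hCH : Cartan M H (pSpace (H.map (UpqK K r n).subtype)) := cartan_one _ hH
  obtain ⟨C, hC⟩ := exists_factorK B hs
  obtain ⟨l, hl⟩ : ∃ l, s + l = n + 1 := ⟨n + 1 - s, by omega⟩
  -- the unknown parameters
  have hfin : finrank ℝ (Fin l → K) = finrank ℝ K * l := by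
    rw [Module.finrank_pi_fintype, Finset.sum_const, Finset.card_univ, Fintype.card_fin,
      smul_eq_mul, mul_comm]
  let e : (Fin (finrank ℝ K * l) → ℝ) ≃ₗ[ℝ] (Fin l → K) :=
    LinearEquiv.ofFinrankEq _ _ (by rw [hfin, Module.finrank_fin_fun])
  have hec : Continuous e := e.toLinearMap.continuous_of_finiteDimensional
  have he0 : ∀ y, y ≠ 0 → e y ≠ 0 := fun y hy => by simpa using hy
  have hgram : ∀ y : Fin l → K, y ≠ 0 →
      (C * gsM s n y) * (C * gsM s n y)ᴴ = B * Bᴴ := by
    intro y hy
    rw [conjTranspose_mul, Matrix.mul_assoc, ← Matrix.mul_assoc (gsM s n y),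
      gsM_orth (by omega) hy, Matrix.one_mul, hC]
  have h1 := odd_coindex M hCG hCH hΓ (fun y => pcK K r n (C * gsM s n (e y))) ?_ ?_ ?_ ?_
  · have h2 : finrank ℝ K * (n + 1) = finrank ℝ K * l + finrank ℝ K * s := by
      rw [← hl]
      ring
    omega
  · have h2 : Continuous (pcK K r n) := (pcK K r n).continuous_of_finiteDimensional
    refine h2.comp_continuousOn ?_
    have h3 : Continuous fun T : Matrix (Fin s) (Fin n) K => C * T :=
      Continuous.matrix_mul continuous_const continuous_id
    refine h3.comp_continuousOn ?_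
    exact (gsM_cont (K := K) (by omega)).comp hec.continuousOn fun y hy => he0 y hy
  · intro y hy
    show pcK K r n (C * gsM s n (e (-y))) = -pcK K r n (C * gsM s n (e y))
    rw [map_neg, gsM_neg, Matrix.mul_neg, map_neg]
  · intro y hy h
    have h3 : C * gsM s n (e y) = 0 := pcK_inj (h.trans (map_zero _).symm)
    have h4 := hgram (e y) (he0 y hy)
    rw [h3, Matrix.zero_mul] at h4
    exact hB0 (Matrix.self_mul_conjTranspose_eq_zero.1 h4.symm)
  · intro y hy
    obtain ⟨W, hW, hW'⟩ := exists_unitary (hgram (e y) (he0 y hy))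
    have hW1 : Wᴴ * Wᴴᴴ = 1 := by
      rw [conjTranspose_conjTranspose]
      exact mul_eq_one_comm.1 hW
    obtain ⟨g, hg, hg1, hg2⟩ := conj_upqK (K := K) (r := r) (n := n) (U := 1) (W := Wᴴ)
      (by rw [conjTranspose_one, Matrix.one_mul]) hW1
    refine ⟨⟨g, hg⟩, hg1, pcK K r n B, hB, ?_⟩
    have h5 := hg2 B
    rw [Matrix.one_mul, conjTranspose_conjTranspose, ← hW'] at h5
    exact h5.symm

end Pool.Agent.Helper29.CKP
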