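import Mathlib

set_option autoImplicit false

/-!
# The standard Hermitian form of `ℂ ^ n`
-/

namespace Pool.Agent.Helper29.CKP

open Module Matrix

variable {n : ℕ}

/-- The Hermitian form. -/
noncomputable def hm (x y : Fin n → ℂ) : ℂ := x ⬝ᵥ star y

theorem hm_add_left (x x' y : Fin n → ℂ) : hm (x + x') y = hm x y + hm x' y := by
  rw [hm, add_dotProduct]; rfl

theorem hm_add_right (x y y' : Fin n → ℂ) : hm x (y + y') = hm x y + hm x y' := by
  rw [hm, star_add, dotProduct_add]; rfl

theorem hm_smul_left (a : ℂ) (x y : Fin n → ℂ) : hm (a • x) y = a * hm x y := by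
  rw [hm, smul_dotProduct]; rfl

theorem hm_smul_right (a : ℂ) (x y : Fin n → ℂ) : hm x (a • y) = star a * hm x y := by
  rw [hm, star_smul, dotProduct_smul]; rfl

theorem hm_neg_left (x y : Fin n → ℂ) : hm (-x) y = -hm x y := by
  rw [hm, neg_dotProduct]; rfl

theorem hm_neg_right (x y : Fin n → ℂ) : hm x (-y) = -hm x y := by
  rw [hm, star_neg, dotProduct_neg]; rfl

theorem hm_sub_left (x x' y : Fin n → ℂ) : hm (x - x') y = hm x y - hm x' y := by
  rw [hm, sub_dotProduct]; rfl

theorem hm_sub_right (x y y' : Fin n → ℂ) : hm x (y - y') = hm x y - hm x y' := by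
  rw [hm, star_sub, dotProduct_sub]; rfl

theorem hm_rsmul_left (a : ℝ) (x y : Fin n → ℂ) : hm (a • x) y = a * hm x y := by
  have : (a • x : Fin n → ℂ) = (a : ℂ) • x := by ext i; simp
  rw [this, hm_smul_left]

theorem hm_rsmul_right (a : ℝ) (x y : Fin n → ℂ) : hm x (a • y) = a * hm x y := by
  have : (a • y : Fin n → ℂ) = (a : ℂ) • y := by ext i; simp
  rw [this, hm_smul_right]
  simp

theorem hm_star (x y : Fin n → ℂ) : star (hm x y) = hm y x := by
  rw [hm, hm, ← star_dotProduct_star, star_star]

theorem hm_zero_left (y : Fin n → ℂ) : hm 0 y = 0 := by rw [hm, zero_dotProduct]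

theorem hm_zero_right (x : Fin n → ℂ) : hm x 0 = 0 := by rw [hm, star_zero, dotProduct_zero]

theorem hm_re_comm (x y : Fin n → ℂ) : (hm x y).re = (hm y x).re := by
  rw [← hm_star x y]; simp

theorem hm_im_comm (x y : Fin n → ℂ) : (hm x y).im = -(hm y x).im := by
  rw [← hm_star x y]; simp

theorem hm_self_im (x : Fin n → ℂ) : (hm x x).im = 0 := by
  have := hm_im_comm x x
  linarith

theorem hm_self_re (x : Fin n → ℂ) : (hm x x).re = ∑ i, Complex.normSq (x i) := by
  rw [hm, dotProduct, Complex.re_sum]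
  refine Finset.sum_congr rfl fun i _ => ?_
  show (x i * (starRingEnd ℂ) (x i)).re = _
  rw [Complex.mul_conj, Complex.ofReal_re]

theorem hm_self_nonneg (x : Fin n → ℂ) : 0 ≤ (hm x x).re := by
  rw [hm_self_re]
  exact Finset.sum_nonneg fun i _ => Complex.normSq_nonneg _

theorem hm_self_eq_zero {x : Fin n → ℂ} (h : (hm x x).re = 0) : x = 0 := by
  rw [hm_self_re] at h
  ext i
  exact Complex.normSq_eq_zero.1
    ((Finset.sum_eq_zero_iff_of_nonneg fun i _ => Complex.normSq_nonneg _).1 h i
      (Finset.mem_univ i))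

theorem hm_self_eq (x : Fin n → ℂ) : hm x x = ((hm x x).re : ℂ) := by
  apply Complex.ext
  · simp
  · rw [hm_self_im]; simp

/-- A vector orthogonal to all vectors, for the real part of the form, is zero. -/
theorem eq_of_hm_re {u v : Fin n → ℂ} (h : ∀ x, (hm x u).re = (hm x v).re) : u = v := by
  have h1 := h (u - v)
  have h2 : (hm (u - v) (u - v)).re = 0 := by
    rw [hm_sub_right, Complex.sub_re, h1, sub_self]
  exact sub_eq_zero.1 (hm_self_eq_zero h2)

theorem eq_of_hm {u v : Fin n → ℂ} (h : ∀ x, hm x u = hm x v) : u = v :=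
  eq_of_hm_re fun x => by rw [h]

/-- A real linear map with `⟨x, J x⟩ = 0` is conjugate linear. -/
theorem antilinear {J : (Fin n → ℂ) →ₗ[ℝ] (Fin n → ℂ)} (h : ∀ x, hm x (J x) = 0)
    (x : Fin n → ℂ) : J (Complex.I • x) = -(Complex.I • J x) := by
  have h1 : ∀ x y, hm x (J y) = -hm y (J x) := by
    intro x y
    have h2 := h (x + y)
    rw [map_add, hm_add_left, hm_add_right, hm_add_right, h, h] at h2
    linear_combination h2
  apply eq_of_hm
  intro y
  have h2 := h1 (Complex.I • x) y
  rw [hm_smul_left, h1 x y] at h2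
  rw [hm_neg_right, hm_smul_right]
  have h3 : star Complex.I = -Complex.I := Complex.conj_I
  rw [h3]
  linear_combination h2

/-- A conjugate linear map with `⟨x, J x⟩ = 0` and `|J x| = |x|` is given by a skew unitary
matrix. -/
theorem skew_unitary {J : (Fin n → ℂ) →ₗ[ℝ] (Fin n → ℂ)} (h : ∀ x, hm x (J x) = 0)
    (h' : ∀ x, (hm (J x) (J x)).re = (hm x x).re) :
    ∃ A : Matrix (Fin n) (Fin n) ℂ, Aᵀ = -A ∧ A * Aᴴ = 1 ∧ ∀ x, J x = A *ᵥ star x := by
  have hI := antilinear h
  let L : (Fin n → ℂ) →ₗ[ℂ] (Fin n → ℂ) :=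
    { toFun := fun x => J (star x)
      map_add' := fun x y => by rw [star_add, map_add]
      map_smul' := fun a x => by
        rw [star_smul, RingHom.id_apply]
        have e : star a • star x = a.re • star x + (-a.im) • (Complex.I • star x) := by
          ext i
          simp only [Pi.smul_apply, Pi.add_apply, smul_eq_mul, Complex.real_smul]
          apply Complex.ext <;> simp <;> ring
        rw [e, map_add, map_smul, map_smul, hI]
        ext i
        simp only [Pi.smul_apply, Pi.add_apply, Pi.neg_apply, smul_eq_mul, Complex.real_smul]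
        apply Complex.ext <;> simp <;> ring }
  let A : Matrix (Fin n) (Fin n) ℂ := LinearMap.toMatrix' L
  have hA : ∀ x, J x = A *ᵥ star x := by
    intro x
    have : A *ᵥ star x = L (star x) := LinearMap.toMatrix'_mulVec _ _
    rw [this]
    show J x = J (star (star x))
    rw [star_star]
  have h1 : ∀ y : Fin n → ℂ, y ⬝ᵥ A *ᵥ y = 0 := by
    intro y
    have h2 := h (star y)
    rw [hA, star_star] at h2
    have h3 := congrArg star h2
    rw [hm, star_dotProduct, star_star, star_star, star_zero, dotProduct_comm] at h3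
    exact h3
  have h2 : ∀ x y, x ⬝ᵥ A *ᵥ y = -(y ⬝ᵥ A *ᵥ x) := by
    intro x y
    have h3 := h1 (x + y)
    rw [mulVec_add, add_dotProduct, dotProduct_add, dotProduct_add, h1, h1] at h3
    linear_combination h3
  have hT : Aᵀ = -A := by
    ext i j
    have h := h2 (Pi.single j 1) (Pi.single i 1)
    rw [single_one_dotProduct, single_one_dotProduct, mulVec_single_one, mulVec_single_one] at h
    exact h
  have h3 : ∀ x, (hm (A *ᵥ x) (A *ᵥ x)).re = (hm x x).re := by
    intro x
    have h4 := h' (star x)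
    rw [hA, star_star] at h4
    rw [h4, hm_self_re, hm_self_re]
    refine Finset.sum_congr rfl fun i _ => ?_
    exact Complex.normSq_conj _
  have h4 : ∀ x y, (hm (A *ᵥ x) (A *ᵥ y)).re = (hm x y).re := by
    intro x y
    have h5 := h3 (x + y)
    rw [mulVec_add, hm_add_left, hm_add_right, hm_add_right, hm_add_left, hm_add_right,
      hm_add_right] at h5
    simp only [Complex.add_re] at h5
    rw [h3, h3, hm_re_comm (A *ᵥ y) (A *ᵥ x), hm_re_comm y x] at h5
    linarith
  have h5 : ∀ x y, hm (A *ᵥ x) (A *ᵥ y) = hm x y := by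
    intro x y
    apply Complex.ext
    · exact h4 x y
    · have h6 := h4 (Complex.I • x) y
      rw [mulVec_smul, hm_smul_left, hm_smul_left] at h6
      simpa using h6
  have h6 : Aᴴ * A = 1 := by
    ext i j
    have h := h5 (Pi.single j 1) (Pi.single i 1)
    rw [mulVec_single_one, mulVec_single_one] at h
    have e : (Aᴴ * A) i j = A.col j ⬝ᵥ star (A.col i) := by
      rw [Matrix.mul_apply, dotProduct]
      exact Finset.sum_congr rfl fun k _ => mul_comm _ _
    rw [e]
    have h' : A.col j ⬝ᵥ star (A.col i) = hm (Pi.single j 1) (Pi.single i 1) := h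
    rw [h', hm, single_one_dotProduct, Matrix.one_apply, Pi.star_apply, Pi.single_apply]
    by_cases hij : i = j
    · rw [if_pos hij.symm, if_pos hij, star_one]
    · rw [if_neg (Ne.symm hij), if_neg hij, star_zero]
  exact ⟨A, hT, mul_eq_one_comm.1 h6, hA⟩

end Pool.Agent.Helper29.CKP
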