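import Pool.Agent.Helper29.CKP.FormsK
import Pool.Agent.Helper29.CKP.Herm

set_option autoImplicit false

/-!
# Real linear spaces of complex `2 × n` matrices with a constant ratio of the singular values
-/

namespace Pool.Agent.Helper29.CKP

open Module Matrix

variable {n : ℕ}

theorem exists_half_c {ν : ℝ} {ω : ℂ} (h : ν ^ 2 + Complex.normSq ω = 1) :
    ∃ (s : ℝ) (τ : ℂ), s ^ 2 + Complex.normSq τ = 1 ∧ s ^ 2 - Complex.normSq τ = ν ∧
      2 * (s : ℂ) * τ = ω := by
  have h0 := Complex.normSq_nonneg ω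
  have hα : -1 ≤ ν := by nlinarith [sq_nonneg (ν - 1)]
  rcases hα.eq_or_lt with h1 | h1
  · have hω : ω = 0 := by
      apply Complex.normSq_eq_zero.1
      rw [← h1] at h
      linarith
    exact ⟨0, 1, by simp, by rw [← h1]; simp, by rw [hω]; simp⟩
  · have hpos : 0 < (1 + ν) / 2 := by linarith
    have hs := Real.sq_sqrt hpos.le
    have hs0 : 0 < Real.sqrt ((1 + ν) / 2) := Real.sqrt_pos.2 hpos
    set s := Real.sqrt ((1 + ν) / 2) with hsdef
    have hsc : (s : ℂ) ≠ 0 := by exact_mod_cast hs0.ne'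
    have ht : Complex.normSq (ω / (2 * s)) = (1 - ν) / 2 := by
      rw [Complex.normSq_div, Complex.normSq_mul, Complex.normSq_ofReal, ← pow_two, hs,
        show Complex.normSq ω = 1 - ν ^ 2 by linarith, show Complex.normSq 2 = 4 by
          rw [Complex.normSq_apply]; norm_num, div_eq_iff (by positivity)]
      ring
    refine ⟨s, ω / (2 * s), ?_, ?_, ?_⟩
    · rw [hs, ht]; ring
    · rw [hs, ht]; ring
    · field_simp

theorem classifyC (hn : 3 ≤ n) (P : Submodule ℝ (Matrix (Fin 2) (Fin n) ℂ))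
    (hdim : 2 * n ≤ finrank ℝ P) (δ : ℝ)
    (hδ : ∀ B ∈ P, (hm (B 0) (B 0)).re * (hm (B 1) (B 1)).re - Complex.normSq (hm (B 0) (B 1)) =
      δ * ((hm (B 0) (B 0)).re + (hm (B 1) (B 1)).re) ^ 2)
    (htri : ∀ B ∈ P, ∀ C ∈ P, (2 : ℝ) • (B * Cᴴ * B) - C * Bᴴ * B - B * Bᴴ * C ∈ P) :
    (∃ u : Fin 2 → ℂ, u ≠ 0 ∧ ∀ B, B ∈ P ↔ ∃ x, B = vecMulVec u x) ∨
    (∃ A : Matrix (Fin n) (Fin n) ℂ, Aᵀ = -A ∧ A * Aᴴ = 1 ∧
      ∀ B, B ∈ P ↔ ∃ x, B = Matrix.of ![x, A *ᵥ star x]) := by
  have h5 : 6 ≤ finrank ℝ P := by omega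
  -- the rows
  let ρ : Fin 2 → P →ₗ[ℝ] (Fin n → ℂ) := fun i =>
    { toFun := fun B => (B : Matrix (Fin 2) (Fin n) ℂ) i
      map_add' := fun _ _ => rfl
      map_smul' := fun _ _ => rfl }
  have hρ : ∀ (B : P), ρ 0 B = 0 → ρ 1 B = 0 → B = 0 := by
    intro B h0 h1
    apply Subtype.ext
    ext i j
    fin_cases i
    · exact congrFun h0 j
    · exact congrFun h1 j
  let fr : (i j : Fin 2) → P →ₗ[ℝ] P →ₗ[ℝ] ℝ := fun i j => LinearMap.mk₂ ℝ
    (fun B C => (hm (ρ i B) (ρ j C)).re)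
    (fun B B' C => by rw [map_add, hm_add_left, Complex.add_re])
    (fun c B C => by rw [map_smul, hm_rsmul_left, Complex.re_ofReal_mul, smul_eq_mul])
    (fun B C C' => by rw [map_add, hm_add_right, Complex.add_re])
    (fun c B C => by rw [map_smul, hm_rsmul_right, Complex.re_ofReal_mul, smul_eq_mul])
  let fi : (i j : Fin 2) → P →ₗ[ℝ] P →ₗ[ℝ] ℝ := fun i j => LinearMap.mk₂ ℝ
    (fun B C => (hm (ρ i B) (ρ j C)).im)
    (fun B B' C => by rw [map_add, hm_add_left, Complex.add_im])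
    (fun c B C => by rw [map_smul, hm_rsmul_left, Complex.im_ofReal_mul, smul_eq_mul])
    (fun B C C' => by rw [map_add, hm_add_right, Complex.add_im])
    (fun c B C => by rw [map_smul, hm_rsmul_right, Complex.im_ofReal_mul, smul_eq_mul])
  let N : P →ₗ[ℝ] P →ₗ[ℝ] ℝ := fr 0 0 + fr 1 1
  let b : Fin 3 → P →ₗ[ℝ] P →ₗ[ℝ] ℝ := ![fr 0 0 - fr 1 1, fr 0 1 + fr 1 0, fi 0 1 - fi 1 0]
  have eN : ∀ B C, N B C = (hm (ρ 0 B) (ρ 0 C)).re + (hm (ρ 1 B) (ρ 1 C)).re := fun _ _ => rfl
  have eb0 : ∀ B C, b 0 B C = (hm (ρ 0 B) (ρ 0 C)).re - (hm (ρ 1 B) (ρ 1 C)).re :=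
    fun _ _ => rfl
  have eb1 : ∀ B C, b 1 B C = (hm (ρ 0 B) (ρ 1 C)).re + (hm (ρ 1 B) (ρ 0 C)).re :=
    fun _ _ => rfl
  have eb2 : ∀ B C, b 2 B C = (hm (ρ 0 B) (ρ 1 C)).im - (hm (ρ 1 B) (ρ 0 C)).im :=
    fun _ _ => rfl
  have hpos : ∀ B, B ≠ 0 → 0 < N B B := by
    intro B hB
    rw [eN]
    have h0 := hm_self_nonneg (ρ 0 B)
    have h1 := hm_self_nonneg (ρ 1 B)
    rcases h0.eq_or_lt with h | h
    · rcases h1.eq_or_lt with h' | h'
      · exact absurd (hρ B (hm_self_eq_zero h.symm) (hm_self_eq_zero h'.symm)) hB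
      · linarith
    · linarith
  have hz : ∀ B, b 1 B B = 2 * (hm (ρ 0 B) (ρ 1 B)).re ∧ b 2 B B = 2 * (hm (ρ 0 B) (ρ 1 B)).im := by
    intro B
    rw [eb1, eb2, hm_re_comm (ρ 1 B) (ρ 0 B), hm_im_comm (ρ 1 B) (ρ 0 B)]
    constructor <;> ring
  have hq : ∀ B, ∑ j, b j B B ^ 2 = (1 - 4 * δ) * N B B ^ 2 := by
    intro B
    have h : (hm (ρ 0 B) (ρ 0 B)).re * (hm (ρ 1 B) (ρ 1 B)).re -
      Complex.normSq (hm (ρ 0 B) (ρ 1 B)) =
      δ * ((hm (ρ 0 B) (ρ 0 B)).re + (hm (ρ 1 B) (ρ 1 B)).re) ^ 2 := hδ B B.2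
    rw [Complex.normSq_apply] at h
    rw [Fin.sum_univ_three, (hz B).1, (hz B).2, eb0, eN]
    linear_combination -4 * h
  have hfinC : finrank ℝ (Fin n → ℂ) = 2 * n := by
    rw [Module.finrank_pi_fintype]
    simp [Complex.finrank_real_complex, mul_comm]
  have hfin : ∀ f : P →ₗ[ℝ] (Fin n → ℂ), Function.Injective f → Function.Surjective f := by
    intro f hf
    have h1 := LinearMap.finrank_le_finrank_of_injective hf
    rw [hfinC] at h1
    exact (LinearMap.injective_iff_surjective_of_finrank_eq_finrank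
      (by rw [hfinC]; omega)).1 hf
  have hP0 : 0 < finrank ℝ P := by omega
  have hnt : Nontrivial P := Module.nontrivial_of_finrank_pos hP0
  obtain ⟨B₀, hB₀⟩ := exists_ne (0 : P)
  have hκ : 0 ≤ 1 - 4 * δ := by
    have h1 := hq B₀
    have h2 := pow_pos (hpos B₀ hB₀) 2
    have h3 : 0 ≤ ∑ j, b j B₀ B₀ ^ 2 := Finset.sum_nonneg fun j _ => sq_nonneg _
    by_contra h4
    push Not at h4
    nlinarith
  -- rotate the rows
  obtain ⟨c, s, τ, hc0, hcz, hst, r₁, r₂, er₁, er₂, f1, f2, f3⟩ : ∃ (c s : ℝ) (τ : ℂ), 0 ≤ c ∧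
      (c = 0 → s = 1 ∧ τ = 0) ∧ s ^ 2 + Complex.normSq τ = 1 ∧ ∃ r₁ r₂ : P →ₗ[ℝ] (Fin n → ℂ),
      (∀ B, r₁ B = (s : ℂ) • ρ 0 B + τ • ρ 1 B) ∧
      (∀ B, r₂ B = (-star τ) • ρ 0 B + (s : ℂ) • ρ 1 B) ∧ (∀ B, hm (r₁ B) (r₂ B) = 0) ∧
      (∀ B, (hm (r₁ B) (r₁ B)).re - (hm (r₂ B) (r₂ B)).re = c * N B B) ∧
      (∀ B, (hm (r₁ B) (r₁ B)).re + (hm (r₂ B) (r₂ B)).re = N B B) := by
    rcases hκ.eq_or_lt with hκ0 | hκ0
    · refine ⟨0, 1, 0, le_rfl, fun _ => ⟨rfl, rfl⟩, by simp, ρ 0, ρ 1, fun B => by simp, fun B => by simp, ?_, ?_,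
        fun B => rfl⟩
      · intro B
        have h := hq B
        rw [← hκ0, zero_mul, Fin.sum_univ_three] at h
        have h1 : b 1 B B = 0 := by
          nlinarith [sq_nonneg (b 0 B B), sq_nonneg (b 1 B B), sq_nonneg (b 2 B B)]
        have h2 : b 2 B B = 0 := by
          nlinarith [sq_nonneg (b 0 B B), sq_nonneg (b 1 B B), sq_nonneg (b 2 B B)]
        rw [(hz B).1] at h1
        rw [(hz B).2] at h2
        apply Complex.ext
        · simp only [Complex.zero_re]
          linarith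
        · simp only [Complex.zero_im]
          linarith
      · intro B
        have h := hq B
        rw [← hκ0, zero_mul, Fin.sum_univ_three] at h
        have h1 : b 0 B B = 0 := by
          nlinarith [sq_nonneg (b 0 B B), sq_nonneg (b 1 B B), sq_nonneg (b 2 B B)]
        rw [eb0] at h1
        rw [h1, zero_mul]
    · have hc0 : 0 < Real.sqrt (1 - 4 * δ) := Real.sqrt_pos.2 hκ0
      have hcsq : Real.sqrt (1 - 4 * δ) ^ 2 = 1 - 4 * δ := Real.sq_sqrt hκ0.le
      set c := Real.sqrt (1 - 4 * δ) with hc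
      obtain ⟨ν, hν, hform⟩ := formsK (k := 3) (N := N) (b := b) (c := c) (by omega) hP0
        (fun x y => by rw [eN, eN, hm_re_comm (ρ 0 x), hm_re_comm (ρ 1 x)])
        (fun j x y => by
          fin_cases j
          · show b 0 x y = b 0 y x
            rw [eb0, eb0, hm_re_comm (ρ 0 x), hm_re_comm (ρ 1 x)]
          · show b 1 x y = b 1 y x
            rw [eb1, eb1, hm_re_comm (ρ 0 x), hm_re_comm (ρ 1 x)]
            ring
          · show b 2 x y = b 2 y x
            rw [eb2, eb2, hm_im_comm (ρ 0 x), hm_im_comm (ρ 1 x)]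
            ring)
        hpos hc0 (fun x => by rw [hcsq]; exact hq x)
      rw [Fin.sum_univ_three] at hν
      obtain ⟨s, τ, hst, hα, hβ⟩ := exists_half_c (ν := ν 0) (ω := ⟨ν 1, ν 2⟩)
        (by rw [Complex.normSq_apply]; linarith)
      have hβ1 : 2 * s * τ.re = ν 1 := by
        have := congrArg Complex.re hβ
        simpa using this
      have hβ2 : 2 * s * τ.im = ν 2 := by
        have := congrArg Complex.im hβ
        simpa using this
      rw [Complex.normSq_apply] at hst hα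
      refine ⟨c, s, τ, hc0.le, fun h => absurd h hc0.ne', by rw [Complex.normSq_apply]; exact hst,
        { toFun := fun B => (s : ℂ) • ρ 0 B + τ • ρ 1 B
          map_add' := fun B C => by
            rw [map_add, map_add, smul_add, smul_add]
            abel
          map_smul' := fun a B => by
            rw [map_smul, map_smul, RingHom.id_apply, smul_add, smul_comm a (s : ℂ),
              smul_comm a τ] },
        { toFun := fun B => (-star τ) • ρ 0 B + (s : ℂ) • ρ 1 B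
          map_add' := fun B C => by
            rw [map_add, map_add, smul_add, smul_add]
            abel
          map_smul' := fun a B => by
            rw [map_smul, map_smul, RingHom.id_apply, smul_add, smul_comm a (s : ℂ),
              smul_comm a (-star τ)] },
        fun B => rfl, fun B => rfl, ?_, ?_, ?_⟩
      · intro B
        have k0 := hform B 0
        have k1 := hform B 1
        have k2 := hform B 2
        rw [eb0, ← hα] at k0
        rw [(hz B).1, ← hβ1] at k1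
        rw [(hz B).2, ← hβ2] at k2
        show hm ((s : ℂ) • ρ 0 B + τ • ρ 1 B) ((-star τ) • ρ 0 B + (s : ℂ) • ρ 1 B) = 0
        rw [hm_add_left, hm_add_right, hm_add_right, hm_smul_left, hm_smul_left, hm_smul_left,
          hm_smul_left, hm_smul_right, hm_smul_right, hm_smul_right, hm_smul_right,
          ← hm_star (ρ 0 B) (ρ 1 B), hm_self_eq (ρ 0 B), hm_self_eq (ρ 1 B)]
        apply Complex.ext
        · simp
          linear_combination (-s * τ.re) * k0 + ((s ^ 2 - τ.re ^ 2 + τ.im ^ 2) / 2) * k1 -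
            (τ.re * τ.im) * k2
        · simp
          linear_combination (-s * τ.im) * k0 - (τ.re * τ.im) * k1 +
            ((s ^ 2 + τ.re ^ 2 - τ.im ^ 2) / 2) * k2
      · intro B
        have k0 := hform B 0
        have k1 := hform B 1
        have k2 := hform B 2
        rw [eb0, ← hα] at k0
        rw [(hz B).1, ← hβ1] at k1
        rw [(hz B).2, ← hβ2] at k2
        show (hm ((s : ℂ) • ρ 0 B + τ • ρ 1 B) ((s : ℂ) • ρ 0 B + τ • ρ 1 B)).re -
          (hm ((-star τ) • ρ 0 B + (s : ℂ) • ρ 1 B) ((-star τ) • ρ 0 B + (s : ℂ) • ρ 1 B)).re =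
          c * N B B
        rw [hm_add_left, hm_add_right, hm_add_right, hm_smul_left, hm_smul_left, hm_smul_left,
          hm_smul_left, hm_smul_right, hm_smul_right, hm_smul_right, hm_smul_right,
          hm_add_left, hm_add_right, hm_add_right, hm_smul_left, hm_smul_left, hm_smul_left,
          hm_smul_left, hm_smul_right, hm_smul_right, hm_smul_right, hm_smul_right,
          ← hm_star (ρ 0 B) (ρ 1 B), hm_self_eq (ρ 0 B), hm_self_eq (ρ 1 B)]
        simp
        linear_combination (s ^ 2 - τ.re ^ 2 - τ.im ^ 2) * k0 + (2 * s * τ.re) * k1 +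
          (2 * s * τ.im) * k2 + c * N B B * (s ^ 2 + τ.re ^ 2 + τ.im ^ 2 + 1) * hst
      · intro B
        show (hm ((s : ℂ) • ρ 0 B + τ • ρ 1 B) ((s : ℂ) • ρ 0 B + τ • ρ 1 B)).re +
          (hm ((-star τ) • ρ 0 B + (s : ℂ) • ρ 1 B) ((-star τ) • ρ 0 B + (s : ℂ) • ρ 1 B)).re =
          N B B
        rw [hm_add_left, hm_add_right, hm_add_right, hm_smul_left, hm_smul_left, hm_smul_left,
          hm_smul_left, hm_smul_right, hm_smul_right, hm_smul_right, hm_smul_right,
          hm_add_left, hm_add_right, hm_add_right, hm_smul_left, hm_smul_left, hm_smul_left,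
          hm_smul_left, hm_smul_right, hm_smul_right, hm_smul_right, hm_smul_right,
          ← hm_star (ρ 0 B) (ρ 1 B), hm_self_eq (ρ 0 B), hm_self_eq (ρ 1 B), eN]
        simp
        linear_combination ((hm (ρ 0 B) (ρ 0 B)).re + (hm (ρ 1 B) (ρ 1 B)).re) * hst
  have hττ : τ * star τ = (Complex.normSq τ : ℂ) := by
    rw [← Complex.mul_conj]
    rfl
  have hstc : (s : ℂ) ^ 2 + (Complex.normSq τ : ℂ) = 1 := by exact_mod_cast hst
  have e0 : ∀ B, ρ 0 B = (s : ℂ) • r₁ B - τ • r₂ B := by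
    intro B
    rw [er₁, er₂]
    ext k
    simp only [Pi.sub_apply, Pi.add_apply, Pi.smul_apply, smul_eq_mul]
    linear_combination (-(ρ 0 B k)) * hstc - (ρ 0 B k) * hττ
  have e1 : ∀ B, ρ 1 B = star τ • r₁ B + (s : ℂ) • r₂ B := by
    intro B
    rw [er₁, er₂]
    ext k
    simp only [Pi.add_apply, Pi.smul_apply, smul_eq_mul]
    linear_combination (-(ρ 1 B k)) * hstc - (ρ 1 B k) * hττ
  have hinj : Function.Injective r₁ := by
    rw [injective_iff_map_eq_zero]
    intro B hB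
    by_contra h
    have k1 := f2 B
    have k2 := f3 B
    have k3 := hpos B h
    have k4 := hm_self_nonneg (r₂ B)
    rw [hB, hm_zero_left, Complex.zero_re] at k1 k2
    nlinarith
  have hc1 : c ≤ 1 := by
    have k1 := f2 B₀
    have k2 := f3 B₀
    have k3 := hpos B₀ hB₀
    have k4 := hm_self_nonneg (r₂ B₀)
    by_contra h
    push Not at h
    nlinarith
  rcases hc1.eq_or_lt with hc1 | hc1
  · -- rank one
    left
    have k1 : ∀ B, r₂ B = 0 := by
      intro B
      have k1 := f2 B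
      have k2 := f3 B
      rw [hc1] at k1
      apply hm_self_eq_zero
      linarith
    refine ⟨![(s : ℂ), star τ], ?_, fun B => ⟨fun hB => ⟨r₁ ⟨B, hB⟩, ?_⟩, ?_⟩⟩
    · intro h
      have k2 : (s : ℂ) = 0 := congrFun h 0
      have k3 : star τ = 0 := congrFun h 1
      have k4 : s = 0 := by exact_mod_cast k2
      have k5 : τ = 0 := star_eq_zero.1 k3
      rw [k4, k5] at hst
      norm_num at hst
    · have k2 := e0 ⟨B, hB⟩
      have k3 := e1 ⟨B, hB⟩
      rw [k1, smul_zero] at k2 k3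
      rw [sub_zero] at k2
      rw [add_zero] at k3
      ext i j
      fin_cases i
      · exact congrFun k2 j
      · exact congrFun k3 j
    · rintro ⟨x, rfl⟩
      obtain ⟨B, rfl⟩ := hfin _ hinj x
      have k2 := e0 B
      have k3 := e1 B
      rw [k1, smul_zero] at k2 k3
      rw [sub_zero] at k2
      rw [add_zero] at k3
      have : vecMulVec ![(s : ℂ), star τ] (r₁ B) = (B : Matrix (Fin 2) (Fin n) ℂ) := by
        ext i j
        fin_cases i
        · exact (congrFun k2 j).symm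
        · exact (congrFun k3 j).symm
      rw [this]
      exact B.2
  -- the map `J`
  let e := LinearEquiv.ofBijective r₁ ⟨hinj, hfin _ hinj⟩
  have he : ∀ B, e B = r₁ B := fun _ => rfl
  let J : (Fin n → ℂ) →ₗ[ℝ] (Fin n → ℂ) := r₂ ∘ₗ e.symm.toLinearMap
  have hJ1 : ∀ B, J (r₁ B) = r₂ B := by
    intro B
    show r₂ (e.symm (r₁ B)) = r₂ B
    rw [← he, e.symm_apply_apply]
  have hJ0 : ∀ x, hm x (J x) = 0 := by
    intro x
    obtain ⟨B, rfl⟩ := hfin _ hinj x
    rw [hJ1]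
    exact f1 B
  have hrel : ∀ B, (1 + c) * (hm (r₂ B) (r₂ B)).re = (1 - c) * (hm (r₁ B) (r₁ B)).re := by
    intro B
    have h1 := f2 B
    rw [← f3 B] at h1
    linear_combination -h1
  rcases hc0.eq_or_lt with hc0 | hc0
  · -- the quaternionic case
    right
    obtain ⟨hs1, hτ0⟩ := hcz hc0.symm
    have k0 : ∀ B, r₁ B = ρ 0 B := by
      intro B
      rw [er₁, hs1, hτ0, zero_smul, add_zero, Complex.ofReal_one, one_smul]
    have k1 : ∀ B, r₂ B = ρ 1 B := by
      intro B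
      rw [er₂, hs1, hτ0, star_zero, neg_zero, zero_smul, zero_add, Complex.ofReal_one, one_smul]
    obtain ⟨A, hA1, hA2, hA3⟩ := skew_unitary hJ0 (fun x => by
      obtain ⟨B, rfl⟩ := hfin _ hinj x
      rw [hJ1]
      have h := hrel B
      rw [← hc0] at h
      linarith)
    refine ⟨A, hA1, hA2, fun B => ⟨fun hB => ⟨B 0, ?_⟩, ?_⟩⟩
    · have h := hJ1 ⟨B, hB⟩
      rw [k0, k1, hA3] at h
      have h' : A *ᵥ star (B 0) = B 1 := h
      rw [h']
      ext i j
      fin_cases i <;> rfl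
    · rintro ⟨x, rfl⟩
      obtain ⟨B, rfl⟩ := hfin _ hinj x
      rw [← hA3, hJ1, k0, k1]
      have : Matrix.of ![ρ 0 B, ρ 1 B] = (B : Matrix (Fin 2) (Fin n) ℂ) := by
        ext i j
        fin_cases i <;> rfl
      rw [this]
      exact B.2
  · -- a contradiction
    exfalso
    let φ : P →ₗ[ℝ] ℂ × ℂ :=
      { toFun := fun C => (hm (r₁ B₀) (r₁ C), hm (r₂ B₀) (r₁ C))
        map_add' := fun C C' => by
          rw [map_add, hm_add_right, hm_add_right]
          rfl
        map_smul' := fun a C => by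
          rw [map_smul, hm_rsmul_right, hm_rsmul_right]
          rfl }
    obtain ⟨C, hC, hC0⟩ : ∃ C, φ C = 0 ∧ C ≠ 0 := by
      have h1 : LinearMap.ker φ ≠ ⊥ := by
        apply LinearMap.ker_ne_bot_of_finrank_lt
        rw [Module.finrank_prod, Complex.finrank_real_complex]
        omega
      obtain ⟨C, hC, hC0⟩ := (Submodule.ne_bot_iff _).1 h1
      exact ⟨C, hC, hC0⟩
    have g11 : hm (r₁ B₀) (r₁ C) = 0 := congrArg Prod.fst hC
    have g21 : hm (r₂ B₀) (r₁ C) = 0 := congrArg Prod.snd hC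
    have g12 : hm (r₁ B₀) (r₂ C) = 0 := by
      have h := f1 (B₀ + C)
      rw [map_add, map_add, hm_add_left, hm_add_right, hm_add_right, f1, f1,
        ← hm_star (r₂ B₀) (r₁ C), g21, star_zero] at h
      linear_combination h
    have hpol : ∀ C : P, (1 + c) * (hm (r₂ B₀) (r₂ C)).re = (1 - c) * (hm (r₁ B₀) (r₁ C)).re := by
      intro C
      have h1 := hrel (B₀ + C)
      have h2 := hrel B₀
      have h3 := hrel C
      rw [map_add, map_add, hm_add_left, hm_add_right, hm_add_right, hm_add_left, hm_add_right,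
        hm_add_right] at h1
      simp only [Complex.add_re] at h1
      rw [hm_re_comm (r₂ C) (r₂ B₀), hm_re_comm (r₁ C) (r₁ B₀)] at h1
      linear_combination (h1 - h2 - h3) / 2
    have g22 : hm (r₂ B₀) (r₂ C) = 0 := by
      have h1 := hpol C
      obtain ⟨C', hC'⟩ := hfin _ hinj (Complex.I • r₁ C)
      have h2 := hpol C'
      have h3 : r₂ C' = -(Complex.I • r₂ C) := by
        rw [← hJ1, hC', antilinear hJ0, hJ1]
      have h4 : star Complex.I = -Complex.I := Complex.conj_I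
      rw [hC', h3, hm_smul_right, hm_neg_right, hm_smul_right, g11, mul_zero, Complex.zero_re,
        mul_zero, h4] at h2
      rw [g11, Complex.zero_re, mul_zero] at h1
      have h5 : (0 : ℝ) < 1 + c := by linarith
      apply Complex.ext
      · rw [Complex.zero_re]
        exact (mul_eq_zero.1 h1).resolve_left h5.ne'
      · rw [Complex.zero_im]
        have h6 := (mul_eq_zero.1 h2).resolve_left h5.ne'
        simpa using h6
    have hBC : ∀ i j : Fin 2, hm (ρ i B₀) (ρ j C) = 0 := by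
      intro i j
      fin_cases i <;> fin_cases j <;>
      simp only [Fin.zero_eta, Fin.mk_one, e0, e1, hm_add_left, hm_add_right, hm_sub_left,
        hm_sub_right, hm_smul_left, hm_smul_right, g11, g12, g21, g22, mul_zero, sub_zero, add_zero]
    have hBC' : (B₀ : Matrix (Fin 2) (Fin n) ℂ) * (C : Matrix (Fin 2) (Fin n) ℂ)ᴴ = 0 := by
      ext i j
      exact hBC i j
    have hCB' : (C : Matrix (Fin 2) (Fin n) ℂ) * (B₀ : Matrix (Fin 2) (Fin n) ℂ)ᴴ = 0 := by
      have := congrArg conjTranspose hBC'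
      rwa [conjTranspose_mul, conjTranspose_conjTranspose, conjTranspose_zero] at this
    have hT := htri B₀ B₀.2 C C.2
    rw [hBC', hCB', Matrix.zero_mul, smul_zero, sub_zero, zero_sub] at hT
    have hS : (B₀ : Matrix (Fin 2) (Fin n) ℂ) * (B₀ : Matrix (Fin 2) (Fin n) ℂ)ᴴ *
        (C : Matrix (Fin 2) (Fin n) ℂ) ∈ P := by
      have := P.neg_mem hT
      rwa [neg_neg] at this
    set R₁ := (hm (r₁ B₀) (r₁ B₀)).re with hR₁
    set R₂ := (hm (r₂ B₀) (r₂ B₀)).re with hR₂
    have c1 : hm (r₁ B₀) (r₁ B₀) = (R₁ : ℂ) := hm_self_eq _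
    have c2 : hm (r₂ B₀) (r₂ B₀) = (R₂ : ℂ) := hm_self_eq _
    have c12 : hm (r₁ B₀) (r₂ B₀) = 0 := f1 B₀
    have c21 : hm (r₂ B₀) (r₁ B₀) = 0 := by rw [← hm_star, c12, star_zero]
    have s00 : hm (ρ 0 B₀) (ρ 0 B₀) = s ^ 2 * R₁ + (Complex.normSq τ : ℂ) * R₂ := by
      simp only [e0, hm_sub_left, hm_sub_right, hm_smul_left, hm_smul_right, c1, c2, c12, c21]
      rw [← hττ]
      simp
      ring
    have s01 : hm (ρ 0 B₀) (ρ 1 B₀) = s * τ * (R₁ - R₂) := by
      simp only [e0, e1, hm_sub_left, hm_add_right, hm_smul_left, hm_smul_right, c1, c2, c12, c21]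
      simp
      ring
    have s10 : hm (ρ 1 B₀) (ρ 0 B₀) = s * star τ * (R₁ - R₂) := by
      simp only [e0, e1, hm_add_left, hm_sub_right, hm_smul_left, hm_smul_right, c1, c2, c12, c21]
      simp
      ring
    have s11 : hm (ρ 1 B₀) (ρ 1 B₀) = (Complex.normSq τ : ℂ) * R₁ + s ^ 2 * R₂ := by
      simp only [e1, hm_add_left, hm_add_right, hm_smul_left, hm_smul_right, c1, c2, c12, c21]
      rw [← hττ]
      simp
      ring
    have t0 : ρ 0 ⟨_, hS⟩ = (hm (ρ 0 B₀) (ρ 0 B₀)) • ρ 0 C + (hm (ρ 0 B₀) (ρ 1 B₀)) • ρ 1 C := by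
      ext k
      show ((B₀ : Matrix (Fin 2) (Fin n) ℂ) * (B₀ : Matrix (Fin 2) (Fin n) ℂ)ᴴ *
        (C : Matrix (Fin 2) (Fin n) ℂ)) 0 k = _
      rw [Matrix.mul_apply, Fin.sum_univ_two]
      rfl
    have t1 : ρ 1 ⟨_, hS⟩ = (hm (ρ 1 B₀) (ρ 0 B₀)) • ρ 0 C + (hm (ρ 1 B₀) (ρ 1 B₀)) • ρ 1 C := by
      ext k
      show ((B₀ : Matrix (Fin 2) (Fin n) ℂ) * (B₀ : Matrix (Fin 2) (Fin n) ℂ)ᴴ *
        (C : Matrix (Fin 2) (Fin n) ℂ)) 1 k = _
      rw [Matrix.mul_apply, Fin.sum_univ_two]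
      rfl
    rw [s00, s01] at t0
    rw [s10, s11] at t1
    have u1 : r₁ ⟨_, hS⟩ = R₁ • r₁ C := by
      rw [er₁, t0, t1, er₁]
      ext k
      simp only [Pi.add_apply, Pi.smul_apply, smul_eq_mul, Complex.real_smul]
      linear_combination (R₁ * (s * ρ 0 C k + τ * ρ 1 C k)) * hstc +
        (s * ρ 0 C k * (R₁ - R₂)) * hττ
    have u2 : r₂ ⟨_, hS⟩ = R₂ • r₂ C := by
      rw [er₂, t0, t1, er₂]
      ext k
      simp only [Pi.add_apply, Pi.smul_apply, smul_eq_mul, Complex.real_smul]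
      linear_combination (R₂ * (-star τ * ρ 0 C k + s * ρ 1 C k)) * hstc -
        (s * ρ 1 C k * (R₁ - R₂)) * hττ
    have u3 : (⟨_, hS⟩ : P) = R₁ • C := hinj (by rw [u1, map_smul])
    rw [u3, map_smul] at u2
    have u4 : (R₁ - R₂) • r₂ C = 0 := by rw [sub_smul, u2, sub_self]
    have u5 : 0 < R₁ - R₂ := by
      rw [f2 B₀]
      exact mul_pos hc0 (hpos B₀ hB₀)
    have u6 : r₂ C = 0 := (smul_eq_zero.1 u4).resolve_left u5.ne'
    have k1 := f2 C
    have k2 := f3 C
    rw [u6, hm_zero_left, Complex.zero_re] at k1 k2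
    have k3 := hpos C hC0
    nlinarith

end Pool.Agent.Helper29.CKP
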