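import Pool.Agent.Helper29.CKP.Forms

set_option autoImplicit false

/-!
# Linear spaces of `2 × n` matrices with a constant ratio of the singular values
-/

namespace Pool.Agent.Helper29.CKP

open Module Matrix

variable {n : ℕ}

theorem exists_half {α β : ℝ} (h : α ^ 2 + β ^ 2 = 1) :
    ∃ s t : ℝ, s ^ 2 + t ^ 2 = 1 ∧ s ^ 2 - t ^ 2 = α ∧ 2 * s * t = β := by
  have hα : -1 ≤ α := by nlinarith [sq_nonneg β, sq_nonneg (α - 1)]
  rcases hα.eq_or_lt with h1 | h1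
  · have hβ : β = 0 := by
      have : β ^ 2 = 0 := by rw [← h1] at h; linarith
      exact pow_eq_zero_iff (two_ne_zero) |>.1 this
    exact ⟨0, 1, by norm_num, by rw [← h1]; norm_num, by rw [hβ]; norm_num⟩
  · have hpos : 0 < (1 + α) / 2 := by linarith
    have hs := Real.sq_sqrt hpos.le
    have hs0 : 0 < Real.sqrt ((1 + α) / 2) := Real.sqrt_pos.2 hpos
    set s := Real.sqrt ((1 + α) / 2) with hsdef
    have ht : (β / (2 * s)) ^ 2 = (1 - α) / 2 := by
      rw [div_pow, mul_pow, hs, show β ^ 2 = 1 - α ^ 2 by linarith, div_eq_iff (by positivity)]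
      ring
    refine ⟨s, β / (2 * s), ?_, ?_, ?_⟩
    · rw [hs, ht]; ring
    · rw [hs, ht]; ring
    · field_simp

theorem dot_self_nonneg (x : Fin n → ℝ) : 0 ≤ x ⬝ᵥ x :=
  Finset.sum_nonneg fun i _ => mul_self_nonneg (x i)

/-- A skew and isometric family gives a complex structure. -/
theorem complex_structure {J : Matrix (Fin n) (Fin n) ℝ} (h1 : ∀ x, x ⬝ᵥ J *ᵥ x = 0)
    (h2 : ∀ x, (J *ᵥ x) ⬝ᵥ (J *ᵥ x) = x ⬝ᵥ x) : Jᵀ = -J ∧ J * J = -1 := by
  have h3 : ∀ x y, x ⬝ᵥ J *ᵥ y = -(y ⬝ᵥ J *ᵥ x) := by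
    intro x y
    have h := h1 (x + y)
    rw [mulVec_add, add_dotProduct, dotProduct_add, dotProduct_add, h1, h1] at h
    linarith
  have hT : Jᵀ = -J := by
    ext i j
    have h := h3 (Pi.single j 1) (Pi.single i 1)
    rw [single_one_dotProduct, single_one_dotProduct, mulVec_single_one, mulVec_single_one] at h
    exact h
  have h4 : Jᵀ * J = 1 := by
    have h5 : ∀ x y, (J *ᵥ x) ⬝ᵥ (J *ᵥ y) = x ⬝ᵥ y := by
      intro x y
      have h := h2 (x + y)
      rw [mulVec_add, add_dotProduct, dotProduct_add, dotProduct_add, h2, h2, add_dotProduct,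
        dotProduct_add, dotProduct_add, dotProduct_comm (J *ᵥ y) (J *ᵥ x), dotProduct_comm y x] at h
      linarith
    ext i j
    have h := h5 (Pi.single i 1) (Pi.single j 1)
    rw [mulVec_single_one, mulVec_single_one, single_one_dotProduct] at h
    rw [Matrix.one_apply, Matrix.mul_apply]
    have e : ∑ k, Jᵀ i k * J k j = J.col i ⬝ᵥ J.col j := rfl
    rw [e, h, Pi.single_apply]
  refine ⟨hT, ?_⟩
  have h5 : Jᵀ * J = -(J * J) := by rw [hT, neg_mul]
  rw [h4] at h5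
  rw [h5, neg_neg]

theorem classify (hn : 3 ≤ n) (P : Submodule ℝ (Matrix (Fin 2) (Fin n) ℝ))
    (hdim : n ≤ finrank ℝ P) (δ : ℝ)
    (hδ : ∀ B ∈ P, (B * Bᵀ).det = δ * (B * Bᵀ).trace ^ 2)
    (htri : ∀ B ∈ P, ∀ C ∈ P, (2 : ℝ) • (B * Cᵀ * B) - C * Bᵀ * B - B * Bᵀ * C ∈ P) :
    (∃ u : Fin 2 → ℝ, u ≠ 0 ∧ ∀ B, B ∈ P ↔ ∃ x, B = vecMulVec u x) ∨
    (∃ J : Matrix (Fin n) (Fin n) ℝ, Jᵀ = -J ∧ J * J = -1 ∧
      ∀ B, B ∈ P ↔ ∃ x, B = Matrix.of ![x, J *ᵥ x]) := by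
  have h3 : 3 ≤ finrank ℝ P := hn.trans hdim
  -- the rows
  let ρ : Fin 2 → P →ₗ[ℝ] (Fin n → ℝ) := fun i =>
    { toFun := fun B => (B : Matrix (Fin 2) (Fin n) ℝ) i
      map_add' := fun _ _ => rfl
      map_smul' := fun _ _ => rfl }
  have hρ : ∀ (B : P), ρ 0 B = 0 → ρ 1 B = 0 → B = 0 := by
    intro B h0 h1
    apply Subtype.ext
    ext i j
    fin_cases i
    · exact congrFun h0 j
    · exact congrFun h1 j
  let fm : (i j : Fin 2) → P →ₗ[ℝ] P →ₗ[ℝ] ℝ := fun i j => LinearMap.mk₂ ℝ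
    (fun B C => ρ i B ⬝ᵥ ρ j C)
    (fun B B' C => by rw [map_add, add_dotProduct])
    (fun c B C => by rw [map_smul, smul_dotProduct])
    (fun B C C' => by rw [map_add, dotProduct_add])
    (fun c B C => by rw [map_smul, dotProduct_smul])
  have hfm : ∀ i j B C, fm i j B C = ρ i B ⬝ᵥ ρ j C := fun _ _ _ _ => rfl
  let N : P →ₗ[ℝ] P →ₗ[ℝ] ℝ := fm 0 0 + fm 1 1
  let b₁ : P →ₗ[ℝ] P →ₗ[ℝ] ℝ := fm 0 0 - fm 1 1
  let b₂ : P →ₗ[ℝ] P →ₗ[ℝ] ℝ := fm 0 1 + fm 1 0
  have eN : ∀ B C, N B C = ρ 0 B ⬝ᵥ ρ 0 C + ρ 1 B ⬝ᵥ ρ 1 C := fun _ _ => rfl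
  have eb₁ : ∀ B C, b₁ B C = ρ 0 B ⬝ᵥ ρ 0 C - ρ 1 B ⬝ᵥ ρ 1 C := fun _ _ => rfl
  have eb₂ : ∀ B C, b₂ B C = ρ 0 B ⬝ᵥ ρ 1 C + ρ 1 B ⬝ᵥ ρ 0 C := fun _ _ => rfl
  have hpos : ∀ B, B ≠ 0 → 0 < N B B := by
    intro B hB
    rw [eN]
    have h0 := dot_self_nonneg (ρ 0 B)
    have h1 := dot_self_nonneg (ρ 1 B)
    rcases h0.eq_or_lt with h | h
    · rcases h1.eq_or_lt with h' | h'
      · exact absurd (hρ B (dotProduct_self_eq_zero.1 h.symm) (dotProduct_self_eq_zero.1 h'.symm)) hB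
      · linarith
    · linarith
  have hq : ∀ B, b₁ B B ^ 2 + b₂ B B ^ 2 = (1 - 4 * δ) * N B B ^ 2 := by
    intro B
    have h := hδ B B.2
    rw [det_fin_two, trace_fin_two] at h
    have e00 : ((B : Matrix (Fin 2) (Fin n) ℝ) * (B : Matrix (Fin 2) (Fin n) ℝ)ᵀ) 0 0 =
      ρ 0 B ⬝ᵥ ρ 0 B := rfl
    have e01 : ((B : Matrix (Fin 2) (Fin n) ℝ) * (B : Matrix (Fin 2) (Fin n) ℝ)ᵀ) 0 1 =
      ρ 0 B ⬝ᵥ ρ 1 B := rfl
    have e10 : ((B : Matrix (Fin 2) (Fin n) ℝ) * (B : Matrix (Fin 2) (Fin n) ℝ)ᵀ) 1 0 =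
      ρ 1 B ⬝ᵥ ρ 0 B := rfl
    have e11 : ((B : Matrix (Fin 2) (Fin n) ℝ) * (B : Matrix (Fin 2) (Fin n) ℝ)ᵀ) 1 1 =
      ρ 1 B ⬝ᵥ ρ 1 B := rfl
    rw [e00, e01, e10, e11, dotProduct_comm (ρ 1 B) (ρ 0 B)] at h
    rw [eb₁, eb₂, eN, dotProduct_comm (ρ 1 B) (ρ 0 B)]
    linear_combination -4 * h
  have hfin : ∀ f : P →ₗ[ℝ] (Fin n → ℝ), Function.Injective f → Function.Surjective f := by
    intro f hf
    have h1 := LinearMap.finrank_le_finrank_of_injective hf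
    rw [finrank_fin_fun] at h1
    exact (LinearMap.injective_iff_surjective_of_finrank_eq_finrank
      (by rw [finrank_fin_fun]; omega)).1 hf
  obtain ⟨B₀, hB₀, -, -⟩ := exists_ker2 h3 0 0
  have hκ : 0 ≤ 1 - 4 * δ := by
    have h1 := hq B₀
    have h2 := pow_pos (hpos B₀ hB₀) 2
    by_contra h4
    push Not at h4
    nlinarith [sq_nonneg (b₁ B₀ B₀), sq_nonneg (b₂ B₀ B₀)]
  rcases hκ.eq_or_lt with hκ0 | hκ0
  · -- the complex case
    right
    have h1 : ∀ B, ρ 0 B ⬝ᵥ ρ 0 B = ρ 1 B ⬝ᵥ ρ 1 B ∧ ρ 0 B ⬝ᵥ ρ 1 B = 0 := by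
      intro B
      have h := hq B
      rw [← hκ0, zero_mul] at h
      have h4 : b₁ B B = 0 := by nlinarith [sq_nonneg (b₁ B B), sq_nonneg (b₂ B B)]
      have h5 : b₂ B B = 0 := by nlinarith [sq_nonneg (b₁ B B), sq_nonneg (b₂ B B)]
      rw [eb₁] at h4
      rw [eb₂, dotProduct_comm (ρ 1 B) (ρ 0 B)] at h5
      constructor <;> linarith
    have hinj : Function.Injective (ρ 0) := by
      rw [injective_iff_map_eq_zero]
      intro B hB
      refine hρ B hB ?_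
      have h := (h1 B).1
      rw [hB, dotProduct_zero] at h
      exact dotProduct_self_eq_zero.1 h.symm
    let e := LinearEquiv.ofBijective (ρ 0) ⟨hinj, hfin _ hinj⟩
    have he : ∀ B, e B = ρ 0 B := fun _ => rfl
    let J : Matrix (Fin n) (Fin n) ℝ := LinearMap.toMatrix' ((ρ 1) ∘ₗ e.symm.toLinearMap)
    have hJ : ∀ x, J *ᵥ x = ρ 1 (e.symm x) := fun x => LinearMap.toMatrix'_mulVec _ _
    have hJ1 : ∀ B, J *ᵥ ρ 0 B = ρ 1 B := by
      intro B
      rw [hJ, ← he, e.symm_apply_apply]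
    obtain ⟨k1, k2⟩ := complex_structure (J := J)
      (fun x => by
        obtain ⟨B, rfl⟩ := hfin _ hinj x
        rw [hJ1]
        exact (h1 B).2)
      (fun x => by
        obtain ⟨B, rfl⟩ := hfin _ hinj x
        rw [hJ1]
        exact (h1 B).1.symm)
    refine ⟨J, k1, k2, fun B => ⟨fun hB => ⟨B 0, ?_⟩, ?_⟩⟩
    · have h := hJ1 ⟨B, hB⟩
      have h' : J *ᵥ B 0 = B 1 := h
      rw [h']
      ext i j
      fin_cases i <;> rfl
    · rintro ⟨x, rfl⟩
      obtain ⟨B, rfl⟩ := hfin _ hinj x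
      rw [hJ1]
      have : Matrix.of ![ρ 0 B, ρ 1 B] = (B : Matrix (Fin 2) (Fin n) ℝ) := by
        ext i j
        fin_cases i <;> rfl
      rw [this]
      exact B.2
  · -- rotate the rows
    left
    set c := Real.sqrt (1 - 4 * δ) with hc
    have hc0 : 0 < c := Real.sqrt_pos.2 hκ0
    have hcsq : c ^ 2 = 1 - 4 * δ := Real.sq_sqrt hκ0.le
    obtain ⟨α, β, hαβ, hform⟩ := forms (N := N) (b₁ := b₁) (b₂ := b₂) (c := c) h3
      (fun x y => by rw [eN, eN, dotProduct_comm (ρ 0 x), dotProduct_comm (ρ 1 x)])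
      (fun x y => by rw [eb₁, eb₁, dotProduct_comm (ρ 0 x), dotProduct_comm (ρ 1 x)])
      (fun x y => by
        rw [eb₂, eb₂, dotProduct_comm (ρ 0 x), dotProduct_comm (ρ 1 x)]
        ring)
      hpos hc0 (fun x => by rw [hcsq]; exact hq x)
    obtain ⟨s, t, hst, hα, hβ⟩ := exists_half hαβ
    let r₁ : P →ₗ[ℝ] (Fin n → ℝ) := s • ρ 0 + t • ρ 1
    let r₂ : P →ₗ[ℝ] (Fin n → ℝ) := (-t) • ρ 0 + s • ρ 1
    have er₁ : ∀ B, r₁ B = s • ρ 0 B + t • ρ 1 B := fun _ => rfl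
    have er₂ : ∀ B, r₂ B = (-t) • ρ 0 B + s • ρ 1 B := fun _ => rfl
    have e0 : ∀ B, ρ 0 B = s • r₁ B - t • r₂ B := by
      intro B
      rw [er₁, er₂]
      ext k
      simp only [Pi.sub_apply, Pi.add_apply, Pi.smul_apply, smul_eq_mul]
      linear_combination (-(ρ 0 B k)) * hst
    have e1 : ∀ B, ρ 1 B = t • r₁ B + s • r₂ B := by
      intro B
      rw [er₁, er₂]
      ext k
      simp only [Pi.add_apply, Pi.smul_apply, smul_eq_mul]
      linear_combination (-(ρ 1 B k)) * hst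
    have f1 : ∀ B, r₁ B ⬝ᵥ r₂ B = 0 := by
      intro B
      have k1 := (hform B).1
      have k2 := (hform B).2
      rw [eb₁, ← hα] at k1
      rw [eb₂, ← hβ, dotProduct_comm (ρ 1 B) (ρ 0 B)] at k2
      rw [er₁, er₂]
      simp only [add_dotProduct, dotProduct_add, smul_dotProduct, dotProduct_smul, smul_eq_mul]
      rw [dotProduct_comm (ρ 1 B) (ρ 0 B)]
      linear_combination (-(s * t)) * k1 + ((s ^ 2 - t ^ 2) / 2) * k2
    have f2 : ∀ B, r₁ B ⬝ᵥ r₁ B - r₂ B ⬝ᵥ r₂ B = c * N B B := by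
      intro B
      have k1 := (hform B).1
      have k2 := (hform B).2
      rw [eb₁, ← hα] at k1
      rw [eb₂, ← hβ, dotProduct_comm (ρ 1 B) (ρ 0 B)] at k2
      rw [er₁, er₂]
      simp only [add_dotProduct, dotProduct_add, smul_dotProduct, dotProduct_smul, smul_eq_mul]
      rw [dotProduct_comm (ρ 1 B) (ρ 0 B)]
      linear_combination (s ^ 2 - t ^ 2) * k1 + (2 * s * t) * k2 +
        c * N B B * (s ^ 2 + t ^ 2 + 1) * hst
    have f3 : ∀ B, r₁ B ⬝ᵥ r₁ B + r₂ B ⬝ᵥ r₂ B = N B B := by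
      intro B
      rw [eN, er₁, er₂]
      simp only [add_dotProduct, dotProduct_add, smul_dotProduct, dotProduct_smul, smul_eq_mul]
      rw [dotProduct_comm (ρ 1 B) (ρ 0 B)]
      linear_combination (ρ 0 B ⬝ᵥ ρ 0 B + ρ 1 B ⬝ᵥ ρ 1 B) * hst
    have hinj : Function.Injective r₁ := by
      rw [injective_iff_map_eq_zero]
      intro B hB
      by_contra h
      have k1 := f2 B
      have k2 := f3 B
      have k3 := hpos B h
      have k4 := dot_self_nonneg (r₂ B)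
      rw [hB, dotProduct_zero] at k1 k2
      nlinarith
    have hc1 : c ≤ 1 := by
      have k1 := f2 B₀
      have k2 := f3 B₀
      have k3 := hpos B₀ hB₀
      have k4 := dot_self_nonneg (r₂ B₀)
      by_contra h
      push Not at h
      nlinarith
    rcases hc1.eq_or_lt with hc1 | hc1
    · -- rank one
      have k1 : ∀ B, r₂ B = 0 := by
        intro B
        have k1 := f2 B
        have k2 := f3 B
        rw [hc1] at k1
        apply dotProduct_self_eq_zero.1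
        linarith
      refine ⟨![s, t], ?_, fun B => ⟨fun hB => ⟨r₁ ⟨B, hB⟩, ?_⟩, ?_⟩⟩
      · intro h
        have k2 : s = 0 := congrFun h 0
        have k3 : t = 0 := congrFun h 1
        rw [k2, k3] at hst
        norm_num at hst
      · have k2 := e0 ⟨B, hB⟩
        have k3 := e1 ⟨B, hB⟩
        rw [k1, smul_zero] at k2 k3
        rw [sub_zero] at k2
        rw [add_zero] at k3
        ext i j
        fin_cases i
        · exact congrFun k2 j
        · exact congrFun k3 j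
      · rintro ⟨x, rfl⟩
        obtain ⟨B, rfl⟩ := hfin _ hinj x
        have k2 := e0 B
        have k3 := e1 B
        rw [k1, smul_zero] at k2 k3
        rw [sub_zero] at k2
        rw [add_zero] at k3
        have : vecMulVec ![s, t] (r₁ B) = (B : Matrix (Fin 2) (Fin n) ℝ) := by
          ext i j
          fin_cases i
          · exact (congrFun k2 j).symm
          · exact (congrFun k3 j).symm
        rw [this]
        exact B.2
    · -- a contradiction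
      exfalso
      let φ : P →ₗ[ℝ] ℝ :=
        { toFun := fun C => r₁ B₀ ⬝ᵥ r₁ C
          map_add' := fun C C' => by rw [map_add, dotProduct_add]
          map_smul' := fun a C => by rw [map_smul, dotProduct_smul]; rfl }
      let ψ : P →ₗ[ℝ] ℝ :=
        { toFun := fun C => r₂ B₀ ⬝ᵥ r₁ C
          map_add' := fun C C' => by rw [map_add, dotProduct_add]
          map_smul' := fun a C => by rw [map_smul, dotProduct_smul]; rfl }
      obtain ⟨C, hC, g11, g21⟩ := exists_ker2 h3 φ ψ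
      have g11 : r₁ B₀ ⬝ᵥ r₁ C = 0 := g11
      have g21 : r₂ B₀ ⬝ᵥ r₁ C = 0 := g21
      have g12 : r₁ B₀ ⬝ᵥ r₂ C = 0 := by
        have h := f1 (B₀ + C)
        rw [map_add, map_add, add_dotProduct, dotProduct_add, dotProduct_add, f1, f1,
          dotProduct_comm (r₁ C) (r₂ B₀), g21] at h
        linarith
      have g22 : r₂ B₀ ⬝ᵥ r₂ C = 0 := by
        have h1 := f2 (B₀ + C)
        have h2 := f3 (B₀ + C)
        have h3 := f2 B₀
        have h4 := f2 C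
        have h5 := f3 B₀
        have h6 := f3 C
        rw [← h2, map_add, map_add, add_dotProduct, dotProduct_add, dotProduct_add, add_dotProduct,
          dotProduct_add, dotProduct_add, dotProduct_comm (r₁ C) (r₁ B₀),
          dotProduct_comm (r₂ C) (r₂ B₀), g11] at h1
        rw [← h5] at h3
        rw [← h6] at h4
        have h7 : (1 + c) * (r₂ B₀ ⬝ᵥ r₂ C) = 0 := by linear_combination (h3 + h4 - h1) / 2
        rcases mul_eq_zero.1 h7 with h | h
        · linarith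
        · exact h
      -- the rows of `B₀` are orthogonal to the rows of `C`
      have hBC : ∀ i j : Fin 2, ρ i B₀ ⬝ᵥ ρ j C = 0 := by
        intro i j
        fin_cases i <;> fin_cases j <;>
        simp only [Fin.zero_eta, Fin.mk_one, e0, e1, add_dotProduct, dotProduct_add,
          sub_dotProduct, dotProduct_sub, smul_dotProduct, dotProduct_smul, smul_eq_mul,
          g11, g12, g21, g22, mul_zero, sub_zero, add_zero]
      have hBC' : (B₀ : Matrix (Fin 2) (Fin n) ℝ) * (C : Matrix (Fin 2) (Fin n) ℝ)ᵀ = 0 := by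
        ext i j
        exact hBC i j
      have hCB' : (C : Matrix (Fin 2) (Fin n) ℝ) * (B₀ : Matrix (Fin 2) (Fin n) ℝ)ᵀ = 0 := by
        have := congrArg transpose hBC'
        rwa [transpose_mul, transpose_transpose, transpose_zero] at this
      have hT := htri B₀ B₀.2 C C.2
      rw [hBC', hCB', Matrix.zero_mul, smul_zero, sub_zero, zero_sub] at hT
      have hS : (B₀ : Matrix (Fin 2) (Fin n) ℝ) * (B₀ : Matrix (Fin 2) (Fin n) ℝ)ᵀ *
          (C : Matrix (Fin 2) (Fin n) ℝ) ∈ P := by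
        have := P.neg_mem hT
        rwa [neg_neg] at this
      set R₁ := r₁ B₀ ⬝ᵥ r₁ B₀ with hR₁
      set R₂ := r₂ B₀ ⬝ᵥ r₂ B₀ with hR₂
      have s00 : ρ 0 B₀ ⬝ᵥ ρ 0 B₀ = s ^ 2 * R₁ + t ^ 2 * R₂ := by
        have h := f1 B₀
        have h' : r₂ B₀ ⬝ᵥ r₁ B₀ = 0 := by rw [dotProduct_comm]; exact h
        rw [e0]
        simp only [sub_dotProduct, dotProduct_sub, smul_dotProduct, dotProduct_smul, smul_eq_mul,
          h, h']
        rw [hR₁, hR₂]
        ring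
      have s01 : ρ 0 B₀ ⬝ᵥ ρ 1 B₀ = s * t * (R₁ - R₂) := by
        have h := f1 B₀
        have h' : r₂ B₀ ⬝ᵥ r₁ B₀ = 0 := by rw [dotProduct_comm]; exact h
        rw [e0, e1]
        simp only [sub_dotProduct, dotProduct_add, smul_dotProduct, dotProduct_smul, smul_eq_mul,
          h, h']
        rw [hR₁, hR₂]
        ring
      have s11 : ρ 1 B₀ ⬝ᵥ ρ 1 B₀ = t ^ 2 * R₁ + s ^ 2 * R₂ := by
        have h := f1 B₀
        have h' : r₂ B₀ ⬝ᵥ r₁ B₀ = 0 := by rw [dotProduct_comm]; exact h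
        rw [e1]
        simp only [add_dotProduct, dotProduct_add, smul_dotProduct, dotProduct_smul, smul_eq_mul,
          h, h']
        rw [hR₁, hR₂]
        ring
      have t0 : ρ 0 ⟨_, hS⟩ = (ρ 0 B₀ ⬝ᵥ ρ 0 B₀) • ρ 0 C + (ρ 0 B₀ ⬝ᵥ ρ 1 B₀) • ρ 1 C := by
        ext k
        show ((B₀ : Matrix (Fin 2) (Fin n) ℝ) * (B₀ : Matrix (Fin 2) (Fin n) ℝ)ᵀ *
          (C : Matrix (Fin 2) (Fin n) ℝ)) 0 k = _
        rw [Matrix.mul_apply, Fin.sum_univ_two]
        rfl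
      have t1 : ρ 1 ⟨_, hS⟩ = (ρ 1 B₀ ⬝ᵥ ρ 0 B₀) • ρ 0 C + (ρ 1 B₀ ⬝ᵥ ρ 1 B₀) • ρ 1 C := by
        ext k
        show ((B₀ : Matrix (Fin 2) (Fin n) ℝ) * (B₀ : Matrix (Fin 2) (Fin n) ℝ)ᵀ *
          (C : Matrix (Fin 2) (Fin n) ℝ)) 1 k = _
        rw [Matrix.mul_apply, Fin.sum_univ_two]
        rfl
      rw [dotProduct_comm (ρ 1 B₀) (ρ 0 B₀)] at t1
      rw [s00, s01] at t0
      rw [s01, s11] at t1
      have u1 : r₁ ⟨_, hS⟩ = R₁ • r₁ C := by
        rw [er₁, t0, t1, er₁]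
        ext k
        simp only [Pi.add_apply, Pi.smul_apply, smul_eq_mul]
        linear_combination (R₁ * (s * ρ 0 C k + t * ρ 1 C k)) * hst
      have u2 : r₂ ⟨_, hS⟩ = R₂ • r₂ C := by
        rw [er₂, t0, t1, er₂]
        ext k
        simp only [Pi.add_apply, Pi.smul_apply, smul_eq_mul]
        linear_combination (R₂ * (-t * ρ 0 C k + s * ρ 1 C k)) * hst
      have u3 : (⟨_, hS⟩ : P) = R₁ • C := hinj (by rw [u1, map_smul])
      rw [u3, map_smul] at u2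
      have u4 : (R₁ - R₂) • r₂ C = 0 := by rw [sub_smul, u2, sub_self]
      have u5 : 0 < R₁ - R₂ := by
        rw [f2 B₀]
        exact mul_pos hc0 (hpos B₀ hB₀)
      have u6 : r₂ C = 0 := (smul_eq_zero.1 u4).resolve_left u5.ne'
      have k1 := f2 C
      have k2 := f3 C
      rw [u6, dotProduct_zero] at k1 k2
      have k3 := hpos C hC
      nlinarith

end Pool.Agent.Helper29.CKP
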