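import Pool.Agent.Helper29.CKP.Bridge

set_option autoImplicit false

/-!
# The groups `O(r, n)`
-/

open NormedSpace Filter Topology Matrix Pool.Agent.Helper17.CKF Pool.Agent.Helper20.CKP

namespace Pool.Agent.Helper29.CKP

/-- The diagonal matrix with `r` entries `1` and `n` entries `-1`. -/
noncomputable def Jm (r n : ℕ) : Matrix (Fin (r + n)) (Fin (r + n)) ℝ :=
  Matrix.diagonal fun i => if (i : ℕ) < r then 1 else -1

theorem Jm_transpose (r n : ℕ) : (Jm r n)ᵀ = Jm r n := diagonal_transpose _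

theorem Jm_mul_self (r n : ℕ) : Jm r n * Jm r n = 1 := by
  rw [Jm, diagonal_mul_diagonal, ← diagonal_one]
  congr 1
  funext i
  split_ifs <;> norm_num

/-- The group `O(r, n)` of the real matrices `g` with `gᵀ J g = J`. -/
noncomputable def Opq (r n : ℕ) : Subgroup (GL (Fin (r + n)) ℝ) where
  carrier := {g | (g : Matrix (Fin (r + n)) (Fin (r + n)) ℝ)ᵀ * Jm r n *
    (g : Matrix (Fin (r + n)) (Fin (r + n)) ℝ) = Jm r n}
  mul_mem' := by
    intro a b ha hb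
    have ha' : (a : Matrix (Fin (r + n)) (Fin (r + n)) ℝ)ᵀ * Jm r n *
      (a : Matrix (Fin (r + n)) (Fin (r + n)) ℝ) = Jm r n := ha
    have hb' : (b : Matrix (Fin (r + n)) (Fin (r + n)) ℝ)ᵀ * Jm r n *
      (b : Matrix (Fin (r + n)) (Fin (r + n)) ℝ) = Jm r n := hb
    show ((a : Matrix (Fin (r + n)) (Fin (r + n)) ℝ) *
      (b : Matrix (Fin (r + n)) (Fin (r + n)) ℝ))ᵀ * Jm r n *
      ((a : Matrix (Fin (r + n)) (Fin (r + n)) ℝ) *
      (b : Matrix (Fin (r + n)) (Fin (r + n)) ℝ)) = Jm r n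
    calc _ = (b : Matrix (Fin (r + n)) (Fin (r + n)) ℝ)ᵀ *
        ((a : Matrix (Fin (r + n)) (Fin (r + n)) ℝ)ᵀ * Jm r n *
        (a : Matrix (Fin (r + n)) (Fin (r + n)) ℝ)) *
        (b : Matrix (Fin (r + n)) (Fin (r + n)) ℝ) := by
          rw [transpose_mul]
          simp only [Matrix.mul_assoc]
      _ = _ := by rw [ha', hb']
  one_mem' := by
    show (1 : Matrix (Fin (r + n)) (Fin (r + n)) ℝ)ᵀ * Jm r n * 1 = Jm r n
    rw [transpose_one, one_mul, mul_one]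
  inv_mem' := by
    intro a ha
    have ha' : (a : Matrix (Fin (r + n)) (Fin (r + n)) ℝ)ᵀ * Jm r n *
      (a : Matrix (Fin (r + n)) (Fin (r + n)) ℝ) = Jm r n := ha
    have h1 : (a : Matrix (Fin (r + n)) (Fin (r + n)) ℝ) *
      ((a⁻¹ : GL (Fin (r + n)) ℝ) : Matrix (Fin (r + n)) (Fin (r + n)) ℝ) = 1 := a.mul_inv
    show ((a⁻¹ : GL (Fin (r + n)) ℝ) : Matrix (Fin (r + n)) (Fin (r + n)) ℝ)ᵀ * Jm r n *
      ((a⁻¹ : GL (Fin (r + n)) ℝ) : Matrix (Fin (r + n)) (Fin (r + n)) ℝ) = Jm r n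
    set A := (a : Matrix (Fin (r + n)) (Fin (r + n)) ℝ)
    set B := ((a⁻¹ : GL (Fin (r + n)) ℝ) : Matrix (Fin (r + n)) (Fin (r + n)) ℝ)
    have h2 : Bᵀ * Aᵀ = 1 := by rw [← transpose_mul, h1, transpose_one]
    calc Bᵀ * Jm r n * B = Bᵀ * (Aᵀ * Jm r n * A) * B := by rw [ha']
      _ = (Bᵀ * Aᵀ) * Jm r n * (A * B) := by simp only [Matrix.mul_assoc]
      _ = Jm r n := by rw [h1, h2, one_mul, mul_one]

variable {r n : ℕ}

theorem mem_Opq {g : GL (Fin (r + n)) ℝ} : g ∈ Opq r n ↔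
    (g : Matrix (Fin (r + n)) (Fin (r + n)) ℝ)ᵀ * Jm r n *
    (g : Matrix (Fin (r + n)) (Fin (r + n)) ℝ) = Jm r n := Iff.rfl

/-- Block matrices. -/
noncomputable def bm (A : Matrix (Fin r) (Fin r) ℝ) (B : Matrix (Fin r) (Fin n) ℝ)
    (C : Matrix (Fin n) (Fin r) ℝ) (D : Matrix (Fin n) (Fin n) ℝ) :
    Matrix (Fin (r + n)) (Fin (r + n)) ℝ :=
  (fromBlocks A B C D).submatrix finSumFinEquiv.symm finSumFinEquiv.symm

theorem bm_mul (A : Matrix (Fin r) (Fin r) ℝ) (B : Matrix (Fin r) (Fin n) ℝ)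
    (C : Matrix (Fin n) (Fin r) ℝ) (D : Matrix (Fin n) (Fin n) ℝ)
    (A' : Matrix (Fin r) (Fin r) ℝ) (B' : Matrix (Fin r) (Fin n) ℝ)
    (C' : Matrix (Fin n) (Fin r) ℝ) (D' : Matrix (Fin n) (Fin n) ℝ) :
    bm A B C D * bm A' B' C' D' =
      bm (A * A' + B * C') (A * B' + B * D') (C * A' + D * C') (C * B' + D * D') := by
  rw [bm, bm, bm, submatrix_mul_equiv, fromBlocks_multiply]

theorem bm_transpose (A : Matrix (Fin r) (Fin r) ℝ) (B : Matrix (Fin r) (Fin n) ℝ)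
    (C : Matrix (Fin n) (Fin r) ℝ) (D : Matrix (Fin n) (Fin n) ℝ) :
    (bm A B C D)ᵀ = bm Aᵀ Cᵀ Bᵀ Dᵀ := by
  rw [bm, bm, transpose_submatrix, fromBlocks_transpose]

theorem bm_inj {A : Matrix (Fin r) (Fin r) ℝ} {B : Matrix (Fin r) (Fin n) ℝ}
    {C : Matrix (Fin n) (Fin r) ℝ} {D : Matrix (Fin n) (Fin n) ℝ}
    {A' : Matrix (Fin r) (Fin r) ℝ} {B' : Matrix (Fin r) (Fin n) ℝ}
    {C' : Matrix (Fin n) (Fin r) ℝ} {D' : Matrix (Fin n) (Fin n) ℝ}
    (h : bm A B C D = bm A' B' C' D') : A = A' ∧ B = B' ∧ C = C' ∧ D = D' := by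
  have h1 : fromBlocks A B C D = fromBlocks A' B' C' D' := by
    have h2 := congrArg (fun Z => Z.submatrix finSumFinEquiv finSumFinEquiv) h
    simpa only [bm, submatrix_submatrix, Equiv.symm_comp_self, submatrix_id_id] using h2
  exact fromBlocks_inj.1 h1

theorem exists_bm (Z : Matrix (Fin (r + n)) (Fin (r + n)) ℝ) : ∃ A B C D, Z = bm A B C D := by
  refine ⟨(Z.submatrix finSumFinEquiv finSumFinEquiv).toBlocks₁₁,
    (Z.submatrix finSumFinEquiv finSumFinEquiv).toBlocks₁₂,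
    (Z.submatrix finSumFinEquiv finSumFinEquiv).toBlocks₂₁,
    (Z.submatrix finSumFinEquiv finSumFinEquiv).toBlocks₂₂, ?_⟩
  rw [bm, fromBlocks_toBlocks, submatrix_submatrix, Equiv.self_comp_symm, submatrix_id_id]

theorem bm_neg (A : Matrix (Fin r) (Fin r) ℝ) (B : Matrix (Fin r) (Fin n) ℝ)
    (C : Matrix (Fin n) (Fin r) ℝ) (D : Matrix (Fin n) (Fin n) ℝ) :
    -bm A B C D = bm (-A) (-B) (-C) (-D) := by
  rw [bm, bm, ← fromBlocks_neg]
  rfl

theorem bm_one : bm (1 : Matrix (Fin r) (Fin r) ℝ) 0 0 (1 : Matrix (Fin n) (Fin n) ℝ) = 1 := by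
  rw [bm, fromBlocks_one, submatrix_one_equiv]

theorem bm_trace (A : Matrix (Fin r) (Fin r) ℝ) (B : Matrix (Fin r) (Fin n) ℝ)
    (C : Matrix (Fin n) (Fin r) ℝ) (D : Matrix (Fin n) (Fin n) ℝ) :
    (bm A B C D).trace = A.trace + D.trace := by
  have h1 : (bm A B C D).trace = (fromBlocks A B C D).trace :=
    Fintype.sum_equiv finSumFinEquiv.symm _ _ fun _ => rfl
  rw [h1]
  simp [Matrix.trace, Fintype.sum_sum_type]

theorem Jm_eq : Jm r n = bm 1 0 0 (-1) := by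
  have h1 : fromBlocks (1 : Matrix (Fin r) (Fin r) ℝ) 0 0 (-1 : Matrix (Fin n) (Fin n) ℝ) =
      diagonal (Sum.elim (fun _ => 1) (fun _ => -1)) := by
    ext i j
    rcases i with i | i <;> rcases j with j | j <;>
      simp [Matrix.one_apply, diagonal_apply]
    split_ifs <;> simp
  rw [bm, h1, Jm, submatrix_diagonal_equiv]
  congr 1
  funext i
  obtain ⟨k, rfl⟩ := finSumFinEquiv.surjective i
  rw [Function.comp_apply, Equiv.symm_apply_apply]
  cases k with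
  | inl k => simp
  | inr k => simp

theorem eq_zero_of_eq_neg {m k : ℕ} {A : Matrix (Fin m) (Fin k) ℝ} (h : A = -A) : A = 0 := by
  ext i j
  have := congrFun (congrFun h i) j
  rw [Matrix.neg_apply] at this
  rw [Matrix.zero_apply]
  linarith

/-- The matrix `(0, B; Bᵀ, 0)`. -/
noncomputable def pm (r n : ℕ) :
    Matrix (Fin r) (Fin n) ℝ →ₗ[ℝ] Matrix (Fin (r + n)) (Fin (r + n)) ℝ where
  toFun B := bm 0 B Bᵀ 0
  map_add' B B' := by
    ext i j
    obtain ⟨i, rfl⟩ := finSumFinEquiv.surjective i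
    obtain ⟨j, rfl⟩ := finSumFinEquiv.surjective j
    rcases i with i | i <;> rcases j with j | j <;> simp [bm, -finSumFinEquiv_apply_left,
      -finSumFinEquiv_apply_right]
  map_smul' c B := by
    ext i j
    obtain ⟨i, rfl⟩ := finSumFinEquiv.surjective i
    obtain ⟨j, rfl⟩ := finSumFinEquiv.surjective j
    rcases i with i | i <;> rcases j with j | j <;> simp [bm, -finSumFinEquiv_apply_left,
      -finSumFinEquiv_apply_right]

theorem pm_apply (B : Matrix (Fin r) (Fin n) ℝ) : pm r n B = bm 0 B Bᵀ 0 := rfl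

theorem pm_inj {B B' : Matrix (Fin r) (Fin n) ℝ} (h : pm r n B = pm r n B') : B = B' :=
  (bm_inj h).2.1

theorem pm_transpose (B : Matrix (Fin r) (Fin n) ℝ) : (pm r n B)ᵀ = pm r n B := by
  rw [pm_apply, bm_transpose, transpose_zero, transpose_zero, transpose_transpose]

theorem pm_trace (B B' : Matrix (Fin r) (Fin n) ℝ) :
    (pm r n B * pm r n B').trace = 2 * (B * B'ᵀ).trace := by
  rw [pm_apply, pm_apply, bm_mul, bm_trace, zero_mul, zero_mul, zero_add, add_zero,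
    ← trace_transpose (Bᵀ * B'), transpose_mul, transpose_transpose, trace_mul_comm B'ᵀ B]
  ring

theorem anti_iff {X : Matrix (Fin (r + n)) (Fin (r + n)) ℝ} (hX : Xᵀ = X) :
    Jm r n * X * Jm r n = -X ↔ ∃ B, X = pm r n B := by
  constructor
  · intro h
    obtain ⟨A, B, C, D, rfl⟩ := exists_bm X
    rw [Jm_eq, bm_mul, bm_mul, bm_neg] at h
    rw [bm_transpose] at hX
    obtain ⟨h1, -, -, h2⟩ := bm_inj h
    obtain ⟨-, h3, -, -⟩ := bm_inj hX
    have hA : A = 0 := eq_zero_of_eq_neg (by simpa using h1)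
    have hD : D = 0 := eq_zero_of_eq_neg (by simpa using h2)
    refine ⟨B, ?_⟩
    rw [pm_apply, hA, hD, ← h3, transpose_transpose]
  · rintro ⟨B, rfl⟩
    rw [pm_apply, Jm_eq, bm_mul, bm_mul, bm_neg]
    simp

theorem expGL_mem_opq {X : Matrix (Fin (r + n)) (Fin (r + n)) ℝ} (hX : Xᵀ = X) :
    expGL X ∈ Opq r n ↔ Jm r n * X * Jm r n = -X := by
  have hJ : Jm r n * Jm r n = 1 := Jm_mul_self r n
  have hJu : IsUnit (Jm r n) := ⟨⟨Jm r n, Jm r n, hJ, hJ⟩, rfl⟩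
  have hJi : (Jm r n)⁻¹ = Jm r n := Matrix.inv_eq_left_inv hJ
  have h1 : exp (Jm r n * X * Jm r n) = Jm r n * exp X * Jm r n := by
    have := Matrix.exp_conj (Jm r n) X hJu
    rwa [hJi] at this
  have h2 : exp X * exp (-X) = 1 := by
    rw [← Matrix.exp_add_of_commute _ _ (Commute.refl X).neg_right, add_neg_cancel, exp_zero]
  rw [mem_Opq, expGL_val, ← Matrix.exp_transpose, hX]
  constructor
  · intro h
    have h3 : exp (Jm r n * X * Jm r n) = exp (-X) := by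
      rw [h1]
      calc Jm r n * exp X * Jm r n = Jm r n * exp X * Jm r n * (exp X * exp (-X)) := by
            rw [h2, mul_one]
        _ = Jm r n * (exp X * Jm r n * exp X) * exp (-X) := by simp only [Matrix.mul_assoc]
        _ = exp (-X) := by rw [h, hJ, one_mul]
    refine exp_inj ?_ ?_ h3
    · rw [transpose_mul, transpose_mul, Jm_transpose, hX, Matrix.mul_assoc]
    · rw [transpose_neg, hX]
  · intro h
    rw [h] at h1
    calc exp X * Jm r n * exp X = (Jm r n * Jm r n) * exp X * Jm r n * exp X := by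
          rw [hJ, one_mul]
      _ = Jm r n * (Jm r n * exp X * Jm r n) * exp X := by simp only [Matrix.mul_assoc]
      _ = Jm r n * (exp (-X) * exp X) := by rw [← h1, Matrix.mul_assoc]
      _ = Jm r n := by
          rw [← Matrix.exp_add_of_commute _ _ (Commute.refl X).neg_left, neg_add_cancel, exp_zero,
            mul_one]

theorem opq_transpose {g : GL (Fin (r + n)) ℝ} (hg : g ∈ Opq r n) :
    (g : Matrix (Fin (r + n)) (Fin (r + n)) ℝ) * Jm r n *
      (g : Matrix (Fin (r + n)) (Fin (r + n)) ℝ)ᵀ = Jm r n := by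
  rw [mem_Opq] at hg
  set A := (g : Matrix (Fin (r + n)) (Fin (r + n)) ℝ)
  have hJ : Jm r n * Jm r n = 1 := Jm_mul_self r n
  have h1 : (Jm r n * Aᵀ * Jm r n) * A = 1 := by
    rw [Matrix.mul_assoc, Matrix.mul_assoc, ← Matrix.mul_assoc Aᵀ, hg, hJ]
  have h2 : A * (Jm r n * Aᵀ * Jm r n) = 1 := mul_eq_one_comm.1 h1
  calc A * Jm r n * Aᵀ = A * (Jm r n * Aᵀ * Jm r n) * Jm r n := by
        simp only [Matrix.mul_assoc]
        rw [hJ, mul_one]
    _ = Jm r n := by rw [h2, one_mul]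

/-- `O(r, n)` is reductive. -/
theorem isReductive_opq (r n : ℕ) : IsReductive (Opq r n) where
  closed := isClosed_eq ((Units.continuous_val.matrix_transpose.mul continuous_const).mul
    Units.continuous_val) continuous_const
  transpose := by
    intro g hg
    have h1 := opq_transpose hg
    have h2 : (g : Matrix (Fin (r + n)) (Fin (r + n)) ℝ)ᵀ *
        ((g⁻¹ : GL (Fin (r + n)) ℝ) : Matrix (Fin (r + n)) (Fin (r + n)) ℝ)ᵀ = 1 := by
      rw [← transpose_mul]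
      exact (congrArg transpose g.inv_mul).trans transpose_one
    have h3 := mul_eq_one_comm.1 h2
    refine ⟨⟨(g : Matrix (Fin (r + n)) (Fin (r + n)) ℝ)ᵀ, _, h2, h3⟩, ?_, rfl⟩
    rw [mem_Opq]
    show (g : Matrix (Fin (r + n)) (Fin (r + n)) ℝ)ᵀᵀ * Jm r n *
      (g : Matrix (Fin (r + n)) (Fin (r + n)) ℝ)ᵀ = Jm r n
    rw [transpose_transpose]
    exact h1
  power := by
    intro X hX h t
    rw [expGL_mem_opq hX] at h
    rw [expGL_mem_opq (by rw [transpose_smul, hX]), mul_smul_comm, smul_mul_assoc, h, smul_neg]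

theorem mem_pSpace_opq {X : Matrix (Fin (r + n)) (Fin (r + n)) ℝ} :
    X ∈ pSpace (Opq r n) ↔ ∃ B, X = pm r n B := by
  rw [mem_pSpace (isReductive_opq r n)]
  constructor
  · rintro ⟨h1, h2⟩
    exact (anti_iff h1).1 ((expGL_mem_opq h1).1 h2)
  · rintro ⟨B, rfl⟩
    have h1 := pm_transpose B
    exact ⟨h1, (expGL_mem_opq h1).2 ((anti_iff h1).2 ⟨B, rfl⟩)⟩

/-- The group `O(r) × O(n)` acts on the matrices `B`. -/
theorem conj_opq {U : Matrix (Fin r) (Fin r) ℝ} {W : Matrix (Fin n) (Fin n) ℝ} (hU : U * Uᵀ = 1)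
    (hW : W * Wᵀ = 1) : ∃ g ∈ Opq r n, (g : Matrix (Fin (r + n)) (Fin (r + n)) ℝ) *
      (g : Matrix (Fin (r + n)) (Fin (r + n)) ℝ)ᵀ = 1 ∧
      ∀ B, (g : Matrix (Fin (r + n)) (Fin (r + n)) ℝ) * pm r n B *
        (g : Matrix (Fin (r + n)) (Fin (r + n)) ℝ)ᵀ = pm r n (U * B * Wᵀ) := by
  have hU' : Uᵀ * U = 1 := mul_eq_one_comm.1 hU
  have hW' : Wᵀ * W = 1 := mul_eq_one_comm.1 hW
  have h1 : bm U 0 0 W * (bm U 0 0 W)ᵀ = 1 := by
    rw [bm_transpose, bm_mul, ← bm_one]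
    simp [hU, hW]
  have h2 : (bm U 0 0 W)ᵀ * bm U 0 0 W = 1 := mul_eq_one_comm.1 h1
  refine ⟨⟨bm U 0 0 W, (bm U 0 0 W)ᵀ, h1, h2⟩, ?_, h1, fun B => ?_⟩
  · rw [mem_Opq]
    show (bm U 0 0 W)ᵀ * Jm r n * bm U 0 0 W = Jm r n
    rw [Jm_eq, bm_transpose, bm_mul, bm_mul]
    simp [hU', hW']
  · show bm U 0 0 W * pm r n B * (bm U 0 0 W)ᵀ = _
    rw [pm_apply, pm_apply, bm_transpose, bm_mul, bm_mul]
    simp [Matrix.mul_assoc]

/-- Every orthogonal element of `O(r, n)` is in `O(r) × O(n)`. -/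
theorem conj_opq' {g : GL (Fin (r + n)) ℝ} (hg : g ∈ Opq r n)
    (ho : (g : Matrix (Fin (r + n)) (Fin (r + n)) ℝ) *
      (g : Matrix (Fin (r + n)) (Fin (r + n)) ℝ)ᵀ = 1) :
    ∃ (U : Matrix (Fin r) (Fin r) ℝ) (W : Matrix (Fin n) (Fin n) ℝ), U * Uᵀ = 1 ∧ W * Wᵀ = 1 ∧
      ∀ B, (g : Matrix (Fin (r + n)) (Fin (r + n)) ℝ) * pm r n B *
        (g : Matrix (Fin (r + n)) (Fin (r + n)) ℝ)ᵀ = pm r n (U * B * Wᵀ) := by
  rw [mem_Opq] at hg
  obtain ⟨A, B, C, D, e⟩ := exists_bm (g : Matrix (Fin (r + n)) (Fin (r + n)) ℝ)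
  rw [e] at hg ho ⊢
  have h1 : Jm r n * bm A B C D = bm A B C D * Jm r n := by
    calc Jm r n * bm A B C D = (bm A B C D * (bm A B C D)ᵀ) * Jm r n * bm A B C D := by
          rw [ho, one_mul]
      _ = bm A B C D * ((bm A B C D)ᵀ * Jm r n * bm A B C D) := by simp only [Matrix.mul_assoc]
      _ = _ := by rw [hg]
  rw [Jm_eq, bm_mul, bm_mul] at h1
  obtain ⟨-, h2, h3, -⟩ := bm_inj h1
  have hB : B = 0 := eq_zero_of_eq_neg (by simpa using h2)
  have hC : C = 0 := eq_zero_of_eq_neg (by simpa using h3.symm)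
  subst hB hC
  rw [bm_transpose, bm_mul, ← bm_one] at ho
  obtain ⟨h4, -, -, h5⟩ := bm_inj ho
  refine ⟨A, D, by simpa using h4, by simpa using h5, fun B => ?_⟩
  rw [pm_apply, pm_apply, bm_transpose, bm_mul, bm_mul]
  simp [Matrix.mul_assoc]

end Pool.Agent.Helper29.CKP
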