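import Pool.Agent.Helper29.CKP.RankK
import Pool.Agent.Helper17.CKF.RO5
import Pool.Agent.Helper40.CK.GramConst

set_option autoImplicit false

/-!
# The real form of rectangular matrices
-/

open Matrix Module Pool.Agent.Helper20.CKP

namespace Pool.Agent.Helper29.CKP

section Rect
variable {K : Type} [RCLike K] {r n s : ℕ}

/-- The real matrix `(re Z, -im Z; im Z, re Z)` of a rectangular matrix `Z`. -/
noncomputable def rr (Z : Matrix (Fin r) (Fin n) K) : Matrix (Fin (r + r)) (Fin (n + n)) ℝ :=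
  (fromBlocks (Z.map RCLike.re) (-Z.map RCLike.im) (Z.map RCLike.im)
    (Z.map RCLike.re)).submatrix finSumFinEquiv.symm finSumFinEquiv.symm

theorem rr_mul (Z : Matrix (Fin r) (Fin n) K) (W : Matrix (Fin n) (Fin s) K) :
    rr (Z * W) = rr Z * rr W := by
  rw [rr, rr, rr, submatrix_mul_equiv, fromBlocks_multiply]
  congr 2
  · ext i j
    simp [Matrix.mul_apply, sub_eq_add_neg, Finset.sum_add_distrib]
  · ext i j
    simp [Matrix.mul_apply, Finset.sum_add_distrib]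
    ring
  · ext i j
    simp [Matrix.mul_apply, Finset.sum_add_distrib]
    ring
  · ext i j
    simp [Matrix.mul_apply, Finset.sum_add_distrib, sub_eq_add_neg]
    ring

theorem rr_transpose (Z : Matrix (Fin r) (Fin n) K) : (rr Z)ᵀ = rr Zᴴ := by
  rw [rr, rr, transpose_submatrix, fromBlocks_transpose]
  congr 2 <;> ext i j <;> simp

theorem rr_one : rr (1 : Matrix (Fin r) (Fin r) K) = 1 := by
  rw [rr, ← submatrix_one_equiv (finSumFinEquiv (m := r) (n := r)).symm, ← fromBlocks_one]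
  congr 2 <;> ext i j <;> by_cases h : i = j <;> simp [Matrix.one_apply, h]

theorem rr_add (Z W : Matrix (Fin r) (Fin n) K) : rr (Z + W) = rr Z + rr W := by
  have h1 : fromBlocks ((Z + W).map RCLike.re) (-(Z + W).map RCLike.im) ((Z + W).map RCLike.im)
      ((Z + W).map RCLike.re) = fromBlocks (Z.map RCLike.re) (-Z.map RCLike.im)
        (Z.map RCLike.im) (Z.map RCLike.re) + fromBlocks (W.map RCLike.re) (-W.map RCLike.im)
        (W.map RCLike.im) (W.map (RCLike.re : K → ℝ)) := by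
    rw [fromBlocks_add]
    congr 1 <;> ext i j <;> simp
    ring
  rw [rr, h1]
  rfl

theorem rr_smul (c : ℝ) (Z : Matrix (Fin r) (Fin n) K) : rr (c • Z) = c • rr Z := by
  have h1 : fromBlocks ((c • Z).map RCLike.re) (-(c • Z).map RCLike.im) ((c • Z).map RCLike.im)
      ((c • Z).map RCLike.re) = c • fromBlocks (Z.map RCLike.re) (-Z.map RCLike.im)
        (Z.map RCLike.im) (Z.map (RCLike.re : K → ℝ)) := by
    rw [fromBlocks_smul]
    congr 1 <;> ext i j <;> simp [RCLike.smul_re, RCLike.smul_im]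
  rw [rr, h1]
  rfl

/-- The real form as a linear map. -/
noncomputable def rrL (K : Type) [RCLike K] (r n : ℕ) :
    Matrix (Fin r) (Fin n) K →ₗ[ℝ] Matrix (Fin (r + r)) (Fin (n + n)) ℝ where
  toFun := rr
  map_add' := rr_add
  map_smul' := rr_smul

theorem rr_sub (Z W : Matrix (Fin r) (Fin n) K) : rr (Z - W) = rr Z - rr W :=
  map_sub (rrL K r n) Z W

theorem rr_inj {Z W : Matrix (Fin r) (Fin n) K} (h : rr Z = rr W) : Z = W := by
  have h1 := congrArg (fun Z : Matrix (Fin (r + r)) (Fin (n + n)) ℝ =>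
    Z.submatrix finSumFinEquiv finSumFinEquiv) h
  simp only [rr, submatrix_submatrix, Equiv.symm_comp_self, submatrix_id_id] at h1
  obtain ⟨h2, -, h3, -⟩ := fromBlocks_inj.1 h1
  ext i j
  exact RCLike.ext (congrFun (congrFun h2 i) j) (congrFun (congrFun h3 i) j)

theorem rr_trace (Z : Matrix (Fin r) (Fin r) K) : (rr Z).trace = 2 * RCLike.re Z.trace := by
  have h1 : (rr Z).trace = (fromBlocks (Z.map RCLike.re) (-Z.map RCLike.im) (Z.map RCLike.im)
      (Z.map RCLike.re)).trace :=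
    Fintype.sum_equiv finSumFinEquiv.symm _ _ fun _ => rfl
  rw [h1]
  simp [Matrix.trace, Fintype.sum_sum_type]
  ring

/-- The real form of a vector. -/
noncomputable def rv (K : Type) [RCLike K] (n : ℕ) : (Fin n → K) →ₗ[ℝ] (Fin (n + n) → ℝ) where
  toFun v i := Sum.elim (fun j => RCLike.re (v j)) (fun j => RCLike.im (v j))
    (finSumFinEquiv.symm i)
  map_add' v w := by
    funext i
    rcases h : finSumFinEquiv.symm i with j | j <;> simp [h]
  map_smul' c v := by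
    funext i
    rcases h : finSumFinEquiv.symm i with j | j <;> simp [h, RCLike.smul_re, RCLike.smul_im]

theorem rv_inj : Function.Injective (rv K n) := by
  intro v w h
  funext j
  have h1 := congrFun h (finSumFinEquiv (Sum.inl j))
  have h2 := congrFun h (finSumFinEquiv (Sum.inr j))
  simp only [rv, LinearMap.coe_mk, AddHom.coe_mk, Equiv.symm_apply_apply, Sum.elim_inl,
    Sum.elim_inr] at h1 h2
  exact RCLike.ext h1 h2

theorem rv_surj (hI : RCLike.im (RCLike.I : K) = 1) : Function.Surjective (rv K n) := by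
  intro x
  refine ⟨fun j => ((x (finSumFinEquiv (Sum.inl j)) : ℝ) : K) +
    ((x (finSumFinEquiv (Sum.inr j)) : ℝ) : K) * RCLike.I, ?_⟩
  funext i
  obtain ⟨k, rfl⟩ := finSumFinEquiv.surjective i
  simp only [rv, LinearMap.coe_mk, AddHom.coe_mk, Equiv.symm_apply_apply]
  rcases k with j | j
  · simp only [Sum.elim_inl]
    simp
  · simp only [Sum.elim_inr]
    simp [hI]

theorem rr_mulVec (Z : Matrix (Fin r) (Fin n) K) (v : Fin n → K) :
    rr Z *ᵥ rv K n v = rv K r (Z *ᵥ v) := by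
  have h1 : rv K n v = Sum.elim (fun j => RCLike.re (v j)) (fun j => RCLike.im (v j)) ∘
      finSumFinEquiv.symm := rfl
  rw [rr, h1, submatrix_mulVec_equiv]
  have h2 : (Sum.elim (fun j => RCLike.re (v j)) (fun j => RCLike.im (v j)) ∘
      finSumFinEquiv.symm) ∘ (finSumFinEquiv.symm : Fin (n + n) ≃ Fin n ⊕ Fin n).symm =
      Sum.elim (fun j => RCLike.re (v j)) (fun j => RCLike.im (v j)) := by
    funext k
    simp
  rw [h2]
  funext i
  obtain ⟨k, rfl⟩ := finSumFinEquiv.surjective i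
  rw [Function.comp_apply, Equiv.symm_apply_apply, fromBlocks_mulVec]
  simp only [rv, LinearMap.coe_mk, AddHom.coe_mk, Equiv.symm_apply_apply]
  rcases k with j | j
  · simp [Matrix.mulVec, dotProduct, sub_eq_add_neg, Finset.sum_add_distrib]
  · simp [Matrix.mulVec, dotProduct, Finset.sum_add_distrib]
    ring

theorem finrank_two (hI : RCLike.im (RCLike.I : K) = 1) : finrank ℝ K = 2 := by
  rw [(RCLike.complexLinearIsometryEquiv hI).toLinearEquiv.finrank_eq,
    Complex.finrank_real_complex]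

theorem rr_rank (hI : RCLike.im (RCLike.I : K) = 1) (Z : Matrix (Fin r) (Fin n) K) :
    (rr Z).rank = 2 * Z.rank := by
  have h1 : LinearMap.range (rr Z).mulVecLin =
      ((LinearMap.range Z.mulVecLin).restrictScalars ℝ).map (rv K r) := by
    ext x
    constructor
    · rintro ⟨w, rfl⟩
      obtain ⟨v, rfl⟩ := rv_surj hI w
      exact ⟨Z *ᵥ v, ⟨v, rfl⟩, (rr_mulVec Z v).symm⟩
    · rintro ⟨_, ⟨v, rfl⟩, rfl⟩
      exact ⟨rv K n v, rr_mulVec Z v⟩
  have h2 := (Submodule.equivMapOfInjective (rv K r) rv_inj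
    ((LinearMap.range Z.mulVecLin).restrictScalars ℝ)).finrank_eq
  have h3 : finrank ℝ ((LinearMap.range Z.mulVecLin).restrictScalars ℝ) =
      finrank ℝ (LinearMap.range Z.mulVecLin) := rfl
  have h4 := Module.finrank_mul_finrank ℝ K (LinearMap.range Z.mulVecLin)
  rw [Matrix.rank, h1, ← h2, h3, ← h4, finrank_two hI]
  rfl

end Rect

section Core
variable {K : Type} [RCLike K] {r n : ℕ}

open scoped ComplexOrder

/-- An orthogonal projection of rank `s` is `C * Cᴴ` with `Cᴴ * C = 1`. -/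
theorem exists_frame {E : Matrix (Fin r) (Fin r) K} (h1 : E * E = E) (h2 : Eᴴ = E) :
    ∃ C : Matrix (Fin r) (Fin E.rank) K, C * Cᴴ = E ∧ Cᴴ * C = 1 := by
  obtain ⟨C, hC⟩ := exists_factorK E le_rfl
  rw [h2, h1] at hC
  refine ⟨C, hC, ?_⟩
  have hrank : C.rank = E.rank := by
    rw [← Matrix.rank_self_mul_conjTranspose C, hC]
  have hinj : ∀ v : Fin E.rank → K, C *ᵥ v = 0 → v = 0 := by
    have h3 := LinearMap.finrank_range_add_finrank_ker C.mulVecLin
    rw [Module.finrank_fin_fun] at h3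
    have h4 : finrank K (LinearMap.range C.mulVecLin) = E.rank := hrank
    have h5 : finrank K (LinearMap.ker C.mulVecLin) = 0 := by omega
    have h6 : LinearMap.ker C.mulVecLin = ⊥ := Submodule.finrank_eq_zero.1 h5
    intro v hv
    have h7 : v ∈ LinearMap.ker C.mulVecLin := hv
    rwa [h6, Submodule.mem_bot] at h7
  have hinj' : ∀ M : Matrix (Fin E.rank) (Fin E.rank) K, C * M = 0 → M = 0 := by
    intro M hM
    ext i j
    have h3 := hinj (fun i => M i j) (by
      funext i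
      exact congrFun (congrFun hM i) j)
    exact congrFun h3 i
  have h3 : C * (Cᴴ * C - 1) * (C * (Cᴴ * C - 1))ᴴ = 0 := by
    rw [conjTranspose_mul, conjTranspose_sub, conjTranspose_mul, conjTranspose_conjTranspose,
      conjTranspose_one]
    have h4 : C * (Cᴴ * C - 1) * ((Cᴴ * C - 1) * Cᴴ) =
        C * Cᴴ * (C * Cᴴ) * (C * Cᴴ) - C * Cᴴ * (C * Cᴴ) - C * Cᴴ * (C * Cᴴ) + C * Cᴴ := by
      simp only [Matrix.mul_sub, Matrix.sub_mul, Matrix.mul_one, Matrix.one_mul, Matrix.mul_assoc]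
      abel
    rw [h4, hC, h1, h1]
    abel
  have h4 := hinj' _ (Matrix.self_mul_conjTranspose_eq_zero.1 h3)
  exact sub_eq_zero.1 h4

theorem rr_gram_pos {B : Matrix (Fin r) (Fin n) K} (hB : B ≠ 0) :
    0 < (rr B * (rr B)ᵀ).trace := by
  have h0 := (Matrix.posSemidef_self_mul_conjTranspose (rr B)).trace_nonneg
  rw [conjTranspose_eq_transpose_of_trivial] at h0
  refine lt_of_le_of_ne h0 fun h => hB ?_
  have h1 := Matrix.trace_mul_conjTranspose_self_eq_zero_iff (A := rr B)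
  rw [conjTranspose_eq_transpose_of_trivial] at h1
  have h2 := h1.1 h.symm
  refine rr_inj (h2.trans ?_)
  exact (map_zero (rrL K r n)).symm

/-- If all the real forms satisfy `B Bᵀ = tr (B Bᵀ) D` and a multiple of `D` is idempotent, the
space is contained in `C * M`, `C` with orthonormal columns, and the Gram matrices are scalar. -/
theorem reduce_core {P : Submodule ℝ (Matrix (Fin r) (Fin n) K)}
    {B0 : Matrix (Fin r) (Fin n) K} (hB0 : B0 ∈ P) (hB00 : B0 ≠ 0)
    {D : Matrix (Fin (r + r)) (Fin (r + r)) ℝ}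
    (hD : ∀ B ∈ P, rr B * (rr B)ᵀ = (rr B * (rr B)ᵀ).trace • D) {κ : ℝ} (hκ : κ ≠ 0)
    (hE : (κ • D) * (κ • D) = κ • D) {s : ℕ} (hs : (κ • D).trace = 2 * s) :
    ∃ C : Matrix (Fin r) (Fin s) K, Cᴴ * C = 1 ∧ B0.rank = s ∧
      ∀ B ∈ P, B = C * (Cᴴ * B) ∧ ∃ c : ℝ, (Cᴴ * B) * (Cᴴ * B)ᴴ = (c : K) • 1 := by
  have ht0 := rr_gram_pos hB00
  set t0 := (rr B0 * (rr B0)ᵀ).trace with ht0d
  set E : Matrix (Fin r) (Fin r) K := (κ / t0) • (B0 * B0ᴴ) with hEd
  have hrr : rr E = κ • D := by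
    rw [hEd, rr_smul, rr_mul, ← rr_transpose, hD B0 hB0, ← ht0d, smul_smul,
      div_mul_cancel₀ _ ht0.ne']
  have hEE : E * E = E := by
    apply rr_inj
    rw [rr_mul, hrr, hE]
  have hEH : Eᴴ = E := by
    rw [hEd, conjTranspose_smul, conjTranspose_mul, conjTranspose_conjTranspose, star_trivial]
  have hBB : ∀ B ∈ P, ∃ c : ℝ, B * Bᴴ = c • E := by
    intro B hB
    refine ⟨(rr B * (rr B)ᵀ).trace / κ, ?_⟩
    apply rr_inj
    rw [rr_smul, hrr, rr_mul, ← rr_transpose, smul_smul, div_mul_cancel₀ _ hκ]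
    exact hD B hB
  have hrank : E.rank = B0.rank := by
    rw [← Matrix.rank_self_mul_conjTranspose B0]
    have h1 : E = ((κ / t0 : ℝ) : K) • (B0 * B0ᴴ) := by
      rw [hEd]
      ext i j
      simp [RCLike.real_smul_eq_coe_mul]
    rw [h1]
    apply Matrix.rank_smul_of_mem_nonZeroDivisors
    rw [mem_nonZeroDivisors_iff_ne_zero]
    exact RCLike.ofReal_ne_zero.2 (div_ne_zero hκ ht0.ne')
  obtain ⟨C, hC1, hC2⟩ := exists_frame hEE hEH
  have hsr : E.rank = s := by
    have h1 : (Cᴴ * C).trace = (C * Cᴴ).trace := Matrix.trace_mul_comm _ _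
    rw [hC2, hC1, Matrix.trace_one, Fintype.card_fin] at h1
    have h2 := rr_trace E
    rw [hrr, hs, ← h1] at h2
    simp only [RCLike.natCast_re] at h2
    have h3 : (s : ℝ) = (E.rank : ℝ) := by linarith
    exact_mod_cast h3.symm
  have hmain : ∀ B ∈ P, B = C * (Cᴴ * B) ∧ ∃ c : ℝ, (Cᴴ * B) * (Cᴴ * B)ᴴ = (c : K) • 1 := by
    intro B hB
    obtain ⟨c, hc⟩ := hBB B hB
    constructor
    · rw [← Matrix.mul_assoc, hC1]
      have h1 : (B - E * B) * (B - E * B)ᴴ = 0 := by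
        have h2 : (B - E * B) * (B - E * B)ᴴ = B * Bᴴ - B * Bᴴ * E - E * (B * Bᴴ) +
            E * (B * Bᴴ) * E := by
          rw [conjTranspose_sub, conjTranspose_mul, hEH]
          simp only [Matrix.mul_sub, Matrix.sub_mul, Matrix.mul_assoc]
          abel
        rw [h2, hc]
        simp only [Matrix.smul_mul, Matrix.mul_smul, hEE]
        abel
      exact sub_eq_zero.1 (Matrix.self_mul_conjTranspose_eq_zero.1 h1)
    · refine ⟨c, ?_⟩
      rw [conjTranspose_mul, conjTranspose_conjTranspose, Matrix.mul_assoc, ← Matrix.mul_assoc B,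
        hc]
      have h1 : Cᴴ * (E * C) = 1 := by
        calc Cᴴ * (E * C) = Cᴴ * ((C * Cᴴ) * C) := by rw [hC1]
          _ = (Cᴴ * C) * (Cᴴ * C) := by simp only [Matrix.mul_assoc]
          _ = 1 := by rw [hC2, Matrix.mul_one]
      rw [Matrix.smul_mul, Matrix.mul_smul, h1]
      ext i j
      simp [RCLike.real_smul_eq_coe_mul]
  subst hsr
  exact ⟨C, hC2, hrank.symm, hmain⟩

section Frames
variable {a N : ℕ}

/-- The Gram matrix of `U * M`, if the rows of `M` are orthogonal of the same length. -/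
theorem frame_gram {s b : ℕ} {U : Matrix (Fin a) (Fin s) ℝ} {M : Matrix (Fin s) (Fin b) ℝ} {t : ℝ}
    (h : M * Mᵀ = t • (1 : Matrix (Fin s) (Fin s) ℝ)) :
    (U * M) * (U * M)ᵀ = t • (U * Uᵀ) := by
  rw [transpose_mul, Matrix.mul_assoc, ← Matrix.mul_assoc M, h, Matrix.smul_mul, Matrix.one_mul,
    Matrix.mul_smul]

/-- If `B Bᵀ = tr (B Bᵀ) D` is a nonzero multiple of `U Uᵀ`, `U` with orthonormal columns, then a
multiple of `D` is a projection of rank `s`. -/
theorem frame_proj {s b : ℕ} {U : Matrix (Fin a) (Fin s) ℝ} (hU : Uᵀ * U = 1)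
    {B : Matrix (Fin a) (Fin b) ℝ} {D : Matrix (Fin a) (Fin a) ℝ} {t : ℝ}
    (hD : B * Bᵀ = (B * Bᵀ).trace • D) (h : B * Bᵀ = t • (U * Uᵀ)) (h0 : 0 < (B * Bᵀ).trace)
    (hs : s ≠ 0) :
    ((s : ℝ) • D) * ((s : ℝ) • D) = (s : ℝ) • D ∧ ((s : ℝ) • D).trace = s := by
  have h1 : (B * Bᵀ).trace = t * s := by
    rw [h, Matrix.trace_smul, Matrix.trace_mul_comm, hU, Matrix.trace_one, Fintype.card_fin,
      smul_eq_mul]
  have ht : t ≠ 0 := by
    rintro rfl
    rw [h1, zero_mul] at h0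
    exact lt_irrefl _ h0
  have h2 : (s : ℝ) • D = U * Uᵀ := by
    have h3 : t • ((s : ℝ) • D) = t • (U * Uᵀ) := by
      rw [← h, smul_smul, ← h1, ← hD]
    have h4 := congrArg (fun X => t⁻¹ • X) h3
    simp only [smul_smul, inv_mul_cancel₀ ht, one_smul] at h4
    rwa [← mul_assoc, inv_mul_cancel₀ ht, one_mul] at h4
  rw [h2]
  constructor
  · rw [Matrix.mul_assoc, ← Matrix.mul_assoc Uᵀ, hU, Matrix.one_mul]
  · rw [Matrix.trace_mul_comm, hU, Matrix.trace_one, Fintype.card_fin]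

/-- Rows `A M_i y` with `M_iᵀ M_j + M_jᵀ M_i = 2 δ_ij` are orthogonal and have the length
of `y`. -/
theorem rows_gram {s b : ℕ} {A : Matrix (Fin b) (Fin N) ℝ} (hA : Aᵀ * A = 1)
    (M : Fin s → Matrix (Fin N) (Fin N) ℝ)
    (hM : ∀ i j, (M i)ᵀ * M j + (M j)ᵀ * M i = if i = j then 2 else 0) (y : Fin N → ℝ) :
    (Matrix.of fun i => A *ᵥ (M i *ᵥ y)) * (Matrix.of fun i => A *ᵥ (M i *ᵥ y))ᵀ =
      (y ⬝ᵥ y) • (1 : Matrix (Fin s) (Fin s) ℝ) := by
  have hdot : ∀ v w : Fin N → ℝ, (A *ᵥ v) ⬝ᵥ (A *ᵥ w) = v ⬝ᵥ w := by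
    intro v w
    rw [Matrix.dotProduct_mulVec, ← Matrix.mulVec_transpose, Matrix.mulVec_mulVec, hA,
      Matrix.one_mulVec]
  have hdot' : ∀ i j, (M i *ᵥ y) ⬝ᵥ (M j *ᵥ y) = y ⬝ᵥ (((M i)ᵀ * M j) *ᵥ y) := by
    intro i j
    rw [← Matrix.mulVec_mulVec, Matrix.dotProduct_mulVec y, Matrix.vecMul_transpose]
  ext i j
  rw [Matrix.mul_apply]
  have h1 : ∑ k, (Matrix.of fun i => A *ᵥ (M i *ᵥ y)) i k *
      (Matrix.of fun i => A *ᵥ (M i *ᵥ y))ᵀ k j = (A *ᵥ (M i *ᵥ y)) ⬝ᵥ (A *ᵥ (M j *ᵥ y)) := rfl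
  rw [h1, hdot]
  have h2 : (M i *ᵥ y) ⬝ᵥ (M j *ᵥ y) = (M j *ᵥ y) ⬝ᵥ (M i *ᵥ y) := dotProduct_comm _ _
  have h3 : (M i *ᵥ y) ⬝ᵥ (M j *ᵥ y) + (M j *ᵥ y) ⬝ᵥ (M i *ᵥ y) =
      y ⬝ᵥ ((if i = j then (2 : Matrix (Fin N) (Fin N) ℝ) else 0) *ᵥ y) := by
    rw [hdot', hdot', ← dotProduct_add, ← Matrix.add_mulVec, hM]
  rw [Matrix.smul_apply, Matrix.one_apply, smul_eq_mul]
  by_cases hij : i = j
  · rw [if_pos hij]
    rw [if_pos hij] at h3
    have h4 : (2 : Matrix (Fin N) (Fin N) ℝ) *ᵥ y = 2 • y := by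
      have : (2 : Matrix (Fin N) (Fin N) ℝ) = 1 + 1 := by norm_num
      rw [this, Matrix.add_mulVec, Matrix.one_mulVec, two_smul]
    rw [h4, dotProduct_smul, nsmul_eq_mul, ← h2] at h3
    push_cast at h3
    linarith
  · rw [if_neg hij]
    rw [if_neg hij, Matrix.zero_mulVec, dotProduct_zero, ← h2] at h3
    linarith

end Frames

/-- The reduction of the complex case to a plane. -/
theorem complex_reduce (hI : RCLike.im (RCLike.I : K) = 1)
    (P : Submodule ℝ (Matrix (Fin r) (Fin n) K)) (hP : P ≠ ⊥) {B0 : Matrix (Fin r) (Fin n) K}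
    (hB0 : B0 ∈ P)
    (hconj : ∀ B ∈ P, ∃ (U : Matrix (Fin r) (Fin r) K) (W : Matrix (Fin n) (Fin n) K) (t : ℝ),
      U * Uᴴ = 1 ∧ W * Wᴴ = 1 ∧ B = t • (U * B0 * W))
    (htri : ∀ B ∈ P, ∀ C ∈ P, (2 : ℝ) • (B * Cᴴ * B) - C * Bᴴ * B - B * Bᴴ * C ∈ P)
    (hdim : 2 * (n + 1) ≤ finrank ℝ P + 2 * B0.rank)
    (hn : 2 * r * (2 * r + 2) ≤ 2 * n + 4) :
    (∃ u : Fin r → K, u ≠ 0 ∧ ∀ B, B ∈ P ↔ ∃ x, B = vecMulVec u x) ∨
    (∃ U : Matrix (Fin r) (Fin 2) K, Uᴴ * U = 1 ∧ 2 * n ≤ finrank ℝ P + 2 ∧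
      ∀ B ∈ P, B = U * (Uᴴ * B) ∧ ∃ c : ℝ, (Uᴴ * B) * (Uᴴ * B)ᴴ = (c : K) • 1) := by
  classical
  have hB00 : B0 ≠ 0 := by
    rintro rfl
    apply hP
    rw [Submodule.eq_bot_iff]
    intro B hB
    obtain ⟨U, W, t, -, -, rfl⟩ := hconj B hB
    rw [Matrix.mul_zero, Matrix.zero_mul, smul_zero]
  -- the real form of the space
  set Q : Submodule ℝ (Matrix (Fin (r + r)) (Fin (n + n)) ℝ) := P.map (rrL K r n) with hQ
  have hQmem : ∀ B ∈ P, rr B ∈ Q := fun B hB => Submodule.mem_map_of_mem hB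
  have hQfin : finrank ℝ Q = finrank ℝ P :=
    (Submodule.equivMapOfInjective (rrL K r n) (fun _ _ h => rr_inj h) P).finrank_eq.symm
  have hrk : B0.rank ≤ r := by
    have := Matrix.rank_le_card_height B0
    rwa [Fintype.card_fin] at this
  obtain ⟨D, hD⟩ := Pool.Agent.Helper40.CK.gram_const Q (rr B0) (by
    rintro _ ⟨B, hB, rfl⟩
    obtain ⟨U, W, t, hU, hW, rfl⟩ := hconj B hB
    refine ⟨rr U, rr W, t, ?_, ?_, ?_⟩
    · rw [rr_transpose, ← rr_mul, hU, rr_one]
    · rw [rr_transpose, ← rr_mul, hW, rr_one]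
    · show rr (t • (U * B0 * W)) = _
      rw [rr_smul, rr_mul, rr_mul]) (by
    rw [hQfin]
    nlinarith)
  have hD' : ∀ B ∈ P, rr B * (rr B)ᵀ = (rr B * (rr B)ᵀ).trace • D := fun B hB =>
    hD _ (hQmem B hB)
  have ht0 := rr_gram_pos hB00
  have hDrank : 2 * B0.rank ≤ D.rank := by
    rw [← rr_rank hI, ← Matrix.rank_self_mul_transpose, hD' B0 hB0]
    have h1 : (rr B0 * (rr B0)ᵀ).trace • D =
      ((rr B0 * (rr B0)ᵀ).trace • (1 : Matrix (Fin (r + r)) (Fin (r + r)) ℝ)) * D := by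
      rw [Matrix.smul_mul, Matrix.one_mul]
    rw [h1]
    exact Matrix.rank_mul_le_right _ _
  have hcore := Pool.Agent.Helper17.CKF.rank_one_list Q D hD (by
    rintro _ ⟨B, hB, rfl⟩ _ ⟨C, hC, rfl⟩
    have h1 := hQmem _ (htri B hB C hC)
    rw [rr_sub, rr_sub, rr_smul, rr_mul, rr_mul, rr_mul, rr_mul, rr_mul, rr_mul,
      ← rr_transpose, ← rr_transpose] at h1
    exact h1) (by
    intro h
    apply hP
    rw [Submodule.eq_bot_iff]
    intro B hB
    have h1 := hQmem B hB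
    rw [h, Submodule.mem_bot] at h1
    exact rr_inj (h1.trans (map_zero (rrL K r n)).symm)) (by
    rw [hQfin]
    omega) (by
    have : (r + r) * (r + r + 2) = 2 * r * (2 * r + 2) := by ring
    omega)
  rcases hcore with ⟨u, hu, h⟩ | ⟨N, U, A, J, hU, hA, hJ, hJJ, -, h⟩ |
    ⟨N, U, A, I, J, hU, hA, hIt, hJ, hII, hJJ, hIJ, -, h⟩
  · exfalso
    obtain ⟨x, hx⟩ := (h _).1 (hQmem B0 hB0)
    have h1 := Matrix.rank_vecMulVec_le u x
    rw [← hx, rr_rank hI] at h1
    have h2 : B0.rank ≠ 0 := by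
      intro h3
      apply hB00
      have h4 : LinearMap.range B0.mulVecLin = ⊥ := Submodule.finrank_eq_zero.1 h3
      have h5 : B0.mulVecLin = 0 := LinearMap.range_eq_bot.1 h4
      ext i j
      have h6 := congrFun (LinearMap.congr_fun h5 (Pi.single j 1)) i
      simpa using h6
    omega
  · left
    obtain ⟨y, hy⟩ := (h _).1 (hQmem B0 hB0)
    have hM : (Matrix.of ![A *ᵥ y, A *ᵥ (J *ᵥ y)]) =
        Matrix.of fun i => A *ᵥ ((![1, J] : Fin 2 → Matrix (Fin N) (Fin N) ℝ) i *ᵥ y) := by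
      ext i j
      fin_cases i <;> simp
    have hgram := rows_gram hA (![1, J] : Fin 2 → Matrix (Fin N) (Fin N) ℝ) (by
      intro i j
      fin_cases i <;> fin_cases j <;> simp [hJ, hJJ] <;> norm_num) y
    rw [← hM] at hgram
    have h1 := frame_gram (U := U) hgram
    rw [← hy] at h1
    obtain ⟨h2, h3⟩ := frame_proj hU (hD' B0 hB0) h1 ht0 (by norm_num)
    obtain ⟨C, hC, hr, hC'⟩ := reduce_core hB0 hB00 hD' (κ := ((2 : ℕ) : ℝ)) (by norm_num) h2
      (s := 1) (by rw [h3]; norm_num)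
    let u : Fin r → K := fun i => C i 0
    have hu : u ≠ 0 := by
      intro h4
      have h5 : C = 0 := by
        ext i k
        have : k = 0 := Subsingleton.elim _ _
        rw [this]
        exact congrFun h4 i
      rw [h5, Matrix.mul_zero] at hC
      have h6 := congrFun (congrFun hC 0) 0
      simp at h6
    let L : (Fin n → K) →ₗ[ℝ] Matrix (Fin r) (Fin n) K :=
      { toFun := fun x => vecMulVec u x
        map_add' := fun x x' => by
          ext i j
          simp [vecMulVec_apply, mul_add]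
        map_smul' := fun c x => by
          ext i j
          simp [vecMulVec_apply] }
    have hle : P ≤ LinearMap.range L := by
      intro B hB
      refine ⟨(Cᴴ * B) 0, ?_⟩
      ext i j
      have h4 := congrFun (congrFun (hC' B hB).1 i) j
      rw [Matrix.mul_apply, Fin.sum_univ_one] at h4
      exact h4.symm
    have hfinL : finrank ℝ (LinearMap.range L) ≤ 2 * n := by
      refine (LinearMap.finrank_range_le L).trans ?_
      rw [Module.finrank_pi_fintype, Finset.sum_const, Finset.card_univ, Fintype.card_fin,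
        smul_eq_mul, finrank_two hI, mul_comm]
    have heq : P = LinearMap.range L := Submodule.eq_of_le_of_finrank_le hle (by omega)
    refine ⟨u, hu, fun B => ?_⟩
    rw [heq]
    exact ⟨fun ⟨x, hx⟩ => ⟨x, hx.symm⟩, fun ⟨x, hx⟩ => ⟨x, hx.symm⟩⟩
  · right
    obtain ⟨y, hy⟩ := (h _).1 (hQmem B0 hB0)
    have hM : (Matrix.of ![A *ᵥ y, A *ᵥ (I *ᵥ y), A *ᵥ (J *ᵥ y), A *ᵥ ((I * J) *ᵥ y)]) =
        Matrix.of fun i => A *ᵥ ((![1, I, J, I * J] : Fin 4 → Matrix (Fin N) (Fin N) ℝ) i *ᵥ y) := by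
      ext i j
      fin_cases i <;> simp
    have hJI : J * I = -(I * J) := by rw [hIJ, neg_neg]
    have hT : (I * J)ᵀ = -(I * J) := by
      rw [transpose_mul, hIt, hJ, neg_mul_neg, hJI]
    have a1 : I * (I * J) = -J := by rw [← Matrix.mul_assoc, hII, neg_one_mul]
    have a2 : J * (I * J) = I := by
      rw [← Matrix.mul_assoc, hJI, Matrix.neg_mul, Matrix.mul_assoc, hJJ, mul_neg_one, neg_neg]
    have a3 : (I * J) * I = J := by
      rw [Matrix.mul_assoc, hJI, Matrix.mul_neg, a1, neg_neg]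
    have a4 : (I * J) * J = -I := by rw [Matrix.mul_assoc, hJJ, mul_neg_one]
    have a5 : (I * J) * (I * J) = -1 := by rw [Matrix.mul_assoc, a2, hII]
    have hgram := rows_gram hA (![1, I, J, I * J] : Fin 4 → Matrix (Fin N) (Fin N) ℝ) (by
      intro i j
      fin_cases i <;> fin_cases j <;>
        simp [hT, hIt, hJ, hII, hJJ, hJI, a1, a2, a3, a4, a5, -transpose_mul] <;> norm_num) y
    rw [← hM] at hgram
    have h1 := frame_gram (U := U) hgram
    rw [← hy] at h1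
    obtain ⟨h2, h3⟩ := frame_proj hU (hD' B0 hB0) h1 ht0 (by norm_num)
    obtain ⟨C, hC, hr, hC'⟩ := reduce_core hB0 hB00 hD' (κ := ((4 : ℕ) : ℝ)) (by norm_num) h2
      (s := 2) (by rw [h3]; norm_num)
    exact ⟨C, hC, by omega, hC'⟩

end Core

end Pool.Agent.Helper29.CKP
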