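import Pool.Agent.Helper29.CKP.Opq

set_option autoImplicit false

/-!
# Triple products
-/

open NormedSpace Filter Topology Matrix Pool.Agent.Helper17.CKF Pool.Agent.Helper20.CKP

namespace Pool.Agent.Helper29.CKP

/-- `q` is closed under `[X, [X, Y]]`. -/
theorem triple_mem {G : Type} [Group G] [TopologicalSpace G] [IsTopologicalGroup G] {m : ℕ}
    {M : MatGroup G m} {H : Subgroup G} {q : Submodule ℝ (Matrix (Fin m) (Fin m) ℝ)}
    (hH : Cartan M H q) {X Y : Matrix (Fin m) (Fin m) ℝ} (hX : X ∈ q) (hY : Y ∈ q) :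
    X * (X * Y - Y * X) - (X * Y - Y * X) * X ∈ q := by
  obtain ⟨h1, h2⟩ := (cartan_eq hH).1 hX
  obtain ⟨h3, h4⟩ := (cartan_eq hH).1 hY
  refine (cartan_eq hH).2 ⟨lie_mem_lie h1 (lie_mem_lie h1 h3), ?_⟩
  simp only [transpose_sub, transpose_mul, h2, h4]
  noncomm_ring

/-- The triple product in the coordinates of `O(r, n)`. -/
theorem pm_triple {r n : ℕ} (B C : Matrix (Fin r) (Fin n) ℝ) :
    pm r n B * (pm r n B * pm r n C - pm r n C * pm r n B) -
      (pm r n B * pm r n C - pm r n C * pm r n B) * pm r n B =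
    -pm r n ((2 : ℝ) • (B * Cᵀ * B) - C * Bᵀ * B - B * Bᵀ * C) := by
  have hsub : ∀ (A : Matrix (Fin r) (Fin r) ℝ) (B : Matrix (Fin r) (Fin n) ℝ)
      (C : Matrix (Fin n) (Fin r) ℝ) (D : Matrix (Fin n) (Fin n) ℝ)
      (A' : Matrix (Fin r) (Fin r) ℝ) (B' : Matrix (Fin r) (Fin n) ℝ)
      (C' : Matrix (Fin n) (Fin r) ℝ) (D' : Matrix (Fin n) (Fin n) ℝ),
      bm A B C D - bm A' B' C' D' = bm (A - A') (B - B') (C - C') (D - D') := by
    intro A B C D A' B' C' D'
    ext i j
    obtain ⟨i, rfl⟩ := finSumFinEquiv.surjective i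
    obtain ⟨j, rfl⟩ := finSumFinEquiv.surjective j
    rcases i with i | i <;> rcases j with j | j <;> simp [bm, -finSumFinEquiv_apply_left,
      -finSumFinEquiv_apply_right]
  simp only [pm_apply, bm_mul, hsub, bm_neg]
  congr 1
  · simp
  · simp only [Matrix.mul_zero, Matrix.zero_mul, add_zero, zero_add, sub_zero, zero_sub,
      Matrix.mul_sub, Matrix.sub_mul, two_smul, ← Matrix.mul_assoc]
    abel
  · simp only [Matrix.mul_zero, Matrix.zero_mul, add_zero, zero_add, sub_zero, zero_sub,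
      Matrix.mul_sub, Matrix.sub_mul, two_smul, transpose_sub, transpose_add, transpose_mul,
      transpose_transpose, ← Matrix.mul_assoc]
    abel
  · simp

end Pool.Agent.Helper29.CKP
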