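import Pool.Agent.Helper29.CKP.Conj2

set_option autoImplicit false

/-!
# Cartan decompositions of closed groups which are stable under transposition
-/

open NormedSpace Filter Topology Matrix Pool.Agent.Helper17.CKF

namespace Pool.Agent.Helper29.CKP

/-- Every positive definite matrix is the exponential of a symmetric matrix. -/
theorem exists_log {n : ℕ} {P : Matrix (Fin n) (Fin n) ℝ} (hP : P.PosDef) :
    ∃ X : Matrix (Fin n) (Fin n) ℝ, Xᵀ = X ∧ exp X = P := by
  open scoped Norms.L2Operator MatrixOrder in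
  refine ⟨CFC.log P, ?_, ?_⟩
  · have h : IsSelfAdjoint (CFC.log P) := IsSelfAdjoint.log
    have h2 : (CFC.log P)ᴴ = CFC.log P := h
    rwa [conjTranspose_eq_transpose_of_trivial] at h2
  · exact CFC.exp_log P hP.isStrictlyPositive

theorem posDef_mul_transpose {n : ℕ} {A : Matrix (Fin n) (Fin n) ℝ} (hA : IsUnit A) :
    (A * Aᵀ).PosDef := by
  have h := Matrix.PosDef.mul_conjTranspose_self A (Matrix.vecMul_injective_of_isUnit hA)
  rwa [conjTranspose_eq_transpose_of_trivial] at h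

theorem posDef_exp {n : ℕ} {X : Matrix (Fin n) (Fin n) ℝ} (hX : Xᵀ = X) : (exp X).PosDef := by
  have e : exp X = exp ((1 / 2 : ℝ) • X) * (exp ((1 / 2 : ℝ) • X))ᵀ := by
    rw [← Matrix.exp_transpose, transpose_smul, hX,
      ← Matrix.exp_add_of_commute _ _ (Commute.refl _), ← add_smul]
    norm_num
  rw [e]
  exact posDef_mul_transpose (Matrix.isUnit_exp _)

/-- The linear space of symmetric matrices. -/
def symS (n : ℕ) : Submodule ℝ (Matrix (Fin n) (Fin n) ℝ) where
  carrier := {X | Xᵀ = X}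
  add_mem' := by
    intro X Y hX hY
    show (X + Y)ᵀ = X + Y
    rw [transpose_add, show Xᵀ = X from hX, show Yᵀ = Y from hY]
  zero_mem' := transpose_zero
  smul_mem' := by
    intro c X hX
    show (c • X)ᵀ = c • X
    rw [transpose_smul, show Xᵀ = X from hX]

theorem mem_symS {n : ℕ} {X : Matrix (Fin n) (Fin n) ℝ} : X ∈ symS n ↔ Xᵀ = X := Iff.rfl

variable {G : Type} [Group G] [TopologicalSpace G] [IsTopologicalGroup G] {n : ℕ}

/-- The Cartan decomposition. -/
theorem cartan_of (M : MatGroup G n) {L : Subgroup G} (hL : IsClosed (L : Set G))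
    (htr : ∀ h ∈ L, ∃ h' ∈ L, M.ι h' = (M.ι h)ᵀ)
    (hpow : ∀ X : Matrix (Fin n) (Fin n) ℝ, Xᵀ = X → (∃ h ∈ L, M.ι h = exp X) →
      ∀ t : ℝ, ∃ h ∈ L, M.ι h = exp (t • X)) : Cartan M L (lie M L hL ⊓ symS n) where
  closed := hL
  symm := fun X hX => hX.2
  exp_mem := by
    intro X hX
    obtain ⟨h, hh, e⟩ := hX.1 1
    exact ⟨h, hh, by rw [e, one_smul]⟩
  polar := by
    intro h hh
    obtain ⟨h', hh', e⟩ := htr h hh
    obtain ⟨Z, hZ, eZ⟩ := exists_log (posDef_mul_transpose (isUnit_ι M h))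
    have h1 : ∀ t : ℝ, ∃ h ∈ L, M.ι h = exp (t • Z) :=
      hpow Z hZ ⟨h * h', L.mul_mem hh hh', by rw [map_mul, e, eZ]⟩
    obtain ⟨g, hg, eg⟩ := h1 (-(1 / 2))
    refine ⟨(1 / 2 : ℝ) • Z, ⟨fun t => ?_, ?_⟩, g * h, L.mul_mem hg hh, ?_, ?_⟩
    · obtain ⟨a, ha, ea⟩ := h1 (t * (1 / 2))
      exact ⟨a, ha, by rw [ea, smul_smul]⟩
    · show ((1 / 2 : ℝ) • Z)ᵀ = _
      rw [transpose_smul, hZ]
    · have e1 : exp ((-(1 / 2) : ℝ) • Z) * exp Z * exp ((-(1 / 2) : ℝ) • Z) = 1 := by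
        rw [← Matrix.exp_add_of_commute _ _ ((Commute.refl Z).smul_left _),
          ← Matrix.exp_add_of_commute _ _ (((Commute.refl Z).smul_left _ |>.add_left
            (Commute.refl Z)).smul_right _)]
        have e0 : (-(1 / 2) : ℝ) • Z + Z + (-(1 / 2) : ℝ) • Z = 0 := by module
        rw [e0, exp_zero]
      rw [map_mul, transpose_mul, eg, ← Matrix.exp_transpose, transpose_smul, hZ, ← e1, eZ]
      simp only [mul_assoc]
    · rw [map_mul, eg, ← mul_assoc, ← Matrix.exp_add_of_commute _ _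
        (((Commute.refl Z).smul_left _).smul_right _)]
      have e0 : (1 / 2 : ℝ) • Z + (-(1 / 2) : ℝ) • Z = 0 := by module
      rw [e0, exp_zero, one_mul]

end Pool.Agent.Helper29.CKP
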