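import Pool.Agent.Helper29.CKP.Br1
import Pool.Agent.Helper20.CKP.Defs

set_option autoImplicit false

/-!
# The bridge: closed groups of matrices and their products as `MatGroup`
-/

open NormedSpace Filter Topology Matrix Pool.Agent.Helper17.CKF Pool.Agent.Helper20.CKP

namespace Pool.Agent.Helper29.CKP

theorem abs_le_of_fn {n : ℕ} {A : Matrix (Fin n) (Fin n) ℝ} {c : ℝ} (h : fn A ≤ c)
    (i j : Fin n) : |A i j| ≤ c + 1 := by
  have h1 : A i j ^ 2 ≤ fn A := by
    unfold fn
    calc A i j ^ 2 ≤ ∑ j, A i j ^ 2 :=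
          Finset.single_le_sum (f := fun j => A i j ^ 2) (fun _ _ => sq_nonneg _)
            (Finset.mem_univ j)
      _ ≤ _ := Finset.single_le_sum (f := fun i => ∑ j, A i j ^ 2)
            (fun _ _ => Finset.sum_nonneg fun _ _ => sq_nonneg _) (Finset.mem_univ i)
  have h2 : |A i j| ^ 2 ≤ c := by rw [sq_abs]; exact h1.trans h
  nlinarith [sq_nonneg (|A i j| - 1), abs_nonneg (A i j)]

theorem isCompact_fn (n : ℕ) (c : ℝ) : IsCompact {A : Matrix (Fin n) (Fin n) ℝ | fn A ≤ c} := by
  have h1 : IsCompact (Set.pi Set.univ fun _ : Fin n => Set.pi Set.univ fun _ : Fin n =>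
      Set.Icc (-(c + 1)) (c + 1)) :=
    isCompact_univ_pi fun _ => isCompact_univ_pi fun _ => isCompact_Icc
  refine h1.of_isClosed_subset (isClosed_le continuous_fn continuous_const) ?_
  intro A hA i _ j _
  exact abs_le.1 (abs_le_of_fn hA i j)

theorem isCompact_GL (n : ℕ) (c : ℝ) : IsCompact {g : GL (Fin n) ℝ |
    fn (g : Matrix (Fin n) (Fin n) ℝ) + fn ((g⁻¹ : GL (Fin n) ℝ) : Matrix (Fin n) (Fin n) ℝ) ≤ c} := by
  have hK : IsCompact {p : Matrix (Fin n) (Fin n) ℝ × (Matrix (Fin n) (Fin n) ℝ)ᵐᵒᵖ |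
      fn p.1 + fn p.2.unop ≤ c} := by
    have h1 := (isCompact_fn n c).prod ((isCompact_fn n c).image
      (MulOpposite.continuous_op (M := Matrix (Fin n) (Fin n) ℝ)))
    refine h1.of_isClosed_subset (isClosed_le ((continuous_fn.comp continuous_fst).add
      (continuous_fn.comp (MulOpposite.continuous_unop.comp continuous_snd))) continuous_const) ?_
    rintro ⟨A, B⟩ h
    have hA := fn_nonneg A
    have hB := fn_nonneg B.unop
    have h' : fn A + fn B.unop ≤ c := h
    exact ⟨by show fn A ≤ c; linarith, ⟨B.unop, by show fn B.unop ≤ c; linarith, rfl⟩⟩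
  exact (Units.isClosedEmbedding_embedProduct).isCompact_preimage hK

/-- A closed subgroup of `GL(n, ℝ)`. -/
noncomputable def oneM {n : ℕ} {G : Subgroup (GL (Fin n) ℝ)}
    (hG : IsClosed (G : Set (GL (Fin n) ℝ))) : MatGroup G n where
  ι := (Units.coeHom (Matrix (Fin n) (Fin n) ℝ)).comp G.subtype
  inj := fun _ _ h => Subtype.ext (Units.ext h)
  cont := Units.continuous_val.comp continuous_subtype_val
  compact := fun c => hG.isClosedEmbedding_subtypeVal.isCompact_preimage (isCompact_GL n c)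

@[simp] theorem oneM_ι {n : ℕ} {G : Subgroup (GL (Fin n) ℝ)}
    (hG : IsClosed (G : Set (GL (Fin n) ℝ))) (g : G) :
    (oneM hG).ι g = ((g : GL (Fin n) ℝ) : Matrix (Fin n) (Fin n) ℝ) := rfl

section blk
variable {r : ℕ} {n : Fin r → ℕ}

/-- The block diagonal matrix with the blocks `X i`. -/
noncomputable def blk (n : Fin r → ℕ) : (∀ i, Matrix (Fin (n i)) (Fin (n i)) ℝ) →ₗ[ℝ]
    Matrix (Fin (∑ i, n i)) (Fin (∑ i, n i)) ℝ where
  toFun X := (blockDiagonal' X).submatrix finSigmaFinEquiv.symm finSigmaFinEquiv.symm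
  map_add' X Y := by
    rw [blockDiagonal'_add]
    rfl
  map_smul' c X := by
    rw [blockDiagonal'_smul]
    rfl

/-- The blocks of a matrix. -/
noncomputable def unblk (n : Fin r → ℕ) : Matrix (Fin (∑ i, n i)) (Fin (∑ i, n i)) ℝ →ₗ[ℝ]
    (∀ i, Matrix (Fin (n i)) (Fin (n i)) ℝ) where
  toFun Z := blockDiag' (Z.submatrix finSigmaFinEquiv finSigmaFinEquiv)
  map_add' X Y := rfl
  map_smul' c X := rfl

theorem unblk_blk (X : ∀ i, Matrix (Fin (n i)) (Fin (n i)) ℝ) : unblk n (blk n X) = X := by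
  show blockDiag' (((blockDiagonal' X).submatrix finSigmaFinEquiv.symm
    finSigmaFinEquiv.symm).submatrix finSigmaFinEquiv finSigmaFinEquiv) = X
  rw [submatrix_submatrix, Equiv.symm_comp_self, submatrix_id_id, blockDiag'_blockDiagonal']

theorem blk_inj {X Y : ∀ i, Matrix (Fin (n i)) (Fin (n i)) ℝ} (h : blk n X = blk n Y) : X = Y := by
  rw [← unblk_blk X, h, unblk_blk]

theorem blk_mul (X Y : ∀ i, Matrix (Fin (n i)) (Fin (n i)) ℝ) :
    blk n X * blk n Y = blk n (fun i => X i * Y i) := by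
  show (blockDiagonal' X).submatrix _ _ * (blockDiagonal' Y).submatrix _ _ =
    (blockDiagonal' _).submatrix _ _
  rw [submatrix_mul_equiv, blockDiagonal'_mul]

theorem blk_transpose (X : ∀ i, Matrix (Fin (n i)) (Fin (n i)) ℝ) :
    (blk n X)ᵀ = blk n (fun i => (X i)ᵀ) := by
  show ((blockDiagonal' X).submatrix _ _)ᵀ = (blockDiagonal' _).submatrix _ _
  rw [transpose_submatrix, blockDiagonal'_transpose]

theorem blk_one : blk n (fun _ => 1) = 1 := by
  show (blockDiagonal' (1 : ∀ i, Matrix (Fin (n i)) (Fin (n i)) ℝ)).submatrix _ _ = 1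
  rw [blockDiagonal'_one, submatrix_one_equiv]

theorem blk_trace (X : ∀ i, Matrix (Fin (n i)) (Fin (n i)) ℝ) :
    (blk n X).trace = ∑ i, (X i).trace := by
  rw [← trace_blockDiagonal' X]
  exact Fintype.sum_equiv finSigmaFinEquiv.symm _ _ fun _ => rfl

theorem fn_blk (X : ∀ i, Matrix (Fin (n i)) (Fin (n i)) ℝ) : fn (blk n X) = ∑ i, fn (X i) := by
  rw [fn_eq_trace, blk_transpose, blk_mul, blk_trace]
  exact Finset.sum_congr rfl fun i _ => (fn_eq_trace _).symm

theorem continuous_blk : Continuous (blk n) := (blk n).continuous_of_finiteDimensional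

theorem hasSum_exp {n : ℕ} (X : Matrix (Fin n) (Fin n) ℝ) :
    HasSum (fun k : ℕ => ((k.factorial : ℝ)⁻¹) • X ^ k) (exp X) := by
  open scoped Norms.Operator in
  exact exp_series_hasSum_exp' (𝕂 := ℝ) X

theorem blk_pow (X : ∀ i, Matrix (Fin (n i)) (Fin (n i)) ℝ) (k : ℕ) :
    blk n X ^ k = blk n (fun i => X i ^ k) := by
  induction k with
  | zero =>
    simp only [pow_zero]
    exact blk_one.symm
  | succ k ih => rw [pow_succ, ih, blk_mul]; simp only [pow_succ]

theorem blk_exp (X : ∀ i, Matrix (Fin (n i)) (Fin (n i)) ℝ) :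
    exp (blk n X) = blk n (fun i => exp (X i)) := by
  have h0 : HasSum (fun (k : ℕ) (i : Fin r) => ((k.factorial : ℝ)⁻¹) • X i ^ k)
      (fun i => exp (X i)) := Pi.hasSum.2 fun i => hasSum_exp (X i)
  have h1 := h0.map (blk n) continuous_blk
  refine (hasSum_exp (blk n X)).unique ?_
  convert h1 using 1
  funext k
  rw [blk_pow, ← map_smul]
  rfl

theorem isSymm_blk {X : ∀ i, Matrix (Fin (n i)) (Fin (n i)) ℝ} :
    (blk n X)ᵀ = blk n X ↔ ∀ i, (X i)ᵀ = X i := by
  rw [blk_transpose]
  exact ⟨fun h i => congrFun (blk_inj h) i, fun h => by rw [funext h]⟩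

variable {G : ∀ i, Subgroup (GL (Fin (n i)) ℝ)}

/-- A product of closed subgroups of general linear groups. -/
noncomputable def prodM (hG : ∀ i, IsClosed (G i : Set (GL (Fin (n i)) ℝ))) :
    MatGroup (∀ i, G i) (∑ i, n i) where
  ι := { toFun := fun g =>
          blk n (fun i => ((g i : GL (Fin (n i)) ℝ) : Matrix (Fin (n i)) (Fin (n i)) ℝ))
         map_one' := blk_one
         map_mul' := fun g h => (blk_mul _ _).symm }
  inj := fun g h e => by
    have e' := blk_inj e
    funext i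
    exact Subtype.ext (Units.ext (congrFun e' i))
  cont := continuous_blk.comp (continuous_pi fun i =>
    Units.continuous_val.comp (continuous_subtype_val.comp (continuous_apply i)))
  compact := fun c => by
    have h1 : IsCompact (Set.pi Set.univ fun i => {g : G i |
        fn ((oneM (hG i)).ι g) + fn ((oneM (hG i)).ι g⁻¹) ≤ c}) :=
      isCompact_univ_pi fun i => (oneM (hG i)).compact c
    have hc : Continuous fun g : ∀ i, G i =>
        blk n (fun i => ((g i : GL (Fin (n i)) ℝ) : Matrix (Fin (n i)) (Fin (n i)) ℝ)) :=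
      continuous_blk.comp (continuous_pi fun i =>
        Units.continuous_val.comp (continuous_subtype_val.comp (continuous_apply i)))
    refine h1.of_isClosed_subset (isClosed_le ((continuous_fn.comp hc).add
      (continuous_fn.comp (hc.comp continuous_inv))) continuous_const) ?_
    intro g hg i _
    have hg' : fn (blk n (fun i => ((g i : GL (Fin (n i)) ℝ) : Matrix (Fin (n i)) (Fin (n i)) ℝ))) +
      fn (blk n (fun i => (((g⁻¹) i : GL (Fin (n i)) ℝ) : Matrix (Fin (n i)) (Fin (n i)) ℝ))) ≤ c := hg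
    rw [fn_blk, fn_blk, ← Finset.sum_add_distrib] at hg'
    exact (Finset.single_le_sum (f := fun i =>
      fn ((g i : GL (Fin (n i)) ℝ) : Matrix (Fin (n i)) (Fin (n i)) ℝ) +
      fn (((g⁻¹) i : GL (Fin (n i)) ℝ) : Matrix (Fin (n i)) (Fin (n i)) ℝ))
      (fun i _ => add_nonneg (fn_nonneg _) (fn_nonneg _)) (Finset.mem_univ i)).trans hg'

@[simp] theorem prodM_ι (hG : ∀ i, IsClosed (G i : Set (GL (Fin (n i)) ℝ))) (g : ∀ i, G i) :
    (prodM hG).ι g =
      blk n (fun i => ((g i : GL (Fin (n i)) ℝ) : Matrix (Fin (n i)) (Fin (n i)) ℝ)) := rfl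

end blk

end Pool.Agent.Helper29.CKP
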