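import Pool.Agent.Helper29.CKP.Lie2

set_option autoImplicit false

/-!
# Conjugation into a commuting space of symmetric matrices
-/

open NormedSpace Filter Topology Matrix Pool.Agent.Helper17.CKF

namespace Pool.Agent.Helper29.CKP

variable {n : ℕ}

/-- `X ↦ t X - X t` -/
def adm (t : Matrix (Fin n) (Fin n) ℝ) :
    Matrix (Fin n) (Fin n) ℝ →ₗ[ℝ] Matrix (Fin n) (Fin n) ℝ :=
  LinearMap.mulLeft ℝ t - LinearMap.mulRight ℝ t

@[simp] theorem adm_apply (t X : Matrix (Fin n) (Fin n) ℝ) : adm t X = t * X - X * t := rfl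

theorem eq_zero_of_trace {Z : Matrix (Fin n) (Fin n) ℝ} (h : (Zᵀ * Z).trace = 0) : Z = 0 :=
  fn_eq_zero ((fn_eq_trace Z).trans h)

theorem adm_skew {t Y : Matrix (Fin n) (Fin n) ℝ} (ht : tᵀ = t) (hY : Yᵀ = Y) :
    (adm t Y)ᵀ = - adm t Y := by
  rw [adm_apply, transpose_sub, transpose_mul, transpose_mul, ht, hY]
  abel

theorem adm_eq_zero {t Y : Matrix (Fin n) (Fin n) ℝ} (ht : tᵀ = t) (hY : Yᵀ = Y)
    (h : adm t (adm t Y) = 0) : adm t Y = 0 := by
  apply eq_zero_of_trace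
  rw [adm_skew ht hY]
  set Z := adm t Y with hZ
  have e : (-Z * Z).trace = (Y * adm t Z).trace := by
    have h1 : (-Z * Z).trace = (Y * t * Z).trace - (t * Y * Z).trace := by
      nth_rewrite 1 [hZ]
      rw [adm_apply, neg_sub, sub_mul, trace_sub]
    rw [h1, adm_apply, mul_sub, trace_sub]
    congr 1
    · rw [Matrix.mul_assoc]
    · rw [Matrix.mul_assoc, trace_mul_comm, Matrix.mul_assoc]
  rw [e, h, mul_zero, trace_zero]

theorem isOpen_li {m : ℕ} : IsOpen {f : Fin m → Matrix (Fin n) (Fin n) ℝ |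
    LinearIndependent ℝ f} := by
  open scoped Norms.Operator in
  exact isOpen_setOfPred_linearIndependent

/-- A linear space of symmetric matrices has an element whose centralizer is commutative. -/
theorem exists_regular (q : Submodule ℝ (Matrix (Fin n) (Fin n) ℝ)) (hq : ∀ X ∈ q, Xᵀ = X) :
    ∃ t₀ ∈ q, ∀ X ∈ q, ∀ Y ∈ q, adm t₀ X = 0 → adm t₀ Y = 0 → adm X Y = 0 := by
  obtain ⟨t₀, ht₀, hmax⟩ := WellFounded.has_min
    (measure fun t : Matrix (Fin n) (Fin n) ℝ =>
      Module.finrank ℝ (Matrix (Fin n) (Fin n) ℝ) - Module.finrank ℝ (q.map (adm t))).wf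
    (q : Set (Matrix (Fin n) (Fin n) ℝ)) ⟨0, q.zero_mem⟩
  have hmax' : ∀ t ∈ q, Module.finrank ℝ (q.map (adm t)) ≤ Module.finrank ℝ (q.map (adm t₀)) := by
    intro t ht
    have h1 : ¬ (Module.finrank ℝ (Matrix (Fin n) (Fin n) ℝ) - Module.finrank ℝ (q.map (adm t)) <
      Module.finrank ℝ (Matrix (Fin n) (Fin n) ℝ) - Module.finrank ℝ (q.map (adm t₀))) :=
      hmax t ht
    have h2 := Submodule.finrank_le (q.map (adm t))
    have h3 := Submodule.finrank_le (q.map (adm t₀))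
    omega
  refine ⟨t₀, ht₀, fun t₁ ht₁ X hX h1 h2 => ?_⟩
  by_contra hne
  set m := Module.finrank ℝ (q.map (adm t₀)) with hm
  let b := Module.finBasis ℝ (q.map (adm t₀))
  have hb : ∀ i, ∃ u ∈ q, adm t₀ u = b i := fun i => (b i).2
  choose u hu hub using hb
  let v : ℝ → Fin (m + 1) → Matrix (Fin n) (Fin n) ℝ := fun ε =>
    Fin.cons (adm t₁ X) fun i => adm (t₀ + ε • t₁) (u i)
  have hli : LinearIndependent ℝ (v 0) := by
    have e : v 0 = Fin.cons (adm t₁ X) fun i => (b i : Matrix (Fin n) (Fin n) ℝ) := by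
      simp only [v]
      congr 1
      funext i
      rw [zero_smul, add_zero, hub]
    rw [e, linearIndependent_finCons]
    refine ⟨(b.linearIndependent.map' _ (Submodule.ker_subtype _)), fun hmem => ?_⟩
    have h3 : adm t₁ X ∈ q.map (adm t₀) := by
      refine (Submodule.span_le.2 ?_) hmem
      rintro _ ⟨i, rfl⟩
      exact (b i).2
    obtain ⟨Y, hY, hYe⟩ := h3
    have h4 : adm t₀ (adm t₀ Y) = 0 := by
      rw [hYe]
      simp only [adm_apply] at h1 h2 ⊢
      have h1' : t₀ * t₁ = t₁ * t₀ := sub_eq_zero.1 h1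
      have h2' : t₀ * X = X * t₀ := sub_eq_zero.1 h2
      have e1 : t₀ * (t₁ * X - X * t₁) = t₁ * X * t₀ - X * t₁ * t₀ := by
        rw [mul_sub, ← mul_assoc, ← mul_assoc, h1', h2', mul_assoc, mul_assoc, h1', h2',
          ← mul_assoc, ← mul_assoc]
      rw [e1, sub_mul, sub_self]
    exact hne (hYe ▸ adm_eq_zero (hq _ ht₀) (hq _ hY) h4)
  have hc : Continuous v := by
    refine continuous_pi fun i => ?_
    refine Fin.cases ?_ (fun i => ?_) i
    · exact continuous_const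
    · show Continuous fun ε : ℝ => (t₀ + ε • t₁) * u i - u i * (t₀ + ε • t₁)
      fun_prop
  have hev : ∀ᶠ ε in 𝓝 (0 : ℝ), LinearIndependent ℝ (v ε) :=
    (hc.tendsto 0).eventually (isOpen_li.mem_nhds hli)
  obtain ⟨ε, hε, hε0⟩ := ((hev.filter_mono nhdsWithin_le_nhds).and
    (self_mem_nhdsWithin : {0}ᶜ ∈ 𝓝[≠] (0 : ℝ))).exists
  have hmem : ∀ i, v ε i ∈ q.map (adm (t₀ + ε • t₁)) := by
    intro i
    refine Fin.cases ?_ (fun i => ?_) i
    · refine ⟨ε⁻¹ • X, q.smul_mem _ hX, ?_⟩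
      show adm (t₀ + ε • t₁) (ε⁻¹ • X) = adm t₁ X
      have e : adm (t₀ + ε • t₁) X = ε • adm t₁ X := by
        simp only [adm_apply] at h2 ⊢
        have h2' : t₀ * X = X * t₀ := sub_eq_zero.1 h2
        rw [add_mul, mul_add, h2', smul_mul_assoc, mul_smul_comm, smul_sub]
        abel
      rw [map_smul, e, smul_smul, inv_mul_cancel₀ hε0, one_smul]
    · exact ⟨u i, hu i, rfl⟩
  have hli' : LinearIndependent ℝ (fun i => (⟨v ε i, hmem i⟩ : q.map (adm (t₀ + ε • t₁)))) :=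
    LinearIndependent.of_comp (q.map (adm (t₀ + ε • t₁))).subtype hε
  have h5 := hli'.fintype_card_le_finrank
  rw [Fintype.card_fin] at h5
  have h6 := hmax' (t₀ + ε • t₁) (q.add_mem ht₀ (q.smul_mem _ ht₁))
  omega

end Pool.Agent.Helper29.CKP
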