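import Mathlib

set_option autoImplicit false

/-!
# Two quadratic forms `b₁`, `b₂` with `b₁² + b₂² = c² N²`, `N` positive definite of rank at least 3
-/

namespace Pool.Agent.Helper29.CKP

open Module

variable {P : Type*} [AddCommGroup P] [Module ℝ P] [FiniteDimensional ℝ P]

theorem exists_ker2 (h3 : 3 ≤ finrank ℝ P) (f g : P →ₗ[ℝ] ℝ) : ∃ x, x ≠ 0 ∧ f x = 0 ∧ g x = 0 := by
  have h1 : LinearMap.ker (f.prod g) ≠ ⊥ := by
    apply LinearMap.ker_ne_bot_of_finrank_lt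
    rw [Module.finrank_prod, Module.finrank_self]
    omega
  obtain ⟨x, hx, hx0⟩ := (Submodule.ne_bot_iff _).1 h1
  have h2 : (f.prod g) x = 0 := hx
  exact ⟨x, hx0, congrArg Prod.fst h2, congrArg Prod.snd h2⟩

section
variable {N b₁ b₂ : P →ₗ[ℝ] P →ₗ[ℝ] ℝ} {c : ℝ}

theorem forms_core (h3 : 3 ≤ finrank ℝ P) (hN : ∀ x y, N x y = N y x)
    (h1 : ∀ x y, b₁ x y = b₁ y x) (h2 : ∀ x y, b₂ x y = b₂ y x) (hpos : ∀ x, x ≠ 0 → 0 < N x x)
    (hc : 0 < c) (hq : ∀ x, b₁ x x ^ 2 + b₂ x x ^ 2 = c ^ 2 * N x x ^ 2) {x₀ : P} (hx₀ : x₀ ≠ 0)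
    (hb₁ : b₁ x₀ x₀ = c * N x₀ x₀) (hb₂ : b₂ x₀ x₀ = 0) (y : P) : b₁ y y = c * N y y := by
  have key : ∀ x y : P, ∀ t : ℝ,
      (b₁ x x + 2 * t * b₁ x y + t ^ 2 * b₁ y y) ^ 2 +
        (b₂ x x + 2 * t * b₂ x y + t ^ 2 * b₂ y y) ^ 2 =
      c ^ 2 * (N x x + 2 * t * N x y + t ^ 2 * N y y) ^ 2 := by
    intro x y t
    have h := hq (x + t • y)
    simp only [map_add, map_smul, LinearMap.add_apply, LinearMap.smul_apply, smul_eq_mul] at h
    rw [h1 y x, h2 y x, hN y x] at h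
    linear_combination h
  have E1 : ∀ x y : P, b₁ x x * b₁ x y + b₂ x x * b₂ x y = c ^ 2 * (N x x * N x y) := by
    intro x y
    have k1 := key x y 1
    have k2 := key x y (-1)
    have k3 := key x y 2
    have k4 := key x y (-2)
    linear_combination (8 * (k1 - k2) - (k3 - k4)) / 48
  have E2 : ∀ x y : P, 2 * (b₁ x y ^ 2 + b₂ x y ^ 2) + (b₁ x x * b₁ y y + b₂ x x * b₂ y y) =
      c ^ 2 * (2 * N x y ^ 2 + N x x * N y y) := by
    intro x y
    have k0 := key x y 0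
    have k1 := key x y 1
    have k2 := key x y (-1)
    have k3 := key x y 2
    have k4 := key x y (-2)
    linear_combination (16 * (k1 + k2) - (k3 + k4) - 30 * k0) / 48
  have good : ∀ x : P, x ≠ 0 → b₁ x x = c * N x x → b₂ x x = 0 → ∀ y : P,
      2 * b₂ x y ^ 2 = c * N x x * (c * N y y - b₁ y y) := by
    intro x hx e1 e2 y
    have hNx := hpos x hx
    have k1 := E1 x y
    have k2 := E2 x y
    rw [e1, e2] at k1 k2
    have k3 : b₁ x y = c * N x y := by
      have : c * N x x * (b₁ x y - c * N x y) = 0 := by linear_combination k1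
      rcases mul_eq_zero.1 this with h | h
      · exact absurd h (mul_pos hc hNx).ne'
      · linarith
    rw [k3] at k2
    linear_combination k2
  obtain ⟨x, hx, e1, e2⟩ := exists_ker2 h3 (b₂ x₀) (b₂ y)
  have k1 := good x₀ hx₀ hb₁ hb₂ x
  rw [e1] at k1
  have k2 : b₁ x x = c * N x x := by
    have : c * N x₀ x₀ * (c * N x x - b₁ x x) = 0 := by linear_combination -k1
    rcases mul_eq_zero.1 this with h | h
    · exact absurd h (mul_pos hc (hpos x₀ hx₀)).ne'
    · linarith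
  have k3 : b₂ x x = 0 := by
    have h := hq x
    rw [k2] at h
    have : b₂ x x ^ 2 = 0 := by linear_combination h
    exact pow_eq_zero_iff (two_ne_zero) |>.1 this
  have k4 := good x hx k2 k3 y
  rw [h2 x y, e2] at k4
  have : c * N x x * (c * N y y - b₁ y y) = 0 := by linear_combination -k4
  rcases mul_eq_zero.1 this with h | h
  · exact absurd h (mul_pos hc (hpos x hx)).ne'
  · linarith

theorem forms (h3 : 3 ≤ finrank ℝ P) (hN : ∀ x y, N x y = N y x)
    (h1 : ∀ x y, b₁ x y = b₁ y x) (h2 : ∀ x y, b₂ x y = b₂ y x) (hpos : ∀ x, x ≠ 0 → 0 < N x x)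
    (hc : 0 < c) (hq : ∀ x, b₁ x x ^ 2 + b₂ x x ^ 2 = c ^ 2 * N x x ^ 2) :
    ∃ α β : ℝ, α ^ 2 + β ^ 2 = 1 ∧ ∀ x, b₁ x x = c * α * N x x ∧ b₂ x x = c * β * N x x := by
  obtain ⟨x₀, hx₀, -, -⟩ := exists_ker2 h3 0 0
  have hN0 := hpos x₀ hx₀
  have hcN : 0 < c * N x₀ x₀ := mul_pos hc hN0
  set α := b₁ x₀ x₀ / (c * N x₀ x₀) with hα
  set β := b₂ x₀ x₀ / (c * N x₀ x₀) with hβ
  have eα : b₁ x₀ x₀ = α * (c * N x₀ x₀) := by rw [hα, div_mul_cancel₀ _ hcN.ne']
  have eβ : b₂ x₀ x₀ = β * (c * N x₀ x₀) := by rw [hβ, div_mul_cancel₀ _ hcN.ne']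
  have hab : α ^ 2 + β ^ 2 = 1 := by
    have h := hq x₀
    rw [eα, eβ] at h
    have h4 : (c * N x₀ x₀) ^ 2 * (α ^ 2 + β ^ 2 - 1) = 0 := by linear_combination h
    rcases mul_eq_zero.1 h4 with h5 | h5
    · exact absurd h5 (pow_pos hcN 2).ne'
    · linarith
  refine ⟨α, β, hab, fun x => ?_⟩
  have h5 := forms_core (N := N) (b₁ := α • b₁ + β • b₂) (b₂ := (-β) • b₁ + α • b₂) h3 hN
    (fun x y => by
      simp only [LinearMap.add_apply, LinearMap.smul_apply, smul_eq_mul, h1 x y, h2 x y])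
    (fun x y => by
      simp only [LinearMap.add_apply, LinearMap.smul_apply, smul_eq_mul, h1 x y, h2 x y])
    hpos hc
    (fun x => by
      simp only [LinearMap.add_apply, LinearMap.smul_apply, smul_eq_mul]
      have h := hq x
      linear_combination h + (b₁ x x ^ 2 + b₂ x x ^ 2) * hab)
    hx₀
    (by
      simp only [LinearMap.add_apply, LinearMap.smul_apply, smul_eq_mul]
      rw [eα, eβ]
      linear_combination (c * N x₀ x₀) * hab)
    (by
      simp only [LinearMap.add_apply, LinearMap.smul_apply, smul_eq_mul]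
      rw [eα, eβ]
      ring) x
  simp only [LinearMap.add_apply, LinearMap.smul_apply, smul_eq_mul] at h5
  have h6 : (-β * b₁ x x + α * b₂ x x) ^ 2 = 0 := by
    have h := hq x
    linear_combination h + (b₁ x x ^ 2 + b₂ x x ^ 2) * hab -
      (α * b₁ x x + β * b₂ x x + c * N x x) * h5
  have h7 : -β * b₁ x x + α * b₂ x x = 0 := pow_eq_zero_iff (two_ne_zero) |>.1 h6
  constructor
  · linear_combination α * h5 - β * h7 - b₁ x x * hab
  · linear_combination β * h5 + α * h7 - b₂ x x * hab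

end

end Pool.Agent.Helper29.CKP
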