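import Pool.Agent.Helper29.CKP.Forms

set_option autoImplicit false

/-!
# `k` quadratic forms `b j` with `∑ (b j)² = c² N²`, `N` positive definite of rank at least `2k - 1`
-/

namespace Pool.Agent.Helper29.CKP

open Module

variable {P : Type*} [AddCommGroup P] [Module ℝ P] [FiniteDimensional ℝ P]

theorem formsK {k : ℕ} {N : P →ₗ[ℝ] P →ₗ[ℝ] ℝ} {b : Fin k → P →ₗ[ℝ] P →ₗ[ℝ] ℝ} {c : ℝ}
    (hdim : 2 * k ≤ finrank ℝ P + 1) (hP : 0 < finrank ℝ P) (hN : ∀ x y, N x y = N y x)
    (hb : ∀ j x y, b j x y = b j y x) (hpos : ∀ x, x ≠ 0 → 0 < N x x)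
    (hc : 0 < c) (hq : ∀ x, ∑ j, b j x x ^ 2 = c ^ 2 * N x x ^ 2) :
    ∃ ν : Fin k → ℝ, ∑ j, ν j ^ 2 = 1 ∧ ∀ x j, b j x x = c * ν j * N x x := by
  have key : ∀ x y : P, ∀ t : ℝ,
      (∑ j, b j x x ^ 2) + 4 * t * (∑ j, b j x x * b j x y) +
        t ^ 2 * (4 * (∑ j, b j x y ^ 2) + 2 * (∑ j, b j x x * b j y y)) +
        4 * t ^ 3 * (∑ j, b j x y * b j y y) + t ^ 4 * (∑ j, b j y y ^ 2) =
      c ^ 2 * (N x x + 2 * t * N x y + t ^ 2 * N y y) ^ 2 := by
    intro x y t
    have h := hq (x + t • y)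
    simp only [map_add, map_smul, LinearMap.add_apply, LinearMap.smul_apply, smul_eq_mul] at h
    rw [hN y x] at h
    have h1 : ∑ j, (b j x x + t * b j x y + t * (b j y x + t * b j y y)) ^ 2 =
        (∑ j, b j x x ^ 2) + 4 * t * (∑ j, b j x x * b j x y) +
        t ^ 2 * (4 * (∑ j, b j x y ^ 2) + 2 * (∑ j, b j x x * b j y y)) +
        4 * t ^ 3 * (∑ j, b j x y * b j y y) + t ^ 4 * (∑ j, b j y y ^ 2) := by
      simp only [Finset.mul_sum, mul_add, ← Finset.sum_add_distrib]
      refine Finset.sum_congr rfl fun j _ => ?_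
      rw [hb j y x]
      ring
    have h2 : ∑ j, (b j x x + t * b j y x + t * (b j x y + t * b j y y)) ^ 2 =
        ∑ j, (b j x x + t * b j x y + t * (b j y x + t * b j y y)) ^ 2 := by
      refine Finset.sum_congr rfl fun j _ => ?_
      rw [hb j y x]
    have h3 : c ^ 2 * (N x x + t * N x y + t * (N x y + t * N y y)) ^ 2 =
        c ^ 2 * (N x x + 2 * t * N x y + t ^ 2 * N y y) ^ 2 := by ring
    rw [← h1, ← h3, ← h]
    try rw [h2]
  have E1 : ∀ x y : P, ∑ j, b j x x * b j x y = c ^ 2 * (N x x * N x y) := by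
    intro x y
    have k1 := key x y 1
    have k2 := key x y (-1)
    have k3 := key x y 2
    have k4 := key x y (-2)
    linear_combination (8 * (k1 - k2) - (k3 - k4)) / 48
  have E2 : ∀ x y : P, 2 * (∑ j, b j x y ^ 2) + (∑ j, b j x x * b j y y) =
      c ^ 2 * (2 * N x y ^ 2 + N x x * N y y) := by
    intro x y
    have k0 := key x y 0
    have k1 := key x y 1
    have k2 := key x y (-1)
    have k3 := key x y 2
    have k4 := key x y (-2)
    linear_combination (16 * (k1 + k2) - (k3 + k4) - 30 * k0) / 48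
  -- a first vector
  have : Nontrivial P := Module.nontrivial_of_finrank_pos hP
  obtain ⟨x₀, hx₀⟩ := exists_ne (0 : P)
  have hN0 := hpos x₀ hx₀
  have hcN : 0 < c * N x₀ x₀ := mul_pos hc hN0
  let ν : Fin k → ℝ := fun j => b j x₀ x₀ / (c * N x₀ x₀)
  have eν : ∀ j, b j x₀ x₀ = c * ν j * N x₀ x₀ := by
    intro j
    show b j x₀ x₀ = c * (b j x₀ x₀ / (c * N x₀ x₀)) * N x₀ x₀
    field_simp
  have hν : ∑ j, ν j ^ 2 = 1 := by
    have h := hq x₀
    have h4 : ∑ j, b j x₀ x₀ ^ 2 = (c * N x₀ x₀) ^ 2 * ∑ j, ν j ^ 2 := by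
      rw [Finset.mul_sum]
      refine Finset.sum_congr rfl fun j _ => ?_
      rw [eν]
      ring
    rw [h4] at h
    have h5 : (c * N x₀ x₀) ^ 2 * (∑ j, ν j ^ 2 - 1) = 0 := by linear_combination h
    rcases mul_eq_zero.1 h5 with h6 | h6
    · exact absurd h6 (pow_pos hcN 2).ne'
    · linarith
  -- the deviations
  let d : Fin k → P →ₗ[ℝ] P →ₗ[ℝ] ℝ := fun j => b j - (c * ν j) • N
  have ed : ∀ j x y, d j x y = b j x y - c * ν j * N x y := fun _ _ _ => rfl
  have good : ∀ x : P, x ≠ 0 → (∀ j, b j x x = c * ν j * N x x) →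
      (∀ y, ∑ j, ν j * b j x y = c * N x y) ∧
      ∀ y, 2 * ∑ j, d j x y ^ 2 = c * N x x * (c * N y y - ∑ j, ν j * b j y y) := by
    intro x hx e1
    have hNx := hpos x hx
    have k3 : ∀ y, ∑ j, ν j * b j x y = c * N x y := by
      intro y
      have k1 := E1 x y
      have k2 : ∑ j, b j x x * b j x y = c * N x x * ∑ j, ν j * b j x y := by
        rw [Finset.mul_sum]
        refine Finset.sum_congr rfl fun j _ => ?_
        rw [e1]
        ring
      rw [k2] at k1
      have : c * N x x * ((∑ j, ν j * b j x y) - c * N x y) = 0 := by linear_combination k1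
      rcases mul_eq_zero.1 this with h | h
      · exact absurd h (mul_pos hc hNx).ne'
      · linarith
    refine ⟨k3, fun y => ?_⟩
    have k4 := E2 x y
    have k5 : ∑ j, b j x x * b j y y = c * N x x * ∑ j, ν j * b j y y := by
      rw [Finset.mul_sum]
      refine Finset.sum_congr rfl fun j _ => ?_
      rw [e1]
      ring
    have k6 : ∑ j, d j x y ^ 2 = ∑ j, b j x y ^ 2 - 2 * (c * N x y) * (∑ j, ν j * b j x y) +
        (c * N x y) ^ 2 * ∑ j, ν j ^ 2 := by
      simp only [Finset.mul_sum, ← Finset.sum_sub_distrib, ← Finset.sum_add_distrib]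
      refine Finset.sum_congr rfl fun j _ => ?_
      rw [ed]
      ring
    rw [k6, k3, hν]
    rw [k5] at k4
    linear_combination k4
  -- the orthogonal complement of `ν`
  let W : Submodule ℝ (Fin k → ℝ) :=
    { carrier := {v | ∑ j, ν j * v j = 0}
      add_mem' := by
        intro v w hv hw
        show ∑ j, ν j * (v j + w j) = 0
        simp only [mul_add, Finset.sum_add_distrib]
        rw [show ∑ j, ν j * v j = 0 from hv, show ∑ j, ν j * w j = 0 from hw, add_zero]
      zero_mem' := by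
        show ∑ j, ν j * (0 : ℝ) = 0
        simp
      smul_mem' := by
        intro a v hv
        show ∑ j, ν j * (a * v j) = 0
        have : ∑ j, ν j * (a * v j) = a * ∑ j, ν j * v j := by
          rw [Finset.mul_sum]
          exact Finset.sum_congr rfl fun j _ => by ring
        rw [this, show ∑ j, ν j * v j = 0 from hv, mul_zero] }
  have hW : finrank ℝ W < k := by
    have h1 : W ≠ ⊤ := by
      intro h
      have h2 : ν ∈ W := by rw [h]; trivial
      have h3 : ∑ j, ν j * ν j = 0 := h2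
      have h4 : ∑ j, ν j * ν j = ∑ j, ν j ^ 2 := Finset.sum_congr rfl fun j _ => by ring
      rw [h4, hν] at h3
      exact one_ne_zero h3
    have h2 := Submodule.finrank_lt h1
    rwa [Module.finrank_fin_fun] at h2
  have hg0 := good x₀ hx₀ eν
  have hdW : ∀ x : P, x ≠ 0 → (∀ j, b j x x = c * ν j * N x x) → ∀ y,
      (fun j => d j x y) ∈ W := by
    intro x hx e1 y
    show ∑ j, ν j * d j x y = 0
    have h1 : ∑ j, ν j * d j x y = ∑ j, ν j * b j x y - c * N x y * ∑ j, ν j ^ 2 := by
      rw [Finset.mul_sum, ← Finset.sum_sub_distrib]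
      refine Finset.sum_congr rfl fun j _ => ?_
      rw [ed]
      ring
    rw [h1, (good x hx e1).1, hν, mul_one, sub_self]
  let D₀ : P →ₗ[ℝ] W :=
    { toFun := fun x => ⟨fun j => d j x₀ x, hdW x₀ hx₀ eν x⟩
      map_add' := fun x y => Subtype.ext (funext fun j => map_add (d j x₀) x y)
      map_smul' := fun a x => Subtype.ext (funext fun j => map_smul (d j x₀) a x) }
  have hker : ∀ x ∈ LinearMap.ker D₀, ∀ j, d j x₀ x = 0 := by
    intro x hx j
    have h1 : D₀ x = 0 := hx
    exact congrFun (congrArg (fun w : W => (w : Fin k → ℝ)) h1) j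
  have hgood : ∀ x ∈ LinearMap.ker D₀, x ≠ 0 → ∀ j, b j x x = c * ν j * N x x := by
    intro x hx hx0
    have h1 := hg0.2 x
    have h2 : ∑ j, d j x₀ x ^ 2 = 0 := Finset.sum_eq_zero fun j _ => by rw [hker x hx j]; norm_num
    rw [h2, mul_zero] at h1
    have h3 : ∑ j, ν j * b j x x = c * N x x := by
      rcases mul_eq_zero.1 h1.symm with h | h
      · exact absurd h hcN.ne'
      · linarith
    have h4 : ∑ j, (b j x x - c * ν j * N x x) ^ 2 = 0 := by
      have h5 : ∑ j, (b j x x - c * ν j * N x x) ^ 2 = ∑ j, b j x x ^ 2 -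
          2 * (c * N x x) * (∑ j, ν j * b j x x) + (c * N x x) ^ 2 * ∑ j, ν j ^ 2 := by
        simp only [Finset.mul_sum, ← Finset.sum_sub_distrib, ← Finset.sum_add_distrib]
        exact Finset.sum_congr rfl fun j _ => by ring
      rw [h5, h3, hν, hq]
      ring
    intro j
    have h6 := (Finset.sum_eq_zero_iff_of_nonneg fun j _ => sq_nonneg _).1 h4 j
      (Finset.mem_univ j)
    have h7 := pow_eq_zero_iff (two_ne_zero) |>.1 h6
    linarith
  refine ⟨ν, hν, fun y => ?_⟩
  -- a good vector with vanishing deviations from `y`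
  obtain ⟨x, hx, hx0, hxy⟩ : ∃ x ∈ LinearMap.ker D₀, x ≠ 0 ∧ ∀ j, d j x y = 0 := by
    have hdW' : ∀ x : LinearMap.ker D₀, (fun j => d j (x : P) y) ∈ W := by
      intro x
      by_cases hx : (x : P) = 0
      · rw [hx]
        show ∑ j, ν j * d j 0 y = 0
        refine Finset.sum_eq_zero fun j _ => ?_
        rw [map_zero, LinearMap.zero_apply, mul_zero]
      · exact hdW x hx (hgood x x.2 hx) y
    let D₁ : LinearMap.ker D₀ →ₗ[ℝ] W :=
      { toFun := fun x => ⟨fun j => d j (x : P) y, hdW' x⟩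
        map_add' := fun x x' => Subtype.ext (funext fun j => by
          show d j ((x : P) + (x' : P)) y = d j (x : P) y + d j (x' : P) y
          rw [map_add, LinearMap.add_apply])
        map_smul' := fun a x => Subtype.ext (funext fun j => by
          show d j (a • (x : P)) y = a * d j (x : P) y
          rw [map_smul, LinearMap.smul_apply, smul_eq_mul]) }
    have h1 : finrank ℝ (LinearMap.range D₀) + finrank ℝ (LinearMap.ker D₀) = finrank ℝ P :=
      LinearMap.finrank_range_add_finrank_ker D₀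
    have h2 : finrank ℝ (LinearMap.range D₀) ≤ finrank ℝ W := Submodule.finrank_le _
    have h3 : LinearMap.ker D₁ ≠ ⊥ := by
      apply LinearMap.ker_ne_bot_of_finrank_lt
      omega
    obtain ⟨x, hx, hx0⟩ := (Submodule.ne_bot_iff _).1 h3
    have h4 : D₁ x = 0 := hx
    refine ⟨x, x.2, fun h => hx0 (Subtype.ext h), fun j => ?_⟩
    exact congrFun (congrArg (fun w : W => (w : Fin k → ℝ)) h4) j
  have hgx := good x hx0 (hgood x hx hx0)
  have h1 := hgx.2 y
  have h2 : ∑ j, d j x y ^ 2 = 0 := Finset.sum_eq_zero fun j _ => by rw [hxy j]; norm_num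
  rw [h2, mul_zero] at h1
  have h3 : ∑ j, ν j * b j y y = c * N y y := by
    rcases mul_eq_zero.1 h1.symm with h | h
    · exact absurd h (mul_pos hc (hpos x hx0)).ne'
    · linarith
  have h4 : ∑ j, (b j y y - c * ν j * N y y) ^ 2 = 0 := by
    have h5 : ∑ j, (b j y y - c * ν j * N y y) ^ 2 = ∑ j, b j y y ^ 2 -
        2 * (c * N y y) * (∑ j, ν j * b j y y) + (c * N y y) ^ 2 * ∑ j, ν j ^ 2 := by
      simp only [Finset.mul_sum, ← Finset.sum_sub_distrib, ← Finset.sum_add_distrib]
      exact Finset.sum_congr rfl fun j _ => by ring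
    rw [h5, h3, hν, hq]
    ring
  intro j
  have h6 := (Finset.sum_eq_zero_iff_of_nonneg fun j _ => sq_nonneg _).1 h4 j (Finset.mem_univ j)
  have h7 := pow_eq_zero_iff (two_ne_zero) |>.1 h6
  linarith

end Pool.Agent.Helper29.CKP
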