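import Mathlib

set_option autoImplicit false

/-!
# The set of all `X` with `exp (t X)` in a closed group of real matrices
-/

open NormedSpace Filter Topology Matrix

namespace Pool.Agent.Helper29.CKP

section banach

variable {R : Type*} [NormedRing R] [NormedAlgebra ℝ R] [NormOneClass R] [CompleteSpace R]

omit [NormedAlgebra ℝ R] [CompleteSpace R] in
theorem norm_pow_sub_pow {a b : R} {M : ℝ} (hM : 1 ≤ M) (ha : ‖a‖ ≤ M) (hb : ‖b‖ ≤ M) (k : ℕ) :
    ‖a ^ k - b ^ k‖ ≤ k * M ^ k * ‖a - b‖ := by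
  induction k with
  | zero => simp
  | succ k ih =>
    have e : a ^ (k + 1) - b ^ (k + 1) = a ^ k * (a - b) + (a ^ k - b ^ k) * b := by
      rw [pow_succ, pow_succ, mul_sub, sub_mul]; abel
    have h0 : (0 : ℝ) ≤ ‖a - b‖ := norm_nonneg _
    have hMk : (0 : ℝ) ≤ M ^ k := by positivity
    have h1 : ‖a ^ k * (a - b)‖ ≤ M ^ (k + 1) * ‖a - b‖ := by
      refine (norm_mul_le _ _).trans (mul_le_mul_of_nonneg_right ?_ h0)
      calc ‖a ^ k‖ ≤ ‖a‖ ^ k := norm_pow_le _ _
        _ ≤ M ^ k := pow_le_pow_left₀ (norm_nonneg _) ha k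
        _ ≤ M ^ (k + 1) := pow_le_pow_right₀ hM (Nat.le_succ k)
    have h2 : ‖(a ^ k - b ^ k) * b‖ ≤ (k * M ^ k * ‖a - b‖) * M :=
      (norm_mul_le _ _).trans (mul_le_mul ih hb (norm_nonneg _) (by positivity))
    rw [e]
    refine (norm_add_le _ _).trans ((add_le_add h1 h2).trans (le_of_eq ?_))
    push_cast
    ring

omit [CompleteSpace R] in
/-- A curve through `1` grows at most linearly in norm. -/
theorem norm_le_one_add {c : ℝ → R} {Y : R} (h0 : c 0 = 1) (hc : HasDerivAt c Y 0) :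
    ∀ᶠ s in 𝓝 (0 : ℝ), ‖c s‖ ≤ 1 + (‖Y‖ + 1) * |s| := by
  have h1 := (hasDerivAt_iff_isLittleO.mp hc)
  have h2 := (Asymptotics.isLittleO_iff.mp h1) one_pos
  filter_upwards [h2] with s hs
  rw [h0, sub_zero, one_mul, Real.norm_eq_abs] at hs
  have e : c s = 1 + s • Y + (c s - 1 - s • Y) := by abel
  rw [e]
  refine (norm_add_le _ _).trans ?_
  have h3 : ‖(1 : R) + s • Y‖ ≤ 1 + |s| * ‖Y‖ := by
    refine (norm_add_le _ _).trans ?_
    rw [norm_one, norm_smul, Real.norm_eq_abs]
  linarith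

/-- If `c` is a curve through `1` with velocity `Y` then `c (t / k) ^ k → exp (t Y)`. -/
theorem tendsto_pow {c : ℝ → R} {Y : R} (h0 : c 0 = 1) (hc : HasDerivAt c Y 0) (t : ℝ) :
    Tendsto (fun k : ℕ => c (t / k) ^ k) atTop (𝓝 (exp (t • Y))) := by
  have hb : HasDerivAt (fun s : ℝ => exp (s • Y)) Y 0 := by
    have := hasDerivAt_exp_smul_const (𝕂 := ℝ) Y (0 : ℝ)
    simpa using this
  have hb0 : exp ((0 : ℝ) • Y) = 1 := by simp
  have hs : Tendsto (fun k : ℕ => t / k) atTop (𝓝 (0 : ℝ)) :=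
    tendsto_const_div_atTop_nhds_zero_nat t
  have hc1 := hs.eventually (norm_le_one_add h0 hc)
  have hb1 := hs.eventually (norm_le_one_add hb0 hb)
  have hcl := (hasDerivAt_iff_isLittleO.mp hc)
  have hbl := (hasDerivAt_iff_isLittleO.mp hb)
  set K : ℝ := (‖Y‖ + 1) * |t| with hK
  have hK0 : 0 ≤ K := by positivity
  -- the difference of the powers
  have key : Tendsto (fun k : ℕ => c (t / k) ^ k - exp ((t / k) • Y) ^ k) atTop (𝓝 0) := by
    rw [Metric.tendsto_nhds]
    intro ε hε
    set δ : ℝ := ε / (4 * (|t| + 1) * Real.exp K) with hδ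
    have hδ0 : 0 < δ := by positivity
    have h1 := hs.eventually ((Asymptotics.isLittleO_iff.mp hcl) hδ0)
    have h2 := hs.eventually ((Asymptotics.isLittleO_iff.mp hbl) hδ0)
    filter_upwards [h1, h2, hc1, hb1, eventually_gt_atTop 0] with k h1 h2 hc1 hb1 hk
    have hk' : (0 : ℝ) < k := by exact_mod_cast hk
    rw [h0, sub_zero, Real.norm_eq_abs] at h1
    rw [hb0, sub_zero, Real.norm_eq_abs] at h2
    have hd : ‖c (t / k) - exp ((t / k) • Y)‖ ≤ 2 * δ * |t / k| := by
      have e : c (t / k) - exp ((t / k) • Y) = (c (t / k) - 1 - (t / k) • Y)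
        - (exp ((t / k) • Y) - 1 - (t / k) • Y) := by abel
      rw [e]
      refine (norm_sub_le _ _).trans ?_
      linarith
    have hak : |t / k| = |t| / k := by rw [abs_div, abs_of_pos hk']
    have hMk : (1 + K / k) ^ k ≤ Real.exp K := by
      have h3 : 1 + K / k ≤ Real.exp (K / k) := by
        have := Real.add_one_le_exp (K / k)
        linarith
      calc (1 + K / k) ^ k ≤ Real.exp (K / k) ^ k :=
            pow_le_pow_left₀ (by positivity) h3 k
        _ = Real.exp K := by
          rw [← Real.exp_nat_mul]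
          congr 1
          field_simp
    have e1 : 1 + (‖Y‖ + 1) * |t / k| = 1 + K / k := by rw [hak, hK]; ring
    rw [e1] at hc1 hb1
    have h4 := norm_pow_sub_pow (M := 1 + K / k) (by have : 0 ≤ K / k := by positivity
                                                     linarith) hc1 hb1 k
    rw [dist_zero_right]
    calc ‖c (t / k) ^ k - exp ((t / k) • Y) ^ k‖
        ≤ k * (1 + K / k) ^ k * ‖c (t / k) - exp ((t / k) • Y)‖ := h4
      _ ≤ k * Real.exp K * (2 * δ * |t / k|) := by
          refine mul_le_mul (mul_le_mul_of_nonneg_left hMk hk'.le) hd (norm_nonneg _) (by positivity)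
      _ = 2 * δ * |t| * Real.exp K := by rw [hak]; field_simp
      _ < ε := by
          have h5 : 2 * δ * |t| * Real.exp K ≤ 2 * δ * (|t| + 1) * Real.exp K := by
            have : |t| ≤ |t| + 1 := by linarith
            gcongr
          have h6 : 2 * δ * (|t| + 1) * Real.exp K = ε / 2 := by
            rw [hδ]; field_simp; ring
          linarith
  have h7 : ∀ᶠ k : ℕ in atTop, exp ((t / k) • Y) ^ k = exp (t • Y) := by
    filter_upwards [eventually_gt_atTop 0] with k hk
    have hk' : (k : ℝ) ≠ 0 := by exact_mod_cast hk.ne'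
    let _ : NormedAlgebra ℚ R := NormedAlgebra.restrictScalars ℚ ℝ R
    rw [← NormedSpace.exp_nsmul]
    congr 1
    rw [← Nat.cast_smul_eq_nsmul ℝ, smul_smul]
    congr 1
    field_simp
  have h8 : Tendsto (fun k : ℕ => (c (t / k) ^ k - exp ((t / k) • Y) ^ k) + exp ((t / k) • Y) ^ k)
      atTop (𝓝 (0 + exp (t • Y))) :=
    key.add (tendsto_const_nhds.congr' (h7.mono fun _ h => h.symm))
  simpa using h8

end banach

end Pool.Agent.Helper29.CKP
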