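import Pool.Agent.Helper29.CKP.Lie
import Pool.Agent.Helper17.CKF.O0
import Pool.Agent.Helper17.CKF.B2

set_option autoImplicit false

/-!
# The linear space of all `X` with `exp (t X)` in a closed group of real matrices
-/

open NormedSpace Filter Topology Matrix Pool.Agent.Helper17.CKF

namespace Pool.Agent.Helper29.CKP

variable {G : Type} [Group G] [TopologicalSpace G] {n : ℕ}

theorem ι_inv (M : MatGroup G n) (g : G) : M.ι g⁻¹ = (M.ι g)⁻¹ :=
  (Matrix.inv_eq_left_inv (B2_inv_mul M g)).symm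

theorem isUnit_ι (M : MatGroup G n) (g : G) : IsUnit (M.ι g) :=
  ⟨⟨M.ι g, M.ι g⁻¹, B2_mul_inv M g, B2_inv_mul M g⟩, rfl⟩

/-- A limit of elements of a closed group is in the group, if it is invertible. -/
theorem mem_of_tendsto [IsTopologicalGroup G] (M : MatGroup G n) {H : Subgroup G}
    (hH : IsClosed (H : Set G))
    {u : ℕ → Matrix (Fin n) (Fin n) ℝ} (hu : ∀ᶠ k in atTop, ∃ h ∈ H, M.ι h = u k)
    {L : Matrix (Fin n) (Fin n) ℝ} (hL : IsUnit L) (hlim : Tendsto u atTop (𝓝 L)) :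
    ∃ h ∈ H, M.ι h = L := by
  have hdet : L.det ≠ 0 := ((Matrix.isUnit_iff_isUnit_det _).1 hL).ne_zero
  have h1 : Tendsto (fun k => (u k)⁻¹) atTop (𝓝 L⁻¹) := by
    have hc : ContinuousAt Ring.inverse L.det := by
      have e : (Ring.inverse : ℝ → ℝ) = Inv.inv := by funext x; simp
      rw [e]
      exact continuousAt_inv₀ hdet
    exact (continuousAt_matrix_inv L hc).tendsto.comp hlim
  have h2 : Tendsto (fun k => fn (u k) + fn (u k)⁻¹) atTop (𝓝 (fn L + fn L⁻¹)) :=
    ((continuous_fn.tendsto _).comp hlim).add ((continuous_fn.tendsto _).comp h1)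
  have h3 : ∀ᶠ k in atTop, fn (u k) + fn (u k)⁻¹ < fn L + fn L⁻¹ + 1 :=
    h2.eventually (gt_mem_nhds (by linarith))
  have hS : IsCompact (M.ι '' ({g : G | fn (M.ι g) + fn (M.ι g⁻¹) ≤ fn L + fn L⁻¹ + 1} ∩ H)) :=
    ((M.compact _).inter_right hH).image M.cont
  obtain ⟨h, ⟨-, hh⟩, e⟩ := hS.isClosed.mem_of_tendsto hlim (by
    filter_upwards [hu, h3] with k hk h3
    obtain ⟨h, hh, e⟩ := hk
    refine ⟨h, ⟨?_, hh⟩, e⟩
    show fn (M.ι h) + fn (M.ι h⁻¹) ≤ _
    rw [ι_inv, e]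
    exact h3.le)
  exact ⟨h, hh, e⟩

/-- The exponential of a matrix is differentiable along lines. -/
theorem hasDerivAt_exp (X : Matrix (Fin n) (Fin n) ℝ) :
    HasDerivAt (fun s : ℝ => exp (s • X)) X 0 := by
  open scoped Norms.Operator in
  have h := hasDerivAt_exp_smul_const (𝕂 := ℝ) X (0 : ℝ)
  rw [zero_smul, exp_zero, one_mul] at h
  exact h

/-- All `X` such that `exp (t X)` is in `H` for all real `t`. -/
def lieSet (M : MatGroup G n) (H : Subgroup G) : Set (Matrix (Fin n) (Fin n) ℝ) :=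
  {X | ∀ t : ℝ, ∃ h ∈ H, M.ι h = exp (t • X)}

/-- The velocity of a curve in `H` through `1` is in the Lie algebra. -/
theorem mem_lieSet_of_curve [IsTopologicalGroup G] (M : MatGroup G n) {H : Subgroup G}
    (hH : IsClosed (H : Set G)) {c : ℝ → Matrix (Fin n) (Fin n) ℝ}
    {Y : Matrix (Fin n) (Fin n) ℝ} (hc : ∀ s, ∃ h ∈ H, M.ι h = c s) (h0 : c 0 = 1)
    (hd : HasDerivAt c Y 0) : Y ∈ lieSet M H := by
  intro t
  refine mem_of_tendsto M hH (u := fun k : ℕ => c (t / k) ^ k) (Eventually.of_forall fun k => ?_)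
    (Matrix.isUnit_exp _) ?_
  · obtain ⟨h, hh, e⟩ := hc (t / k)
    exact ⟨h ^ k, H.pow_mem hh k, by rw [map_pow, e]⟩
  · rcases isEmpty_or_nonempty (Fin n) with hn | hn
    · refine tendsto_const_nhds.congr fun k => Subsingleton.elim _ _
    · open scoped Norms.Operator in
      exact tendsto_pow h0 hd t

theorem hasDerivAt_const' (Y : Matrix (Fin n) (Fin n) ℝ) :
    HasDerivAt (fun _ : ℝ => Y) 0 0 := by
  open scoped Norms.Operator in
  exact hasDerivAt_const (0 : ℝ) Y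

theorem hasDerivAt_mul {a b : ℝ → Matrix (Fin n) (Fin n) ℝ} {a' b' : Matrix (Fin n) (Fin n) ℝ}
    {x : ℝ} (ha : HasDerivAt a a' x) (hb : HasDerivAt b b' x) :
    HasDerivAt (fun s => a s * b s) (a' * b x + a x * b') x := by
  open scoped Norms.Operator in
  exact HasDerivAt.mul ha hb

/-- The Lie algebra of a closed group, as a linear space. -/
def lie [IsTopologicalGroup G] (M : MatGroup G n) (H : Subgroup G) (hH : IsClosed (H : Set G)) :
    Submodule ℝ (Matrix (Fin n) (Fin n) ℝ) where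
  carrier := lieSet M H
  add_mem' := by
    intro X Y hX hY
    refine mem_lieSet_of_curve M hH (c := fun s => exp (s • X) * exp (s • Y)) (fun s => ?_)
      (by simp) ?_
    · obtain ⟨h, hh, e⟩ := hX s
      obtain ⟨h', hh', e'⟩ := hY s
      exact ⟨h * h', H.mul_mem hh hh', by rw [map_mul, e, e']⟩
    · have h := hasDerivAt_mul (hasDerivAt_exp X) (hasDerivAt_exp Y)
      simpa using h
  zero_mem' := by
    intro t
    exact ⟨1, H.one_mem, by simp⟩
  smul_mem' := by
    intro c X hX t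
    obtain ⟨h, hh, e⟩ := hX (t * c)
    exact ⟨h, hh, by rw [e, smul_smul]⟩

theorem mem_lie [IsTopologicalGroup G] {M : MatGroup G n} {H : Subgroup G}
    {hH : IsClosed (H : Set G)} {X : Matrix (Fin n) (Fin n) ℝ} :
    X ∈ lie M H hH ↔ ∀ t : ℝ, ∃ h ∈ H, M.ι h = exp (t • X) := Iff.rfl

theorem exp_conj_ι (M : MatGroup G n) (g : G) (X : Matrix (Fin n) (Fin n) ℝ) :
    exp (M.ι g * X * M.ι g⁻¹) = M.ι g * exp X * M.ι g⁻¹ := by
  rw [ι_inv]
  exact Matrix.exp_conj _ _ (isUnit_ι M g)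

/-- The Lie algebra is stable under conjugation by the group. -/
theorem conj_mem_lie [IsTopologicalGroup G] {M : MatGroup G n} {H : Subgroup G}
    {hH : IsClosed (H : Set G)} {X : Matrix (Fin n) (Fin n) ℝ} (hX : X ∈ lie M H hH)
    {g : G} (hg : g ∈ H) : M.ι g * X * M.ι g⁻¹ ∈ lie M H hH := by
  intro t
  obtain ⟨h, hh, e⟩ := hX t
  refine ⟨g * h * g⁻¹, H.mul_mem (H.mul_mem hg hh) (H.inv_mem hg), ?_⟩
  rw [map_mul, map_mul, e, ← exp_conj_ι, mul_smul_comm, smul_mul_assoc]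

/-- A derivative of a curve in a linear space of matrices is in the space. -/
theorem deriv_mem (L : Submodule ℝ (Matrix (Fin n) (Fin n) ℝ)) {f : ℝ → Matrix (Fin n) (Fin n) ℝ}
    {Y : Matrix (Fin n) (Fin n) ℝ} (hf : ∀ s, f s ∈ L) (hd : HasDerivAt f Y 0) : Y ∈ L := by
  have h1 : Tendsto (fun t : ℝ => t⁻¹ • (f (0 + t) - f 0)) (𝓝[≠] 0) (𝓝 Y) := by
    open scoped Norms.Operator in
    exact hasDerivAt_iff_tendsto_slope_zero.1 hd
  refine (L.closed_of_finiteDimensional).mem_of_tendsto h1 (Eventually.of_forall fun t => ?_)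
  exact L.smul_mem _ (L.sub_mem (hf _) (hf _))

/-- The Lie algebra is closed under commutators. -/
theorem lie_mem_lie [IsTopologicalGroup G] {M : MatGroup G n} {H : Subgroup G}
    {hH : IsClosed (H : Set G)} {X Y : Matrix (Fin n) (Fin n) ℝ} (hX : X ∈ lie M H hH)
    (hY : Y ∈ lie M H hH) : X * Y - Y * X ∈ lie M H hH := by
  refine deriv_mem (lie M H hH) (f := fun s => exp (s • X) * Y * exp (s • (-X))) (fun s => ?_) ?_
  · obtain ⟨h, hh, e⟩ := hX s
    have h1 := conj_mem_lie hY hh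
    rw [ι_inv, e, ← Matrix.exp_neg, ← smul_neg] at h1
    exact h1
  · have h := hasDerivAt_mul (hasDerivAt_mul (hasDerivAt_exp X) (hasDerivAt_const' Y))
      (hasDerivAt_exp (-X))
    have e : (X * Y + exp ((0 : ℝ) • X) * 0) * exp ((0 : ℝ) • -X) +
        exp ((0 : ℝ) • X) * Y * -X = X * Y - Y * X := by
      simp [sub_eq_add_neg]
    rw [e] at h
    exact h

end Pool.Agent.Helper29.CKP
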