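import Pool.Agent.Helper29.CKP.Triple

set_option autoImplicit false

/-!
# The real form of complex matrices
-/

open NormedSpace Filter Topology Matrix Pool.Agent.Helper17.CKF Pool.Agent.Helper20.CKP

namespace Pool.Agent.Helper29.CKP

section ExpJ
variable {m : ℕ} {J X : Matrix (Fin m) (Fin m) ℝ}

/-- For a symmetric matrix `X` and an orthogonal involution `J`, the exponential of `X` preserves
the form `J` if and only if `X` anticommutes with `J`. -/
theorem exp_form_iff (hJ : J * J = 1) (hJt : Jᵀ = J) (hX : Xᵀ = X) :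
    exp X * J * exp X = J ↔ J * X * J = -X := by
  have hJu : IsUnit J := ⟨⟨J, J, hJ, hJ⟩, rfl⟩
  have hJi : J⁻¹ = J := Matrix.inv_eq_left_inv hJ
  have h1 : exp (J * X * J) = J * exp X * J := by
    have := Matrix.exp_conj J X hJu
    rwa [hJi] at this
  have h2 : exp X * exp (-X) = 1 := by
    rw [← Matrix.exp_add_of_commute _ _ (Commute.refl X).neg_right, add_neg_cancel, exp_zero]
  constructor
  · intro h
    have h3 : exp (J * X * J) = exp (-X) := by
      rw [h1]
      calc J * exp X * J = J * exp X * J * (exp X * exp (-X)) := by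
            rw [h2, mul_one]
        _ = J * (exp X * J * exp X) * exp (-X) := by simp only [Matrix.mul_assoc]
        _ = exp (-X) := by rw [h, hJ, one_mul]
    refine exp_inj ?_ ?_ h3
    · rw [transpose_mul, transpose_mul, hJt, hX, Matrix.mul_assoc]
    · rw [transpose_neg, hX]
  · intro h
    rw [h] at h1
    calc exp X * J * exp X = (J * J) * exp X * J * exp X := by
          rw [hJ, one_mul]
      _ = J * (J * exp X * J) * exp X := by simp only [Matrix.mul_assoc]
      _ = J * (exp (-X) * exp X) := by rw [← h1, Matrix.mul_assoc]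
      _ = J := by
          rw [← Matrix.exp_add_of_commute _ _ (Commute.refl X).neg_left, neg_add_cancel, exp_zero,
            mul_one]

/-- For a symmetric matrix `X` and an orthogonal matrix `J`, the exponential of `X` commutes with
`J` if and only if `X` commutes with `J`. -/
theorem exp_comm_iff (hJ : J * Jᵀ = 1) (hX : Xᵀ = X) :
    exp X * J = J * exp X ↔ X * J = J * X := by
  have hJ' : Jᵀ * J = 1 := mul_eq_one_comm.1 hJ
  have hJu : IsUnit J := ⟨⟨J, Jᵀ, hJ, hJ'⟩, rfl⟩
  have hJi : J⁻¹ = Jᵀ := Matrix.inv_eq_left_inv hJ'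
  have h1 : exp (J * X * Jᵀ) = J * exp X * Jᵀ := by
    have := Matrix.exp_conj J X hJu
    rwa [hJi] at this
  have key : ∀ Y : Matrix (Fin m) (Fin m) ℝ, Y * J = J * Y ↔ J * Y * Jᵀ = Y := by
    intro Y
    constructor
    · intro h
      rw [← h, Matrix.mul_assoc, hJ, mul_one]
    · intro h
      calc Y * J = J * Y * Jᵀ * J := by rw [h]
        _ = J * Y := by rw [Matrix.mul_assoc, hJ', mul_one]
  rw [key, key, ← h1]
  constructor
  · intro h
    refine exp_inj ?_ hX h
    rw [transpose_mul, transpose_mul, transpose_transpose, hX, Matrix.mul_assoc]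
  · intro h
    rw [h]

end ExpJ

variable {m : ℕ}

/-- The real matrix `(Re Z, -Im Z; Im Z, Re Z)` of a complex matrix `Z`. -/
noncomputable def rl (Z : Matrix (Fin m) (Fin m) ℂ) : Matrix (Fin (m + m)) (Fin (m + m)) ℝ :=
  bm (Z.map Complex.re) (-Z.map Complex.im) (Z.map Complex.im) (Z.map Complex.re)

theorem map_re_mul (Z W : Matrix (Fin m) (Fin m) ℂ) : (Z * W).map Complex.re =
    Z.map Complex.re * W.map Complex.re - Z.map Complex.im * W.map Complex.im := by
  ext i j
  simp [Matrix.mul_apply, Complex.re_sum, Finset.sum_sub_distrib]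

theorem map_im_mul (Z W : Matrix (Fin m) (Fin m) ℂ) : (Z * W).map Complex.im =
    Z.map Complex.re * W.map Complex.im + Z.map Complex.im * W.map Complex.re := by
  ext i j
  simp [Matrix.mul_apply, Complex.im_sum, Finset.sum_add_distrib]

theorem rl_mul (Z W : Matrix (Fin m) (Fin m) ℂ) : rl (Z * W) = rl Z * rl W := by
  rw [rl, rl, rl, bm_mul, map_re_mul, map_im_mul]
  congr 1
  · rw [neg_mul, sub_eq_add_neg]
  · rw [mul_neg, neg_mul, neg_add]
  · rw [add_comm]
  · rw [mul_neg]
    abel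

theorem rl_one : rl (1 : Matrix (Fin m) (Fin m) ℂ) = 1 := by
  rw [rl, ← bm_one]
  congr 1 <;> ext i j <;> simp [Matrix.one_apply] <;> split_ifs <;> simp

theorem rl_transpose (Z : Matrix (Fin m) (Fin m) ℂ) : (rl Z)ᵀ = rl Zᴴ := by
  rw [rl, rl, bm_transpose]
  congr 1 <;> ext i j <;> simp

theorem bm_add {r n : ℕ} (A : Matrix (Fin r) (Fin r) ℝ) (B : Matrix (Fin r) (Fin n) ℝ)
    (C : Matrix (Fin n) (Fin r) ℝ) (D : Matrix (Fin n) (Fin n) ℝ)
    (A' : Matrix (Fin r) (Fin r) ℝ) (B' : Matrix (Fin r) (Fin n) ℝ)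
    (C' : Matrix (Fin n) (Fin r) ℝ) (D' : Matrix (Fin n) (Fin n) ℝ) :
    bm A B C D + bm A' B' C' D' = bm (A + A') (B + B') (C + C') (D + D') := by
  rw [bm, bm, bm, ← fromBlocks_add]
  rfl

theorem bm_smul {r n : ℕ} (c : ℝ) (A : Matrix (Fin r) (Fin r) ℝ) (B : Matrix (Fin r) (Fin n) ℝ)
    (C : Matrix (Fin n) (Fin r) ℝ) (D : Matrix (Fin n) (Fin n) ℝ) :
    c • bm A B C D = bm (c • A) (c • B) (c • C) (c • D) := by
  rw [bm, bm, ← fromBlocks_smul]
  rfl

theorem rl_add (Z W : Matrix (Fin m) (Fin m) ℂ) : rl (Z + W) = rl Z + rl W := by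
  rw [rl, rl, rl, bm_add]
  congr 1 <;> ext i j <;> simp
  ring

theorem rl_smul (c : ℝ) (Z : Matrix (Fin m) (Fin m) ℂ) : rl (c • Z) = c • rl Z := by
  rw [rl, rl, bm_smul]
  congr 1 <;> ext i j <;> simp

theorem rl_neg (Z : Matrix (Fin m) (Fin m) ℂ) : rl (-Z) = -rl Z := by
  rw [rl, rl, bm_neg]
  congr 1 <;> ext i j <;> simp

theorem rl_sub (Z W : Matrix (Fin m) (Fin m) ℂ) : rl (Z - W) = rl Z - rl W := by
  rw [sub_eq_add_neg, rl_add, rl_neg, sub_eq_add_neg]

theorem rl_inj {Z W : Matrix (Fin m) (Fin m) ℂ} (h : rl Z = rl W) : Z = W := by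
  obtain ⟨h1, -, h2, -⟩ := bm_inj h
  ext i j
  exact Complex.ext (congrFun (congrFun h1 i) j) (congrFun (congrFun h2 i) j)

theorem rl_trace (Z : Matrix (Fin m) (Fin m) ℂ) : (rl Z).trace = 2 * Z.trace.re := by
  rw [rl, bm_trace]
  have : (Z.map Complex.re).trace = Z.trace.re := by
    simp [Matrix.trace, Complex.re_sum]
  rw [this]
  ring

/-- The matrix of the multiplication by `i`. -/
noncomputable def Im (m : ℕ) : Matrix (Fin (m + m)) (Fin (m + m)) ℝ := bm 0 (-1) 1 0

theorem Im_orth : Im m * (Im m)ᵀ = 1 := by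
  rw [Im, bm_transpose, bm_mul, ← bm_one]
  congr 1 <;> simp

/-- The real matrices of complex matrices are the matrices which commute with the multiplication
by `i`. -/
theorem comm_iff {X : Matrix (Fin (m + m)) (Fin (m + m)) ℝ} :
    X * Im m = Im m * X ↔ ∃ Z, X = rl Z := by
  constructor
  · intro h
    obtain ⟨A, B, C, D, rfl⟩ := exists_bm X
    rw [Im, bm_mul, bm_mul] at h
    obtain ⟨h1, h2, h3, h4⟩ := bm_inj h
    refine ⟨Matrix.of fun i j => ⟨A i j, C i j⟩, ?_⟩
    rw [rl]
    have hB : B = -C := by simpa using h1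
    have hD : D = A := by simpa using h3
    rw [hB, hD]
    congr 1
  · rintro ⟨Z, rfl⟩
    rw [rl, Im, bm_mul, bm_mul]
    congr 1 <;> simp

end Pool.Agent.Helper29.CKP
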