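import Pool.Agent.Helper29.CKP.Real

set_option autoImplicit false

/-!
# The real form of matrices with real or complex entries
-/

open NormedSpace Filter Topology Matrix Pool.Agent.Helper17.CKF Pool.Agent.Helper20.CKP

namespace Pool.Agent.Helper29.CKP

variable {m : ℕ} {K : Type} [RCLike K]

/-- The real matrix `(re Z, -im Z; im Z, re Z)` of a matrix `Z` with real or complex entries. -/
noncomputable def rlK (Z : Matrix (Fin m) (Fin m) K) : Matrix (Fin (m + m)) (Fin (m + m)) ℝ :=
  bm (Z.map RCLike.re) (-Z.map RCLike.im) (Z.map RCLike.im) (Z.map RCLike.re)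

theorem map_re_mulK (Z W : Matrix (Fin m) (Fin m) K) : (Z * W).map RCLike.re =
    Z.map RCLike.re * W.map RCLike.re - Z.map RCLike.im * W.map RCLike.im := by
  ext i j
  simp [Matrix.mul_apply, Finset.sum_sub_distrib]

theorem map_im_mulK (Z W : Matrix (Fin m) (Fin m) K) : (Z * W).map RCLike.im =
    Z.map RCLike.re * W.map RCLike.im + Z.map RCLike.im * W.map RCLike.re := by
  ext i j
  simp [Matrix.mul_apply, Finset.sum_add_distrib]

theorem rlK_mul (Z W : Matrix (Fin m) (Fin m) K) : rlK (Z * W) = rlK Z * rlK W := by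
  rw [rlK, rlK, rlK, bm_mul, map_re_mulK, map_im_mulK]
  congr 1
  · rw [neg_mul, sub_eq_add_neg]
  · rw [mul_neg, neg_mul, neg_add]
  · rw [add_comm]
  · rw [mul_neg]
    abel

theorem rlK_one : rlK (1 : Matrix (Fin m) (Fin m) K) = 1 := by
  rw [rlK, ← bm_one]
  congr 1 <;> ext i j <;> by_cases h : i = j <;> simp [Matrix.one_apply, h]

theorem rlK_transpose (Z : Matrix (Fin m) (Fin m) K) : (rlK Z)ᵀ = rlK Zᴴ := by
  rw [rlK, rlK, bm_transpose]
  congr 1 <;> ext i j <;> simp

theorem rlK_add (Z W : Matrix (Fin m) (Fin m) K) : rlK (Z + W) = rlK Z + rlK W := by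
  rw [rlK, rlK, rlK, bm_add]
  congr 1 <;> ext i j <;> simp
  ring

theorem rlK_smul (c : ℝ) (Z : Matrix (Fin m) (Fin m) K) : rlK (c • Z) = c • rlK Z := by
  rw [rlK, rlK, bm_smul]
  congr 1 <;> ext i j <;> simp [RCLike.smul_re, RCLike.smul_im]

theorem rlK_neg (Z : Matrix (Fin m) (Fin m) K) : rlK (-Z) = -rlK Z := by
  rw [rlK, rlK, bm_neg]
  congr 1 <;> ext i j <;> simp

theorem rlK_sub (Z W : Matrix (Fin m) (Fin m) K) : rlK (Z - W) = rlK Z - rlK W := by
  rw [sub_eq_add_neg, rlK_add, rlK_neg, sub_eq_add_neg]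

theorem rlK_inj {Z W : Matrix (Fin m) (Fin m) K} (h : rlK Z = rlK W) : Z = W := by
  obtain ⟨h1, -, h2, -⟩ := bm_inj h
  ext i j
  exact RCLike.ext (congrFun (congrFun h1 i) j) (congrFun (congrFun h2 i) j)

theorem rlK_trace (Z : Matrix (Fin m) (Fin m) K) : (rlK Z).trace = 2 * RCLike.re Z.trace := by
  rw [rlK, bm_trace]
  have : (Z.map RCLike.re).trace = RCLike.re Z.trace := by
    simp [Matrix.trace]
  rw [this]
  ring

/-- The diagonal matrix which is `1` on the first half and `-1` on the second half. -/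
noncomputable def Dm (m : ℕ) : Matrix (Fin (m + m)) (Fin (m + m)) ℝ := bm 1 0 0 (-1)

theorem Dm_orth : Dm m * (Dm m)ᵀ = 1 := by
  rw [Dm, bm_transpose, bm_mul, ← bm_one]
  congr 1 <;> simp

/-- The matrix `X` commutes with the multiplication by `i`, and with `Dm m` for real entries. -/
def InC (K : Type) [RCLike K] (X : Matrix (Fin (m + m)) (Fin (m + m)) ℝ) : Prop :=
  X * Im m = Im m * X ∧ ((RCLike.I : K) = 0 → X * Dm m = Dm m * X)

/-- The real matrices of matrices with entries in `K`, as a commutant. -/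
theorem comm_iffK {X : Matrix (Fin (m + m)) (Fin (m + m)) ℝ} :
    InC K X ↔ ∃ Z : Matrix (Fin m) (Fin m) K, X = rlK Z := by
  constructor
  · rintro ⟨h, h'⟩
    obtain ⟨A, B, C, D, rfl⟩ := exists_bm X
    rw [Im, bm_mul, bm_mul] at h
    obtain ⟨h1, h2, h3, h4⟩ := bm_inj h
    have hB : B = -C := by simpa using h1
    have hD : D = A := by simpa using h3
    rcases RCLike.I_eq_zero_or_im_I_eq_one (K := K) with hI | hI
    · have h5 := h' hI
      rw [Dm, bm_mul, bm_mul] at h5
      obtain ⟨-, -, h6, -⟩ := bm_inj h5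
      have hC : C = 0 := eq_zero_of_eq_neg (by simpa using h6)
      refine ⟨Matrix.of fun i j => ((A i j : ℝ) : K), ?_⟩
      rw [rlK, hB, hD, hC]
      congr 1 <;> ext i j <;> simp
    · refine ⟨Matrix.of fun i j => ((A i j : ℝ) : K) + ((C i j : ℝ) : K) * RCLike.I, ?_⟩
      rw [rlK, hB, hD]
      congr 1 <;> ext i j <;> simp [hI]
  · rintro ⟨Z, rfl⟩
    refine ⟨?_, fun hI => ?_⟩
    · rw [rlK, Im, bm_mul, bm_mul]
      congr 1 <;> simp
    · have hz : Z.map RCLike.im = (0 : Matrix (Fin m) (Fin m) ℝ) := by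
        ext i j
        simp only [Matrix.map_apply, Matrix.zero_apply]
        have h1 := RCLike.re_add_im (Z i j)
        rw [hI, mul_zero, add_zero] at h1
        rw [← h1, RCLike.ofReal_im]
      rw [rlK, hz, Dm, bm_mul, bm_mul]
      congr 1 <;> simp

end Pool.Agent.Helper29.CKP
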