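import Pool.Agent.Helper29.CKP.Real

set_option autoImplicit false

/-!
# The groups `U(r, n)`
-/

open NormedSpace Filter Topology Matrix Pool.Agent.Helper17.CKF Pool.Agent.Helper20.CKP

namespace Pool.Agent.Helper29.CKP

variable {r n : ℕ}

/-- Complex block matrices. -/
noncomputable def cb (A : Matrix (Fin r) (Fin r) ℂ) (B : Matrix (Fin r) (Fin n) ℂ)
    (C : Matrix (Fin n) (Fin r) ℂ) (D : Matrix (Fin n) (Fin n) ℂ) :
    Matrix (Fin (r + n)) (Fin (r + n)) ℂ :=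
  (fromBlocks A B C D).submatrix finSumFinEquiv.symm finSumFinEquiv.symm

theorem cb_mul (A : Matrix (Fin r) (Fin r) ℂ) (B : Matrix (Fin r) (Fin n) ℂ)
    (C : Matrix (Fin n) (Fin r) ℂ) (D : Matrix (Fin n) (Fin n) ℂ)
    (A' : Matrix (Fin r) (Fin r) ℂ) (B' : Matrix (Fin r) (Fin n) ℂ)
    (C' : Matrix (Fin n) (Fin r) ℂ) (D' : Matrix (Fin n) (Fin n) ℂ) :
    cb A B C D * cb A' B' C' D' =
      cb (A * A' + B * C') (A * B' + B * D') (C * A' + D * C') (C * B' + D * D') := by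
  rw [cb, cb, cb, submatrix_mul_equiv, fromBlocks_multiply]

theorem cb_star (A : Matrix (Fin r) (Fin r) ℂ) (B : Matrix (Fin r) (Fin n) ℂ)
    (C : Matrix (Fin n) (Fin r) ℂ) (D : Matrix (Fin n) (Fin n) ℂ) :
    (cb A B C D)ᴴ = cb Aᴴ Cᴴ Bᴴ Dᴴ := by
  rw [cb, cb, conjTranspose_submatrix, fromBlocks_conjTranspose]

theorem cb_inj {A : Matrix (Fin r) (Fin r) ℂ} {B : Matrix (Fin r) (Fin n) ℂ}
    {C : Matrix (Fin n) (Fin r) ℂ} {D : Matrix (Fin n) (Fin n) ℂ}
    {A' : Matrix (Fin r) (Fin r) ℂ} {B' : Matrix (Fin r) (Fin n) ℂ}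
    {C' : Matrix (Fin n) (Fin r) ℂ} {D' : Matrix (Fin n) (Fin n) ℂ}
    (h : cb A B C D = cb A' B' C' D') : A = A' ∧ B = B' ∧ C = C' ∧ D = D' := by
  have h1 : fromBlocks A B C D = fromBlocks A' B' C' D' := by
    have h2 := congrArg (fun Z => Z.submatrix finSumFinEquiv finSumFinEquiv) h
    simpa only [cb, submatrix_submatrix, Equiv.symm_comp_self, submatrix_id_id] using h2
  exact fromBlocks_inj.1 h1

theorem exists_cb (Z : Matrix (Fin (r + n)) (Fin (r + n)) ℂ) : ∃ A B C D, Z = cb A B C D := by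
  refine ⟨(Z.submatrix finSumFinEquiv finSumFinEquiv).toBlocks₁₁,
    (Z.submatrix finSumFinEquiv finSumFinEquiv).toBlocks₁₂,
    (Z.submatrix finSumFinEquiv finSumFinEquiv).toBlocks₂₁,
    (Z.submatrix finSumFinEquiv finSumFinEquiv).toBlocks₂₂, ?_⟩
  rw [cb, fromBlocks_toBlocks, submatrix_submatrix, Equiv.self_comp_symm, submatrix_id_id]

theorem cb_neg (A : Matrix (Fin r) (Fin r) ℂ) (B : Matrix (Fin r) (Fin n) ℂ)
    (C : Matrix (Fin n) (Fin r) ℂ) (D : Matrix (Fin n) (Fin n) ℂ) :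
    -cb A B C D = cb (-A) (-B) (-C) (-D) := by
  rw [cb, cb, ← fromBlocks_neg]
  rfl

theorem cb_add (A : Matrix (Fin r) (Fin r) ℂ) (B : Matrix (Fin r) (Fin n) ℂ)
    (C : Matrix (Fin n) (Fin r) ℂ) (D : Matrix (Fin n) (Fin n) ℂ)
    (A' : Matrix (Fin r) (Fin r) ℂ) (B' : Matrix (Fin r) (Fin n) ℂ)
    (C' : Matrix (Fin n) (Fin r) ℂ) (D' : Matrix (Fin n) (Fin n) ℂ) :
    cb A B C D + cb A' B' C' D' = cb (A + A') (B + B') (C + C') (D + D') := by
  rw [cb, cb, cb, ← fromBlocks_add]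
  rfl

theorem cb_smul (c : ℝ) (A : Matrix (Fin r) (Fin r) ℂ) (B : Matrix (Fin r) (Fin n) ℂ)
    (C : Matrix (Fin n) (Fin r) ℂ) (D : Matrix (Fin n) (Fin n) ℂ) :
    c • cb A B C D = cb (c • A) (c • B) (c • C) (c • D) := by
  rw [cb, cb, ← fromBlocks_smul]
  rfl

theorem cb_sub (A : Matrix (Fin r) (Fin r) ℂ) (B : Matrix (Fin r) (Fin n) ℂ)
    (C : Matrix (Fin n) (Fin r) ℂ) (D : Matrix (Fin n) (Fin n) ℂ)
    (A' : Matrix (Fin r) (Fin r) ℂ) (B' : Matrix (Fin r) (Fin n) ℂ)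
    (C' : Matrix (Fin n) (Fin r) ℂ) (D' : Matrix (Fin n) (Fin n) ℂ) :
    cb A B C D - cb A' B' C' D' = cb (A - A') (B - B') (C - C') (D - D') := by
  rw [sub_eq_add_neg, cb_neg, cb_add, ← sub_eq_add_neg, ← sub_eq_add_neg, ← sub_eq_add_neg,
    ← sub_eq_add_neg]

theorem cb_one : cb (1 : Matrix (Fin r) (Fin r) ℂ) 0 0 (1 : Matrix (Fin n) (Fin n) ℂ) = 1 := by
  rw [cb, fromBlocks_one, submatrix_one_equiv]

theorem cb_trace (A : Matrix (Fin r) (Fin r) ℂ) (B : Matrix (Fin r) (Fin n) ℂ)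
    (C : Matrix (Fin n) (Fin r) ℂ) (D : Matrix (Fin n) (Fin n) ℂ) :
    (cb A B C D).trace = A.trace + D.trace := by
  have h1 : (cb A B C D).trace = (fromBlocks A B C D).trace :=
    Fintype.sum_equiv finSumFinEquiv.symm _ _ fun _ => rfl
  rw [h1]
  simp [Matrix.trace, Fintype.sum_sum_type]

/-- The diagonal matrix with `r` entries `1` and `n` entries `-1`. -/
noncomputable def Jc (r n : ℕ) : Matrix (Fin (r + n)) (Fin (r + n)) ℂ :=
  Matrix.diagonal fun i => if (i : ℕ) < r then 1 else -1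

theorem Jc_mul_self (r n : ℕ) : Jc r n * Jc r n = 1 := by
  rw [Jc, diagonal_mul_diagonal, ← diagonal_one]
  congr 1
  funext i
  split_ifs <;> norm_num

theorem Jc_star (r n : ℕ) : (Jc r n)ᴴ = Jc r n := by
  rw [Jc, diagonal_conjTranspose]
  congr 1
  funext i
  rw [Pi.star_apply]
  split_ifs <;> simp

theorem Jc_eq : Jc r n = cb 1 0 0 (-1) := by
  have h1 : fromBlocks (1 : Matrix (Fin r) (Fin r) ℂ) 0 0 (-1 : Matrix (Fin n) (Fin n) ℂ) =
      diagonal (Sum.elim (fun _ => 1) (fun _ => -1)) := by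
    ext i j
    rcases i with i | i <;> rcases j with j | j <;>
      simp [Matrix.one_apply, diagonal_apply]
    split_ifs <;> simp
  rw [cb, h1, Jc, submatrix_diagonal_equiv]
  congr 1
  funext i
  obtain ⟨k, rfl⟩ := finSumFinEquiv.surjective i
  rw [Function.comp_apply, Equiv.symm_apply_apply]
  cases k with
  | inl k => simp
  | inr k => simp

theorem rl_isUnit_of {Z : Matrix (Fin (r + n)) (Fin (r + n)) ℂ}
    (h : Zᴴ * Jc r n * Z = Jc r n) : Z * (Jc r n * Zᴴ * Jc r n) = 1 := by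
  apply mul_eq_one_comm.1
  calc Jc r n * Zᴴ * Jc r n * Z = Jc r n * (Zᴴ * Jc r n * Z) := by simp only [Matrix.mul_assoc]
    _ = 1 := by rw [h, Jc_mul_self]

/-- The group `U(r, n)` of the complex matrices `Z` with `Zᴴ J Z = J`, as a group of real
matrices. -/
noncomputable def Upq (r n : ℕ) : Subgroup (GL (Fin ((r + n) + (r + n))) ℝ) where
  carrier := {g | ∃ Z : Matrix (Fin (r + n)) (Fin (r + n)) ℂ,
    (g : Matrix (Fin ((r + n) + (r + n))) (Fin ((r + n) + (r + n))) ℝ) = rl Z ∧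
      Zᴴ * Jc r n * Z = Jc r n}
  mul_mem' := by
    rintro a b ⟨Z, hZ, hZ'⟩ ⟨W, hW, hW'⟩
    refine ⟨Z * W, by rw [rl_mul, ← hZ, ← hW]; rfl, ?_⟩
    calc (Z * W)ᴴ * Jc r n * (Z * W) = Wᴴ * (Zᴴ * Jc r n * Z) * W := by
          rw [conjTranspose_mul]
          simp only [Matrix.mul_assoc]
      _ = _ := by rw [hZ', hW']
  one_mem' := ⟨1, by rw [rl_one]; rfl, by rw [conjTranspose_one, one_mul, mul_one]⟩
  inv_mem' := by
    rintro a ⟨Z, hZ, hZ'⟩
    have h1 := rl_isUnit_of hZ'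
    refine ⟨Jc r n * Zᴴ * Jc r n, ?_, ?_⟩
    · have h2 : (a : Matrix (Fin ((r + n) + (r + n))) (Fin ((r + n) + (r + n))) ℝ) *
          rl (Jc r n * Zᴴ * Jc r n) = 1 := by rw [hZ, ← rl_mul, h1, rl_one]
      calc ((a⁻¹ : GL (Fin ((r + n) + (r + n))) ℝ) :
            Matrix (Fin ((r + n) + (r + n))) (Fin ((r + n) + (r + n))) ℝ) =
          ((a⁻¹ : GL (Fin ((r + n) + (r + n))) ℝ) :
            Matrix (Fin ((r + n) + (r + n))) (Fin ((r + n) + (r + n))) ℝ) *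
            ((a : Matrix (Fin ((r + n) + (r + n))) (Fin ((r + n) + (r + n))) ℝ) *
              rl (Jc r n * Zᴴ * Jc r n)) := by rw [h2, mul_one]
        _ = _ := by rw [← Matrix.mul_assoc, a.inv_mul, one_mul]
    · calc (Jc r n * Zᴴ * Jc r n)ᴴ * Jc r n * (Jc r n * Zᴴ * Jc r n) =
          Jc r n * (Z * (Jc r n * (Jc r n * Jc r n) * Zᴴ * Jc r n)) := by
            rw [conjTranspose_mul, conjTranspose_mul, conjTranspose_conjTranspose, Jc_star]
            simp only [Matrix.mul_assoc]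
        _ = _ := by rw [Jc_mul_self, mul_one, h1, mul_one]

theorem mem_Upq {g : GL (Fin ((r + n) + (r + n))) ℝ} : g ∈ Upq r n ↔
    (g : Matrix (Fin ((r + n) + (r + n))) (Fin ((r + n) + (r + n))) ℝ) * Im (r + n) =
      Im (r + n) * (g : Matrix (Fin ((r + n) + (r + n))) (Fin ((r + n) + (r + n))) ℝ) ∧
    (g : Matrix (Fin ((r + n) + (r + n))) (Fin ((r + n) + (r + n))) ℝ)ᵀ * rl (Jc r n) *
      (g : Matrix (Fin ((r + n) + (r + n))) (Fin ((r + n) + (r + n))) ℝ) = rl (Jc r n) := by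
  rw [comm_iff]
  constructor
  · rintro ⟨Z, hZ, h⟩
    exact ⟨⟨Z, hZ⟩, by rw [hZ, rl_transpose, ← rl_mul, ← rl_mul, h]⟩
  · rintro ⟨⟨Z, hZ⟩, h⟩
    refine ⟨Z, hZ, rl_inj ?_⟩
    rw [rl_mul, rl_mul, ← rl_transpose, ← hZ, h]

theorem czero_of_eq_neg {m k : ℕ} {A : Matrix (Fin m) (Fin k) ℂ} (h : A = -A) : A = 0 := by
  ext i j
  have := congrFun (congrFun h i) j
  rw [Matrix.neg_apply] at this
  rw [Matrix.zero_apply]
  linear_combination this / 2

/-- The real matrix of the complex matrix `(0, B; Bᴴ, 0)`. -/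
noncomputable def pc (r n : ℕ) :
    Matrix (Fin r) (Fin n) ℂ →ₗ[ℝ] Matrix (Fin ((r + n) + (r + n))) (Fin ((r + n) + (r + n))) ℝ where
  toFun B := rl (cb 0 B Bᴴ 0)
  map_add' B B' := by
    rw [← rl_add, cb_add, conjTranspose_add, add_zero, add_zero]
  map_smul' c B := by
    rw [RingHom.id_apply, ← rl_smul, cb_smul, conjTranspose_smul, smul_zero, smul_zero,
      star_trivial]

theorem pc_apply (B : Matrix (Fin r) (Fin n) ℂ) : pc r n B = rl (cb 0 B Bᴴ 0) := rfl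

theorem pc_inj {B B' : Matrix (Fin r) (Fin n) ℂ} (h : pc r n B = pc r n B') : B = B' :=
  (cb_inj (rl_inj h)).2.1

theorem pc_transpose (B : Matrix (Fin r) (Fin n) ℂ) : (pc r n B)ᵀ = pc r n B := by
  rw [pc_apply, rl_transpose, cb_star, conjTranspose_zero, conjTranspose_zero,
    conjTranspose_conjTranspose]

theorem pc_trace (B B' : Matrix (Fin r) (Fin n) ℂ) :
    (pc r n B * pc r n B').trace = 4 * (B * B'ᴴ).trace.re := by
  have h1 : (Bᴴ * B').trace = star ((B * B'ᴴ).trace) := by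
    rw [← trace_conjTranspose, conjTranspose_mul, conjTranspose_conjTranspose, trace_mul_comm]
  rw [pc_apply, pc_apply, ← rl_mul, rl_trace, cb_mul, cb_trace, zero_mul, zero_mul, zero_add,
    add_zero, h1, Complex.add_re]
  show 2 * (_ + ((starRingEnd ℂ) _).re) = _
  rw [Complex.conj_re]
  ring

theorem anti_iff_c {X : Matrix (Fin ((r + n) + (r + n))) (Fin ((r + n) + (r + n))) ℝ}
    (hX : Xᵀ = X) :
    (X * Im (r + n) = Im (r + n) * X ∧ rl (Jc r n) * X * rl (Jc r n) = -X) ↔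
      ∃ B, X = pc r n B := by
  rw [comm_iff]
  constructor
  · rintro ⟨⟨Z, rfl⟩, h⟩
    rw [← rl_mul, ← rl_mul, ← rl_neg] at h
    rw [rl_transpose] at hX
    have h' := rl_inj h
    have hX' := rl_inj hX
    obtain ⟨A, B, C, D, rfl⟩ := exists_cb Z
    rw [Jc_eq, cb_mul, cb_mul, cb_neg] at h'
    rw [cb_star] at hX'
    obtain ⟨h1, -, -, h2⟩ := cb_inj h'
    obtain ⟨-, h3, -, -⟩ := cb_inj hX'
    have hA : A = 0 := czero_of_eq_neg (by simpa using h1)
    have hD : D = 0 := czero_of_eq_neg (by simpa using h2)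
    refine ⟨B, ?_⟩
    rw [pc_apply, hA, hD, ← h3, conjTranspose_conjTranspose]
  · rintro ⟨B, rfl⟩
    refine ⟨⟨_, rfl⟩, ?_⟩
    rw [pc_apply, ← rl_mul, ← rl_mul, ← rl_neg, Jc_eq, cb_mul, cb_mul, cb_neg]
    simp

theorem expGL_mem_upq {X : Matrix (Fin ((r + n) + (r + n))) (Fin ((r + n) + (r + n))) ℝ}
    (hX : Xᵀ = X) :
    expGL X ∈ Upq r n ↔ X * Im (r + n) = Im (r + n) * X ∧
      rl (Jc r n) * X * rl (Jc r n) = -X := by
  rw [mem_Upq, expGL_val, ← Matrix.exp_transpose, hX, exp_comm_iff Im_orth hX,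
    exp_form_iff (by rw [← rl_mul, Jc_mul_self, rl_one]) (by rw [rl_transpose, Jc_star]) hX]

/-- `U(r, n)` is reductive. -/
theorem isReductive_upq (r n : ℕ) : IsReductive (Upq r n) where
  closed := by
    have h1 : ((Upq r n : Subgroup (GL (Fin ((r + n) + (r + n))) ℝ)) :
        Set (GL (Fin ((r + n) + (r + n))) ℝ)) =
        {g : GL (Fin ((r + n) + (r + n))) ℝ |
          (g : Matrix (Fin ((r + n) + (r + n))) (Fin ((r + n) + (r + n))) ℝ) * Im (r + n) =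
          Im (r + n) * (g : Matrix (Fin ((r + n) + (r + n))) (Fin ((r + n) + (r + n))) ℝ)} ∩
        {g : GL (Fin ((r + n) + (r + n))) ℝ | (g : Matrix (Fin ((r + n) + (r + n))) (Fin ((r + n) + (r + n))) ℝ)ᵀ *
          rl (Jc r n) * (g : Matrix (Fin ((r + n) + (r + n))) (Fin ((r + n) + (r + n))) ℝ) =
            rl (Jc r n)} := by
      ext g
      exact mem_Upq
    rw [h1]
    exact (isClosed_eq (Units.continuous_val.mul continuous_const)
      (continuous_const.mul Units.continuous_val)).inter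
      (isClosed_eq ((Units.continuous_val.matrix_transpose.mul continuous_const).mul
        Units.continuous_val) continuous_const)
  transpose := by
    rintro g ⟨Z, hZ, h⟩
    have h2 : (g : Matrix (Fin ((r + n) + (r + n))) (Fin ((r + n) + (r + n))) ℝ)ᵀ *
        ((g⁻¹ : GL (Fin ((r + n) + (r + n))) ℝ) :
          Matrix (Fin ((r + n) + (r + n))) (Fin ((r + n) + (r + n))) ℝ)ᵀ = 1 := by
      rw [← transpose_mul]
      exact (congrArg transpose g.inv_mul).trans transpose_one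
    have h3 := mul_eq_one_comm.1 h2
    refine ⟨⟨(g : Matrix (Fin ((r + n) + (r + n))) (Fin ((r + n) + (r + n))) ℝ)ᵀ, _, h2, h3⟩,
      ⟨Zᴴ, ?_, ?_⟩, rfl⟩
    · show (g : Matrix (Fin ((r + n) + (r + n))) (Fin ((r + n) + (r + n))) ℝ)ᵀ = _
      rw [hZ, rl_transpose]
    · rw [conjTranspose_conjTranspose]
      have h4 := rl_isUnit_of h
      calc Z * Jc r n * Zᴴ = Z * (Jc r n * Zᴴ * Jc r n) * Jc r n := by
            simp only [Matrix.mul_assoc, Jc_mul_self, Matrix.mul_one]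
        _ = Jc r n := by rw [h4, one_mul]
  power := by
    intro X hX h t
    rw [expGL_mem_upq hX] at h
    rw [expGL_mem_upq (by rw [transpose_smul, hX]), mul_smul_comm, mul_smul_comm, smul_mul_assoc,
      smul_mul_assoc, h.1, h.2, smul_neg]
    exact ⟨rfl, rfl⟩

theorem mem_pSpace_upq {X : Matrix (Fin ((r + n) + (r + n))) (Fin ((r + n) + (r + n))) ℝ} :
    X ∈ pSpace (Upq r n) ↔ ∃ B, X = pc r n B := by
  rw [mem_pSpace (isReductive_upq r n)]
  constructor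
  · rintro ⟨h1, h2⟩
    exact (anti_iff_c h1).1 ((expGL_mem_upq h1).1 h2)
  · rintro ⟨B, rfl⟩
    have h1 := pc_transpose B
    exact ⟨h1, (expGL_mem_upq h1).2 ((anti_iff_c h1).2 ⟨B, rfl⟩)⟩

/-- The group `U(r) × U(n)` acts on the matrices `B`. -/
theorem conj_upq {U : Matrix (Fin r) (Fin r) ℂ} {W : Matrix (Fin n) (Fin n) ℂ} (hU : U * Uᴴ = 1)
    (hW : W * Wᴴ = 1) : ∃ g ∈ Upq r n,
      (g : Matrix (Fin ((r + n) + (r + n))) (Fin ((r + n) + (r + n))) ℝ) *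
      (g : Matrix (Fin ((r + n) + (r + n))) (Fin ((r + n) + (r + n))) ℝ)ᵀ = 1 ∧
      ∀ B, (g : Matrix (Fin ((r + n) + (r + n))) (Fin ((r + n) + (r + n))) ℝ) * pc r n B *
        (g : Matrix (Fin ((r + n) + (r + n))) (Fin ((r + n) + (r + n))) ℝ)ᵀ =
          pc r n (U * B * Wᴴ) := by
  have hU' : Uᴴ * U = 1 := mul_eq_one_comm.1 hU
  have hW' : Wᴴ * W = 1 := mul_eq_one_comm.1 hW
  have h0 : cb U 0 0 W * (cb U 0 0 W)ᴴ = 1 := by
    rw [cb_star, cb_mul, ← cb_one]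
    simp [hU, hW]
  have h1 : rl (cb U 0 0 W) * (rl (cb U 0 0 W))ᵀ = 1 := by
    rw [rl_transpose, ← rl_mul, h0, rl_one]
  have h2 : (rl (cb U 0 0 W))ᵀ * rl (cb U 0 0 W) = 1 := mul_eq_one_comm.1 h1
  refine ⟨⟨rl (cb U 0 0 W), (rl (cb U 0 0 W))ᵀ, h1, h2⟩, ⟨cb U 0 0 W, rfl, ?_⟩, h1, fun B => ?_⟩
  · rw [Jc_eq, cb_star, cb_mul, cb_mul]
    simp [hU', hW']
  · show rl (cb U 0 0 W) * pc r n B * (rl (cb U 0 0 W))ᵀ = _
    rw [pc_apply, pc_apply, rl_transpose, ← rl_mul, ← rl_mul, cb_star, cb_mul, cb_mul]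
    simp [Matrix.mul_assoc]

/-- Every orthogonal element of `U(r, n)` is in `U(r) × U(n)`. -/
theorem conj_upq' {g : GL (Fin ((r + n) + (r + n))) ℝ} (hg : g ∈ Upq r n)
    (ho : (g : Matrix (Fin ((r + n) + (r + n))) (Fin ((r + n) + (r + n))) ℝ) *
      (g : Matrix (Fin ((r + n) + (r + n))) (Fin ((r + n) + (r + n))) ℝ)ᵀ = 1) :
    ∃ (U : Matrix (Fin r) (Fin r) ℂ) (W : Matrix (Fin n) (Fin n) ℂ), U * Uᴴ = 1 ∧ W * Wᴴ = 1 ∧
      ∀ B, (g : Matrix (Fin ((r + n) + (r + n))) (Fin ((r + n) + (r + n))) ℝ) * pc r n B *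
        (g : Matrix (Fin ((r + n) + (r + n))) (Fin ((r + n) + (r + n))) ℝ)ᵀ =
          pc r n (U * B * Wᴴ) := by
  obtain ⟨Z, e, hg⟩ := hg
  obtain ⟨A, B, C, D, rfl⟩ := exists_cb Z
  rw [e] at ho ⊢
  rw [rl_transpose, ← rl_mul, ← rl_one] at ho
  replace ho := rl_inj ho
  have h1 : Jc r n * cb A B C D = cb A B C D * Jc r n := by
    calc Jc r n * cb A B C D = (cb A B C D * (cb A B C D)ᴴ) * Jc r n * cb A B C D := by
          rw [ho, one_mul]
      _ = cb A B C D * ((cb A B C D)ᴴ * Jc r n * cb A B C D) := by simp only [Matrix.mul_assoc]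
      _ = _ := by rw [hg]
  rw [Jc_eq, cb_mul, cb_mul] at h1
  obtain ⟨-, h2, h3, -⟩ := cb_inj h1
  have hB : B = 0 := czero_of_eq_neg (by simpa using h2)
  have hC : C = 0 := czero_of_eq_neg (by simpa using h3.symm)
  subst hB hC
  rw [cb_star, cb_mul, ← cb_one] at ho
  obtain ⟨h4, -, -, h5⟩ := cb_inj ho
  refine ⟨A, D, by simpa using h4, by simpa using h5, fun B => ?_⟩
  rw [pc_apply, pc_apply, rl_transpose, ← rl_mul, ← rl_mul, cb_star, cb_mul, cb_mul]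
  simp [Matrix.mul_assoc]

/-- The triple product in the coordinates of `U(r, n)`. -/
theorem pc_triple (B C : Matrix (Fin r) (Fin n) ℂ) :
    pc r n B * (pc r n B * pc r n C - pc r n C * pc r n B) -
      (pc r n B * pc r n C - pc r n C * pc r n B) * pc r n B =
    -pc r n ((2 : ℝ) • (B * Cᴴ * B) - C * Bᴴ * B - B * Bᴴ * C) := by
  simp only [pc_apply, ← rl_mul, ← rl_sub, ← rl_neg, cb_mul, cb_sub, cb_neg]
  congr 2
  · simp
  · simp only [Matrix.mul_zero, Matrix.zero_mul, add_zero, zero_add, sub_zero, zero_sub,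
      Matrix.mul_sub, Matrix.sub_mul, two_smul, ← Matrix.mul_assoc]
    abel
  · simp only [Matrix.mul_zero, Matrix.zero_mul, add_zero, zero_add, sub_zero, zero_sub,
      Matrix.mul_sub, Matrix.sub_mul, two_smul, conjTranspose_sub, conjTranspose_add,
      conjTranspose_mul, conjTranspose_conjTranspose, ← Matrix.mul_assoc]
    abel
  · simp

end Pool.Agent.Helper29.CKP
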